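import Pool.Agent.Helper59.DX.DegX

/-!
# DX-BZ: weak Bezout bound by resultants

`P, Q : K[X][Y]`, `P` irreducible, `P ∤ Q`. The set of `x : K` for which `P(x,·), Q(x,·)` have a common zero has at most
`degX P * deg_Y Q + degX Q * deg_Y P` elements.

PROOF. Let `R = resultant P Q : K[X]` (outer variable; Mathlib/RingTheory/Polynomial/Resultant/Basic.lean, default degrees `m = P.natDegree`,
`n = Q.natDegree`).
Case `m = n = 0`: `P = C p`, `Q = C q`, `p` irreducible, `p ∤ q`; a common zero `x` gives `p(x) = q(x) = 0`, so `X - C x ∣ p`,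
`p` is associated to `X - C x`, `p ∣ q`: contradiction; `s = ∅`.
Otherwise: (1) `R(x) = 0` for `x ∈ s`: `exists_mul_add_mul_eq_C_resultant` gives `P * a + Q * b = C R`, evaluate at `(x,y)`.
(2) `R ≠ 0`: if `m = 0`, `P = C p` and `R = p^n ≠ 0` (`resultant_C_left`). If `m > 0`: `P` is primitive and irreducible, so (Gauss,
`Polynomial.IsPrimitive.Int`-free version: `Polynomial.IsPrimitive.irreducible_iff_irreducible_map_fraction_map`,
`Irreducible.isPrimitive`) its image `P'` over `k = FractionRing K[X]` is irreducible, and `P' ∤ Q'`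
(`Polynomial.IsPrimitive.dvd_of_fraction_map_dvd_fraction_map` / `dvd_iff_fraction_map_dvd_fraction_map`), so `IsCoprime P' Q'` and
`resultant P' Q' ≠ 0` (`resultant_eq_zero_iff`); `resultant_map_map` (degrees are preserved by the injective map).
(3) `natDegree R ≤ degX P * n + degX Q * m`: `R = det (sylvester P Q m n)`; each permutation product has `n` factors which are coefficients of `P` and `m`
factors which are coefficients of `Q` (look at the definition: columns). Use `Matrix.det_apply`, `natDegree_sum_le_of_forall_le`, `natDegree_prod_le`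
and split the product over `Fin (m + n)` by `Fin.prod_univ_add`-like lemmas; coefficients of `P` have natDegree `≤ degX P` (also when zero).
Then `s.card ≤ R.roots.card ≤ natDegree R`.
-/

set_option autoImplicit false

namespace Pool.Agent.Helper59.DX

open Polynomial

private theorem res_natDegree_le {K : Type*} [Field K] (P Q : K[X][X]) :
    (resultant P Q).natDegree ≤ degX P * Q.natDegree + degX Q * P.natDegree := by
  classical
  unfold resultant
  rw [Matrix.det_apply]
  apply natDegree_sum_le_of_forall_le
  intro σ _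
  have h0 : (Equiv.Perm.sign σ • ∏ i, sylvester P Q P.natDegree Q.natDegree (σ i) i).natDegree ≤
      (∏ i, sylvester P Q P.natDegree Q.natDegree (σ i) i).natDegree := by
    rcases Int.units_eq_one_or (Equiv.Perm.sign σ) with h | h <;> simp [h]
  refine h0.trans ((natDegree_prod_le _ _).trans ?_)
  rw [Fin.sum_univ_add]
  have h1 : ∀ i : Fin P.natDegree, (sylvester P Q P.natDegree Q.natDegree
      (σ (Fin.castAdd Q.natDegree i)) (Fin.castAdd Q.natDegree i)).natDegree ≤ degX Q := by
    intro i
    simp only [sylvester, Matrix.of_apply, Fin.addCases_left]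
    split_ifs
    · exact natDegree_coeff_le_degX Q _
    · simp
  have h2 : ∀ i : Fin Q.natDegree, (sylvester P Q P.natDegree Q.natDegree
      (σ (Fin.natAdd P.natDegree i)) (Fin.natAdd P.natDegree i)).natDegree ≤ degX P := by
    intro i
    simp only [sylvester, Matrix.of_apply, Fin.addCases_right]
    split_ifs
    · exact natDegree_coeff_le_degX P _
    · simp
  have h3 := Finset.sum_le_card_nsmul Finset.univ (fun i : Fin P.natDegree =>
    (sylvester P Q P.natDegree Q.natDegree (σ (Fin.castAdd Q.natDegree i))
      (Fin.castAdd Q.natDegree i)).natDegree) (degX Q) (fun i _ => h1 i)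
  have h4 := Finset.sum_le_card_nsmul Finset.univ (fun i : Fin Q.natDegree =>
    (sylvester P Q P.natDegree Q.natDegree (σ (Fin.natAdd P.natDegree i))
      (Fin.natAdd P.natDegree i)).natDegree) (degX P) (fun i _ => h2 i)
  simp only [Finset.card_univ, Fintype.card_fin, smul_eq_mul] at h3 h4
  calc _ ≤ P.natDegree * degX Q + Q.natDegree * degX P := add_le_add h3 h4
    _ = _ := by ring

private theorem res_ne_zero {K : Type*} [Field K] (P Q : K[X][X]) (hP : Irreducible P)
    (hPQ : ¬ P ∣ Q) : resultant P Q ≠ 0 := by
  by_cases hm : P.natDegree = 0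
  · rw [hm, resultant_zero_left_deg]
    apply pow_ne_zero
    intro h0
    apply hP.ne_zero
    rw [eq_C_of_natDegree_eq_zero hm, h0, C_0]
  · have hprim : P.IsPrimitive := hP.isPrimitive hm
    have hinj : Function.Injective (algebraMap K[X] (FractionRing K[X])) :=
      IsFractionRing.injective _ _
    have hirr : Irreducible (P.map (algebraMap K[X] (FractionRing K[X]))) :=
      (hprim.irreducible_iff_irreducible_map_fraction_map).1 hP
    have hnd : ¬ P.map (algebraMap K[X] (FractionRing K[X])) ∣
        Q.map (algebraMap K[X] (FractionRing K[X])) := fun h =>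
      hPQ (hprim.dvd_of_fraction_map_dvd_fraction_map h)
    have hcop : IsCoprime (P.map (algebraMap K[X] (FractionRing K[X])))
        (Q.map (algebraMap K[X] (FractionRing K[X]))) :=
      (hirr.coprime_iff_not_dvd).2 hnd
    intro h0
    have h1 : resultant (P.map (algebraMap K[X] (FractionRing K[X])))
        (Q.map (algebraMap K[X] (FractionRing K[X]))) = 0 := by
      rw [natDegree_map_eq_of_injective hinj, natDegree_map_eq_of_injective hinj,
        resultant_map_map, h0, map_zero]
    exact (resultant_eq_zero_iff.1 h1).2 hcop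

theorem bezout_count {K : Type*} [Field K] (P Q : K[X][X]) (hP : Irreducible P) (hPQ : ¬ P ∣ Q) (s : Finset K)
    (h : ∀ x ∈ s, ∃ y, P.evalEval x y = 0 ∧ Q.evalEval x y = 0) :
    s.card ≤ degX P * Q.natDegree + degX Q * P.natDegree := by
  classical
  by_cases hmn : P.natDegree ≠ 0 ∨ Q.natDegree ≠ 0
  · have hR := res_ne_zero P Q hP hPQ
    obtain ⟨a, b, -, -, hab⟩ := exists_mul_add_mul_eq_C_resultant P Q le_rfl le_rfl hmn
    have hsub : s ⊆ (resultant P Q).roots.toFinset := by
      intro x hx
      obtain ⟨y, hPy, hQy⟩ := h x hx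
      rw [Multiset.mem_toFinset, mem_roots hR, IsRoot.def, ← evalEval_C x y, ← hab, evalEval_add,
        evalEval_mul, evalEval_mul, hPy, hQy]
      simp
    exact ((Finset.card_le_card hsub).trans ((Multiset.toFinset_card_le _).trans
      (card_roots' _))).trans (res_natDegree_le P Q)
  · push Not at hmn
    obtain ⟨hm, hn⟩ := hmn
    have hs : s = ∅ := by
      by_contra hne
      obtain ⟨x, hx⟩ := Finset.nonempty_iff_ne_empty.2 hne
      obtain ⟨y, hPy, hQy⟩ := h x hx
      have hp : P = C (P.coeff 0) := eq_C_of_natDegree_eq_zero hm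
      have hq : Q = C (Q.coeff 0) := eq_C_of_natDegree_eq_zero hn
      rw [hp, evalEval_C] at hPy
      rw [hq, evalEval_C] at hQy
      have h1 : C (X - C x) ∣ P := by
        rw [hp]
        exact map_dvd C (dvd_iff_isRoot.2 hPy)
      have h2 : C (X - C x) ∣ Q := by
        rw [hq]
        exact map_dvd C (dvd_iff_isRoot.2 hQy)
      rcases (hP.dvd_iff).1 h1 with h3 | h3
      · exact (irreducible_X_sub_C x).not_isUnit (isUnit_C.1 h3)
      · exact hPQ (h3.dvd.trans h2)
    rw [hs]
    simp

theorem dvd_of_common_zeros {K : Type*} [Field K] {P Q : K[X][X]} (hP : Irreducible P) {x y : ℕ → K}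
    (hx : Function.Injective x) {J : Set ℕ} (hJ : J.Infinite)
    (h : ∀ n ∈ J, P.evalEval (x n) (y n) = 0 ∧ Q.evalEval (x n) (y n) = 0) : P ∣ Q := by
  classical
  by_contra hPQ
  obtain ⟨t, htJ, htc⟩ := hJ.exists_subset_card_eq (degX P * Q.natDegree + degX Q * P.natDegree + 1)
  have h1 := bezout_count P Q hP hPQ (t.image x) (by
    intro z hz
    obtain ⟨n, hn, rfl⟩ := Finset.mem_image.1 hz
    exact ⟨y n, h n (htJ hn)⟩)
  rw [Finset.card_image_of_injective _ hx] at h1
  omega

end Pool.Agent.Helper59.DX
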