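import Pool.Agent.Helper59.DX.LemmaL0

/-!
# DX-LEMMAL: the same with finitely many elements kept nonzero

PROOF: apply `lemmaL0` to `A' = Localization.Away (α * f.leadingCoeff)` (a domain: `IsLocalization.isDomain_localization`-type lemma, `α * lc ≠ 0`; of finite type over `ℚ`:
`IsLocalization.finiteType_of_...`/`Localization.Away` is of finite type over `A`, `Algebra.FiniteType.trans`), `f.map (algebraMap A A')` (same degree, `algebraMap A A'` is injective; its leading
coefficient is the image of `f.leadingCoeff`, a unit) and the image of `a` (orbit injective: `orb_map`, injectivity), and compose `s` with `A → A'` (`Polynomial.map_map`). `s α ≠ 0` and `s (lc) ≠ 0` because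
their images in `A'` are units.
-/

set_option autoImplicit false

namespace Pool.Agent.Helper59.DX

open Polynomial

theorem lemmaL {A : Type*} [CommRing A] [IsDomain A] [Algebra ℚ A] [Algebra.FiniteType ℚ A] (f : A[X])
    (hf : 2 ≤ f.natDegree) (a : A) (ha : Function.Injective fun n => orb f n a) (α : A) (hα : α ≠ 0) :
    ∃ (K : Type) (_ : Field K) (_ : NumberField K) (s : A →+* K), s α ≠ 0 ∧ s f.leadingCoeff ≠ 0 ∧
      Function.Injective fun n => orb (f.map s) n (s a) := by
  have hf0 : f ≠ 0 := by
    rintro rfl
    simp at hf
  have hlc : f.leadingCoeff ≠ 0 := Polynomial.leadingCoeff_ne_zero.2 hf0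
  have hx : α * f.leadingCoeff ≠ 0 := mul_ne_zero hα hlc
  let A' := Localization.Away (α * f.leadingCoeff)
  have hM : Submonoid.powers (α * f.leadingCoeff) ≤ nonZeroDivisors A :=
    powers_le_nonZeroDivisors_of_noZeroDivisors hx
  have hinj : Function.Injective (algebraMap A A') := IsLocalization.injective A' hM
  have : IsDomain A' := IsLocalization.isDomain_localization hM
  have h1 : Algebra.FiniteType A A' :=
    IsLocalization.finiteType_of_monoid_fg (Submonoid.powers (α * f.leadingCoeff)) A'
  have : Algebra.FiniteType ℚ A' := Algebra.FiniteType.trans (S := A) inferInstance h1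
  have hunit : IsUnit (algebraMap A A' (α * f.leadingCoeff)) :=
    IsLocalization.Away.algebraMap_isUnit (α * f.leadingCoeff)
  rw [map_mul] at hunit
  have hua : IsUnit (algebraMap A A' α) := isUnit_of_mul_isUnit_left hunit
  have hul : IsUnit (algebraMap A A' f.leadingCoeff) := isUnit_of_mul_isUnit_right hunit
  have hdeg : (f.map (algebraMap A A')).natDegree = f.natDegree :=
    Polynomial.natDegree_map_eq_of_injective hinj f
  have hlead : (f.map (algebraMap A A')).leadingCoeff = algebraMap A A' f.leadingCoeff :=
    Polynomial.leadingCoeff_map_of_injective hinj f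
  obtain ⟨K, hK, hNF, s, hs⟩ := lemmaL0 (f.map (algebraMap A A')) (by rw [hdeg]; exact hf)
    (by rw [hlead]; exact hul) (algebraMap A A' a) (by
      intro m n h
      have h' : orb (f.map (algebraMap A A')) m (algebraMap A A' a) =
        orb (f.map (algebraMap A A')) n (algebraMap A A' a) := h
      rw [orb_map, orb_map] at h'
      exact ha (hinj h'))
  refine ⟨K, hK, hNF, s.comp (algebraMap A A'), ?_, ?_, ?_⟩
  · exact (hua.map s).ne_zero
  · exact (hul.map s).ne_zero
  · rw [← Polynomial.map_map]
    exact hs

end Pool.Agent.Helper59.DX
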