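import Pool.Agent.Helper59.DX.Defs

/-!
# DX-MODEL: finitely many complex data are defined over a finitely generated `ℚ`-algebra

PROOF. `A = Algebra.adjoin ℚ T`, `T` the finite set of all coefficients of the polynomials (and of `a, b`). A polynomial with coefficients in the subring `A` lifts to `A[X]`:
`Polynomial.mem_lifts`/`Polynomial.lifts_iff_coeff_lifts` (`f ∈ lifts (algebraMap A ℂ)` iff all coefficients are in the range), for `ℂ[X][X]` use it twice (`lifts (mapRingHom ..)`).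
`Subalgebra.FG` from `Subalgebra.fg_adjoin_finset`; `A` is of finite type: `Subalgebra.fg_iff_finiteType`.
-/

set_option autoImplicit false

namespace Pool.Agent.Helper59.DX

open Polynomial

private theorem model_lift1 (A : Subalgebra ℚ ℂ) (f : ℂ[X]) (h : ∀ c ∈ f.coeffs, c ∈ A) :
    ∃ f' : A[X], f'.map (algebraMap A ℂ) = f := by
  rw [← mem_lifts, lifts_iff_coeff_lifts]
  intro n
  by_cases hn : f.coeff n = 0
  · exact ⟨0, by rw [hn, map_zero]⟩
  · exact ⟨⟨f.coeff n, h _ (coeff_mem_coeffs hn)⟩, rfl⟩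

private theorem model_lift2 (A : Subalgebra ℚ ℂ) (P : ℂ[X][X])
    (h : ∀ d ∈ P.coeffs, ∀ c ∈ d.coeffs, c ∈ A) :
    ∃ P' : A[X][X], P'.map (mapRingHom (algebraMap A ℂ)) = P := by
  rw [← mem_lifts, lifts_iff_coeff_lifts]
  intro n
  by_cases hn : P.coeff n = 0
  · exact ⟨0, by rw [hn, map_zero]⟩
  · obtain ⟨f', hf'⟩ := model_lift1 A (P.coeff n) (h _ (coeff_mem_coeffs hn))
    exact ⟨f', hf'⟩

theorem exists_model (f g : ℂ[X]) (P Q : ℂ[X][X]) (a b : ℂ) :
    ∃ (A : Subalgebra ℚ ℂ) (_ : Algebra.FiniteType ℚ A) (f' g' : A[X]) (P' Q' : A[X][X]) (a' b' : A),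
      f'.map (algebraMap A ℂ) = f ∧ g'.map (algebraMap A ℂ) = g ∧
      P'.map (mapRingHom (algebraMap A ℂ)) = P ∧ Q'.map (mapRingHom (algebraMap A ℂ)) = Q ∧
      algebraMap A ℂ a' = a ∧ algebraMap A ℂ b' = b := by
  classical
  set T : Finset ℂ := f.coeffs ∪ (g.coeffs ∪ (P.coeffs.biUnion (fun d => d.coeffs) ∪
    (Q.coeffs.biUnion (fun d => d.coeffs) ∪ {a, b}))) with hT
  set A : Subalgebra ℚ ℂ := Algebra.adjoin ℚ (T : Set ℂ) with hA
  have hsub : ∀ c ∈ T, c ∈ A := fun c hc => Algebra.subset_adjoin (by exact_mod_cast hc)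
  have hfin : Algebra.FiniteType ℚ A := A.fg_iff_finiteType.1 (Subalgebra.fg_adjoin_finset T)
  obtain ⟨f', hf'⟩ := model_lift1 A f (fun c hc => hsub c (by
    rw [hT, Finset.mem_union]; exact Or.inl hc))
  obtain ⟨g', hg'⟩ := model_lift1 A g (fun c hc => hsub c (by
    rw [hT, Finset.mem_union, Finset.mem_union]; exact Or.inr (Or.inl hc)))
  obtain ⟨P', hP'⟩ := model_lift2 A P (fun d hd c hc => hsub c (by
    rw [hT, Finset.mem_union, Finset.mem_union, Finset.mem_union]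
    exact Or.inr (Or.inr (Or.inl (Finset.mem_biUnion.2 ⟨d, hd, hc⟩)))))
  obtain ⟨Q', hQ'⟩ := model_lift2 A Q (fun d hd c hc => hsub c (by
    rw [hT, Finset.mem_union, Finset.mem_union, Finset.mem_union, Finset.mem_union]
    exact Or.inr (Or.inr (Or.inr (Or.inl (Finset.mem_biUnion.2 ⟨d, hd, hc⟩))))))
  have ha : a ∈ A := hsub a (by simp [hT])
  have hb : b ∈ A := hsub b (by simp [hT])
  exact ⟨A, hfin, f', g', P', Q', ⟨a, ha⟩, ⟨b, hb⟩, hf', hg', hP', hQ', rfl, rfl⟩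

end Pool.Agent.Helper59.DX
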