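import Pool.Agent.Helper59.DX.Spread
import Pool.Agent.Helper59.DX.LemmaL
import Pool.Agent.Helper59.DX.Model

/-!
# DX-BND: uniform bound of the degree over `ℂ` from the uniform bound over number fields (NFT)
-/

set_option autoImplicit false

namespace Pool.Agent.Helper59.DX

open Polynomial

/-- the number field theorem (sections 1-4, helper38). -/
def NFTStatement : Prop :=
  ∀ (d D1 D2 : ℕ), 2 ≤ d → ∃ N : ℕ, ∀ (K : Type) [Field K] [NumberField K] (f A B : K[X]) (P Q : K[X][X])
    (a : K) (y : ℕ → K) (k : ℕ), f.natDegree = d → IsCoprime A B → max A.natDegree B.natDegree = d →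
    (∀ n, B.eval (y n) ≠ 0 ∧ y (n + 1) * B.eval (y n) = A.eval (y n)) →
    (Function.Injective fun n => orb f n a) → AbsIrr P → 1 ≤ degX P → degX P ≤ D1 → 1 ≤ P.natDegree →
    P.natDegree ≤ D2 → AbsIrr Q →
    {n | Q.evalEval (orb f n a) (y n) = 0 ∧ P.evalEval (orb f (n + k) a) (y (n + k)) = 0}.Infinite →
    Q.natDegree ≤ N

theorem degY_bound (hN : NFTStatement) (d D1 D2 : ℕ) (hd : 2 ≤ d) : ∃ N : ℕ, ∀ (f g : ℂ[X]) (P Q : ℂ[X][X])
    (a b : ℂ) (k : ℕ), f.natDegree = d → g.natDegree = d → (Function.Injective fun n => orb f n a) →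
    Irreducible P → 1 ≤ degX P → degX P ≤ D1 → 1 ≤ P.natDegree → P.natDegree ≤ D2 → Irreducible Q →
    {n | Q.evalEval (orb f n a) (orb g n b) = 0 ∧
      P.evalEval (orb f (n + k) a) (orb g (n + k) b) = 0}.Infinite →
    Q.natDegree ≤ N := by
  obtain ⟨N, hN⟩ := hN d D1 D2 hd
  refine ⟨N, fun f g P Q a b k hf hg ha hP hPX1 hPX hPY1 hPY hQ hinf => ?_⟩
  obtain ⟨A, hA, f', g', P', Q', a', b', hf', hg', hP', hQ', ha', hb'⟩ := exists_model f g P Q a b
  have hinj : Function.Injective (algebraMap A ℂ) := Subtype.val_injective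
  obtain ⟨α₁, h1, hs1⟩ := spread hinj P' (by rw [hP']; exact hP)
  obtain ⟨α₂, h2, hs2⟩ := spread hinj Q' (by rw [hQ']; exact hQ)
  have hdf : f'.natDegree = d := by
    rw [← hf, ← hf', natDegree_map_eq_of_injective hinj]
  have hdg : g'.natDegree = d := by
    rw [← hg, ← hg', natDegree_map_eq_of_injective hinj]
  have hgl : g'.leadingCoeff ≠ 0 := by
    rw [Ne, leadingCoeff_eq_zero]; rintro rfl; rw [natDegree_zero] at hdg; omega
  have hoa : ∀ n, algebraMap A ℂ (orb f' n a') = orb f n a := fun n => by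
    rw [← orb_map, hf', ha']
  have hob : ∀ n, algebraMap A ℂ (orb g' n b') = orb g n b := fun n => by
    rw [← orb_map, hg', hb']
  have ha2 : Function.Injective fun n => orb f' n a' := fun m n hmn => by
    apply ha
    simp only at hmn ⊢
    rw [← hoa, ← hoa, hmn]
  obtain ⟨K, _, _, s, hα, hlf, horb⟩ := lemmaL f' (by omega) a' ha2 (α₁ * α₂ * g'.leadingCoeff)
    (mul_ne_zero (mul_ne_zero h1 h2) hgl)
  rw [map_mul, map_mul] at hα
  have hα1 : s α₁ ≠ 0 := fun h => hα (by rw [h]; simp)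
  have hα2 : s α₂ ≠ 0 := fun h => hα (by rw [h]; simp)
  have hlg : s g'.leadingCoeff ≠ 0 := fun h => hα (by rw [h]; simp)
  obtain ⟨hPi, hPx, hPy⟩ := hs1 K s hα1
  obtain ⟨hQi, hQx, hQy⟩ := hs2 K s hα2
  have e1 : degX P' = degX P := by rw [← hP', degX_map_of_injective _ hinj]
  have e2 : P'.natDegree = P.natDegree := by rw [← hP', natDegree_map_of_injective _ hinj]
  have e3 : Q'.natDegree = Q.natDegree := by rw [← hQ', natDegree_map_of_injective _ hinj]
  have key : ∀ (R : A[X][X]) (x y : A), R.evalEval x y = 0 →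
      (R.map (mapRingHom s)).evalEval (s x) (s y) = 0 := by
    intro R x y h
    rw [map_mapRingHom_evalEval, h, map_zero]
  have key2 : ∀ (R : A[X][X]) (x y : A),
      (R.map (mapRingHom (algebraMap A ℂ))).evalEval (algebraMap A ℂ x) (algebraMap A ℂ y) = 0 →
      R.evalEval x y = 0 := by
    intro R x y h
    rw [map_mapRingHom_evalEval] at h
    exact hinj (by rw [h, map_zero])
  have := hN K (f'.map s) (g'.map s) 1 (P'.map (mapRingHom s)) (Q'.map (mapRingHom s)) (s a')
    (fun n => s (orb g' n b')) k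
    (by rw [natDegree_map_of_leadingCoeff_ne_zero _ hlf, hdf])
    isCoprime_one_right
    (by rw [natDegree_map_of_leadingCoeff_ne_zero _ hlg, hdg]; simp)
    (fun n => ⟨by simp, by rw [eval_one, mul_one, orb_succ, eval_map_apply]⟩)
    horb hPi (by rw [hPx, e1]; exact hPX1) (by rw [hPx, e1]; exact hPX) (by rw [hPy, e2]; exact hPY1)
    (by rw [hPy, e2]; exact hPY) hQi
    (hinf.mono fun n hn => by
      obtain ⟨hn1, hn2⟩ := hn
      rw [← hoa, ← hob, ← hQ'] at hn1
      rw [← hoa, ← hob, ← hP'] at hn2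
      refine ⟨?_, ?_⟩
      · rw [orb_map]; exact key _ _ _ (key2 _ _ _ hn1)
      · rw [orb_map]; exact key _ _ _ (key2 _ _ _ hn2))
  rw [hQy, e3] at this
  exact this

end Pool.Agent.Helper59.DX
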