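import Pool.Agent.Helper59.DX.BZ

/-!
# DX-DESCEND: an irreducible curve with infinitely many `K`-points is defined over `K`

PROOF. `Q ≠ 0` has a nonzero coefficient `c0 = (Q.coeff j0).coeff i0`. Choose a `K`-linear functional `l : ℂ →ₗ[K] K` with `l c0 ≠ 0` (`Module.exists_dual_ne_zero`-type lemma,
`Module.forall_dual_apply_eq_zero_iff`, or a basis of `ℂ` over `K`). Let `Q' : K[X][X]` be obtained by applying `l` to all coefficients
(`Q' = ∑ j ∈ Q.support, ∑ i ∈ (Q.coeff j).support, monomial j (monomial i (l ((Q.coeff j).coeff i)))`), so `((Q'.coeff j).coeff i) = l ((Q.coeff j).coeff i)`; `Q' ≠ 0`, `degX Q' ≤ degX Q`,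
`deg_Y Q' ≤ deg_Y Q`. For `x, y ∈ K`: `Q'.evalEval x y = l (Q.evalEval x y)` (`l` is `K`-linear and `x^i y^j ∈ K`). So `Q'' := Q'.map (mapRingHom (algebraMap K ℂ))` vanishes at `(x n, y n)` whenever `Q`
does, infinitely often: `Q ∣ Q''` (`dvd_of_common_zeros`), `Q'' = Q * T`, `T ≠ 0`, and by the degrees (`degX_mul`, `natDegree_mul`) `T` has degrees `(0,0)`, so `T = C (C c)` with `c ≠ 0`.
-/

set_option autoImplicit false

namespace Pool.Agent.Helper59.DX

open Polynomial

private noncomputable def am {R S : Type*} [Semiring R] [Semiring S] (l : R →+ S) (p : R[X]) :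
    S[X] := ∑ i ∈ p.support, monomial i (l (p.coeff i))

private theorem coeff_am {R S : Type*} [Semiring R] [Semiring S] (l : R →+ S) (p : R[X]) (n : ℕ) :
    (am l p).coeff n = l (p.coeff n) := by
  unfold am
  rw [finset_sum_coeff]
  simp only [coeff_monomial]
  rw [Finset.sum_ite_eq']
  split_ifs with h
  · rfl
  · rw [notMem_support_iff] at h
    rw [h, map_zero]

private noncomputable def amh {R S : Type*} [Semiring R] [Semiring S] (l : R →+ S) :
    R[X] →+ S[X] where
  toFun := am l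
  map_zero' := by
    ext n
    rw [coeff_am]
    simp
  map_add' p q := by
    ext n
    rw [coeff_am, coeff_add, coeff_add, coeff_am, coeff_am, map_add]

private noncomputable def am2 {R S : Type*} [Semiring R] [Semiring S] (l : R →+ S) (Q : R[X][X]) :
    S[X][X] := am (amh l) Q

private theorem coeff_am2 {R S : Type*} [Semiring R] [Semiring S] (l : R →+ S) (Q : R[X][X])
    (j i : ℕ) : ((am2 l Q).coeff j).coeff i = l ((Q.coeff j).coeff i) := by
  unfold am2
  rw [coeff_am]
  exact coeff_am l _ i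

private theorem evalEval_sum {R : Type*} [CommRing R] (Q : R[X][X]) (x y : R) {N M : ℕ}
    (hN : Q.natDegree < N) (hM : degX Q < M) :
    Q.evalEval x y = ∑ j ∈ Finset.range N, ∑ i ∈ Finset.range M,
      (Q.coeff j).coeff i * x ^ i * y ^ j := by
  unfold Polynomial.evalEval
  rw [eval_eq_sum_range' hN, eval_finset_sum]
  refine Finset.sum_congr rfl fun j _ => ?_
  rw [eval_mul, eval_pow, eval_C,
    eval_eq_sum_range' (lt_of_le_of_lt (natDegree_coeff_le_degX Q j) hM), Finset.sum_mul]

theorem descend (K : IntermediateField ℚ ℂ) {Q : ℂ[X][X]} (hQ : Irreducible Q) {x y : ℕ → ℂ}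
    (hx : ∀ n, x n ∈ K) (hy : ∀ n, y n ∈ K) (hinj : Function.Injective x)
    (hinf : {n | Q.evalEval (x n) (y n) = 0}.Infinite) :
    ∃ (Q' : K[X][X]) (c : ℂ), c ≠ 0 ∧ Q'.map (mapRingHom (algebraMap K ℂ)) = C (C c) * Q := by
  classical
  have hQ0 : Q ≠ 0 := hQ.ne_zero
  obtain ⟨j0, i0, hc0⟩ : ∃ j0 i0, (Q.coeff j0).coeff i0 ≠ 0 := by
    by_contra h
    push_neg at h
    apply hQ0
    ext j i
    simpa using h j i
  obtain ⟨l, hl⟩ : ∃ l : ℂ →ₗ[K] K, l ((Q.coeff j0).coeff i0) ≠ 0 := by
    by_contra h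
    push_neg at h
    exact hc0 ((Module.forall_dual_apply_eq_zero_iff K _).1 h)
  have hcoef : ∀ j i, ((am2 (l : ℂ →+ K) Q).coeff j).coeff i = l ((Q.coeff j).coeff i) :=
    fun j i => coeff_am2 _ _ _ _
  set Q' : K[X][X] := am2 (l : ℂ →+ K) Q with hQ'
  have hne : Q' ≠ 0 := by
    intro h
    apply hl
    rw [← hcoef, h]
    simp
  have hnat : Q'.natDegree ≤ Q.natDegree := by
    refine natDegree_le_iff_coeff_eq_zero.2 fun j hj => ?_
    ext i
    rw [hcoef, coeff_eq_zero_of_natDegree_lt hj]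
    simp
  have hdeg : degX Q' ≤ degX Q := by
    refine degX_le fun j => ?_
    refine natDegree_le_iff_coeff_eq_zero.2 fun i hi => ?_
    rw [hcoef, coeff_eq_zero_of_natDegree_lt (lt_of_le_of_lt (natDegree_coeff_le_degX Q j) hi),
      map_zero]
  have hev : ∀ x y : K, Q'.evalEval x y = l (Q.evalEval (x : ℂ) (y : ℂ)) := by
    intro x y
    rw [evalEval_sum Q' x y (N := Q.natDegree + 1) (M := degX Q + 1) (by omega) (by omega),
      evalEval_sum Q (x : ℂ) (y : ℂ) (N := Q.natDegree + 1) (M := degX Q + 1) (by omega) (by omega),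
      map_sum]
    refine Finset.sum_congr rfl fun j _ => ?_
    rw [map_sum]
    refine Finset.sum_congr rfl fun i _ => ?_
    rw [hcoef]
    have h1 : (Q.coeff j).coeff i * (x : ℂ) ^ i * (y : ℂ) ^ j
        = (x ^ i * y ^ j : K) • ((Q.coeff j).coeff i) := by
      rw [Algebra.smul_def]
      simp only [IntermediateField.algebraMap_apply, IntermediateField.coe_mul,
        IntermediateField.coe_pow]
      ring
    rw [h1, map_smul, smul_eq_mul]
    ring
  set Q'' : ℂ[X][X] := Q'.map (mapRingHom (algebraMap K ℂ)) with hQ''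
  have hinjK : Function.Injective (algebraMap K ℂ) := (algebraMap K ℂ).injective
  have hne'' : Q'' ≠ 0 := by
    intro h
    apply hne
    apply map_injective' (algebraMap K ℂ) hinjK
    show Q'.map (mapRingHom (algebraMap K ℂ)) = (0 : K[X][X]).map (mapRingHom (algebraMap K ℂ))
    rw [← hQ'', h, Polynomial.map_zero]
  have hdvd : Q ∣ Q'' := by
    refine dvd_of_common_zeros hQ hinj hinf fun n hn => ⟨hn, ?_⟩
    have h1 : Q''.evalEval (algebraMap K ℂ ⟨x n, hx n⟩) (algebraMap K ℂ ⟨y n, hy n⟩)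
        = algebraMap K ℂ (Q'.evalEval ⟨x n, hx n⟩ ⟨y n, hy n⟩) := by
      rw [hQ'', map_mapRingHom_evalEval]
    have h2 : Q.evalEval (x n) (y n) = 0 := hn
    rw [hev] at h1
    simp only [IntermediateField.algebraMap_apply] at h1
    rw [h1, h2, map_zero]
    simp
  obtain ⟨T, hT⟩ := hdvd
  have hT0 : T ≠ 0 := by
    rintro rfl
    rw [mul_zero] at hT
    exact hne'' hT
  have h1 : degX T = 0 := by
    have h2 := degX_mul hQ0 hT0
    rw [← hT] at h2
    have h3 : degX Q'' = degX Q' := degX_map_of_injective _ hinjK _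
    omega
  have h2 : T.natDegree = 0 := by
    have h2 := natDegree_mul hQ0 hT0
    rw [← hT] at h2
    have h3 : Q''.natDegree = Q'.natDegree := natDegree_map_of_injective _ hinjK _
    omega
  have h3 := eq_CC_of_deg_zero h1 h2
  refine ⟨Q', (T.coeff 0).coeff 0, ?_, ?_⟩
  · intro h
    rw [h, C_0, C_0] at h3
    exact hT0 h3
  · rw [← h3, ← hQ'', hT, mul_comm]

end Pool.Agent.Helper59.DX
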