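import Pool.Agent.Helper59.DX.Defs

/-!
# DX-ESC: escape radius; infinitely many preperiodic points

(a) `esc`: if `‖z‖ > escR g` (so `‖z‖ ≥ 1` and `‖lc‖ ‖z‖ > 1 + S`, `S = ∑_{i<d} ‖c_i‖`, `lc ≠ 0`) then
`‖g(z)‖ ≥ ‖lc‖‖z‖^d - S‖z‖^(d-1) = ‖z‖^(d-1) (‖lc‖‖z‖ - S) > ‖z‖^(d-1) ≥ ‖z‖`. (`eval_eq_sum_range`, `Finset.sum_range_succ`.)
(b) if `‖f^n(z)‖ > escR` for one `n` then norms increase strictly from there on, so the orbit of `z` is infinite: `n ↦ orb g n z` is
injective (if `orb g i z = orb g j z`, `i < j`, then applying `g^n`: `orb g (i+n) z = orb g (j+n) z` have equal norms, contradiction).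
(c) backward: contrapositive of (a) and induction.
(d) PREPERIODIC POINTS. Let `E` be the set of preperiodic points of `f`, `d ≥ 2`; suppose it is finite. `E` is not empty: `f - X` has degree `d ≥ 2`, so has
a root. `f⁻¹(E) ⊂ E` and `f(E) ⊂ E`. The map `f : E → E` is surjective (every `e ∈ E` has a preimage as `f - e` has a root, it lies in `E`), so
injective (finite), so every `e ∈ E` has exactly one preimage `e'`: `f = c (X - e')^d + e` (all roots of `f - C e` equal `e'`; splits over `ℂ`).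
If `e₁ ≠ e₂` in `E`: `c(X - e₁')^d + e₁ = c(X - e₂')^d + e₂`; compare the coefficients of `X^(d-1)`: `d c e₁' = d c e₂'`, so `e₁' = e₂'` and `e₁ = e₂`,
contradiction. If `E = {e}`: `f = c(X - e)^d + e`, and a root `w` of `c w^(d-1) = 1` gives the fixed point `e + w ≠ e` in `E`. Contradiction.
-/

set_option autoImplicit false

namespace Pool.Agent.Helper59.DX

open Polynomial

theorem esc {g : ℂ[X]} (hg : 2 ≤ g.natDegree) {z : ℂ} (hz : escR g < ‖z‖) : ‖z‖ < ‖g.eval z‖ := by
  have hg0 : g ≠ 0 := by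
    rintro rfl
    simp at hg
  have hlc : 0 < ‖g.leadingCoeff‖ := norm_pos_iff.2 (leadingCoeff_ne_zero.2 hg0)
  have h1 : 1 < ‖z‖ := lt_of_le_of_lt (one_le_escR g) hz
  set S := ∑ i ∈ Finset.range g.natDegree, ‖g.coeff i‖ with hS
  have hS0 : 0 ≤ S := Finset.sum_nonneg fun i _ => norm_nonneg _
  have h2 : 1 + S < ‖g.leadingCoeff‖ * ‖z‖ := by
    unfold escR at hz
    have h3 : ‖g.leadingCoeff‖ * (1 + ‖g.leadingCoeff‖⁻¹ * (1 + S)) < ‖g.leadingCoeff‖ * ‖z‖ :=
      mul_lt_mul_of_pos_left hz hlc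
    have h4 : ‖g.leadingCoeff‖ * (1 + ‖g.leadingCoeff‖⁻¹ * (1 + S)) = ‖g.leadingCoeff‖ + (1 + S) := by
      field_simp
    linarith
  have h5 : g.eval z = (∑ i ∈ Finset.range g.natDegree, g.coeff i * z ^ i)
      + g.leadingCoeff * z ^ g.natDegree := by
    rw [eval_eq_sum_range, Finset.sum_range_succ]
    rfl
  have h6 : ‖∑ i ∈ Finset.range g.natDegree, g.coeff i * z ^ i‖ ≤ S * ‖z‖ ^ (g.natDegree - 1) := by
    refine le_trans (norm_sum_le _ _) ?_
    rw [hS, Finset.sum_mul]
    apply Finset.sum_le_sum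
    intro i hi
    rw [norm_mul, norm_pow]
    apply mul_le_mul_of_nonneg_left _ (norm_nonneg _)
    apply pow_le_pow_right₀ h1.le
    have := Finset.mem_range.1 hi
    omega
  have h7 : ‖g.leadingCoeff * z ^ g.natDegree‖ = ‖g.leadingCoeff‖ * ‖z‖ * ‖z‖ ^ (g.natDegree - 1) := by
    rw [norm_mul, norm_pow, mul_assoc, ← pow_succ']
    congr 2
    omega
  have h8 : ‖g.leadingCoeff * z ^ g.natDegree‖ ≤ ‖g.eval z‖ +
      ‖∑ i ∈ Finset.range g.natDegree, g.coeff i * z ^ i‖ := by
    have h9 : g.leadingCoeff * z ^ g.natDegree = g.eval z -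
        ∑ i ∈ Finset.range g.natDegree, g.coeff i * z ^ i := by
      rw [h5]
      ring
    rw [h9]
    exact norm_sub_le _ _
  have h10 : ‖z‖ ≤ ‖z‖ ^ (g.natDegree - 1) := by
    calc ‖z‖ = ‖z‖ ^ 1 := (pow_one _).symm
      _ ≤ _ := pow_le_pow_right₀ h1.le (by omega)
  have h11 : 0 < ‖z‖ ^ (g.natDegree - 1) := by positivity
  rw [h7] at h8
  nlinarith [mul_lt_mul_of_pos_right h2 h11]

private theorem strictMono_norm {g : ℂ[X]} (hg : 2 ≤ g.natDegree) {z : ℂ} {n : ℕ}
    (h : escR g < ‖orb g n z‖) : StrictMono fun k => ‖orb g (n + k) z‖ := by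
  have key : ∀ k, escR g < ‖orb g (n + k) z‖ := by
    intro k
    induction k with
    | zero => exact h
    | succ k ih =>
      rw [← add_assoc, orb_succ]
      exact lt_trans ih (esc hg ih)
  apply strictMono_nat_of_lt_succ
  intro k
  change ‖orb g (n + k) z‖ < ‖orb g (n + (k + 1)) z‖
  rw [← add_assoc, orb_succ]
  exact esc hg (key k)

private theorem exists_lt_of_not_inj {α : Type*} {u : ℕ → α} (h : ¬ Function.Injective u) :
    ∃ i j, i < j ∧ u i = u j := by
  unfold Function.Injective at h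
  push Not at h
  obtain ⟨i, j, hij, hne⟩ := h
  rcases lt_or_gt_of_ne hne with h1 | h1
  · exact ⟨i, j, h1, hij⟩
  · exact ⟨j, i, h1, hij.symm⟩

theorem norm_orb_le {g : ℂ[X]} (hg : 2 ≤ g.natDegree) {z : ℂ}
    (h : ¬ Function.Injective fun n => orb g n z) (n : ℕ) : ‖orb g n z‖ ≤ escR g := by
  by_contra hcon
  push Not at hcon
  obtain ⟨i, j, hij, he⟩ := exists_lt_of_not_inj h
  have he' : orb g i z = orb g j z := he
  have h1 := strictMono_norm hg hcon hij
  have h2 : ‖orb g (n + i) z‖ < ‖orb g (n + j) z‖ := h1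
  rw [orb_add, orb_add, he'] at h2
  exact lt_irrefl _ h2

theorem norm_le_of_orb {g : ℂ[X]} (hg : 2 ≤ g.natDegree) {z : ℂ} {R : ℝ} (hR : escR g ≤ R) (k : ℕ)
    (h : ‖orb g k z‖ ≤ R) : ‖z‖ ≤ R := by
  induction k with
  | zero => exact h
  | succ k ih =>
    apply ih
    by_contra hcon
    push Not at hcon
    rw [orb_succ] at h
    have := esc hg (lt_of_le_of_lt hR hcon)
    linarith

private theorem mem_iff {f : ℂ[X]} (ξ : ℂ) : (¬ Function.Injective fun n => orb f n ξ) ↔
    ¬ Function.Injective fun n => orb f n (f.eval ξ) := by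
  have hs : ∀ n, orb f (n + 1) ξ = orb f n (f.eval ξ) := fun n => Function.iterate_succ_apply _ _ _
  constructor
  · intro h h2
    obtain ⟨i, j, hij, he⟩ := exists_lt_of_not_inj h
    have he' : orb f i ξ = orb f j ξ := he
    have h3 : orb f i (f.eval ξ) = orb f j (f.eval ξ) := by
      rw [← hs, ← hs, orb_succ, orb_succ, he']
    have h4 : i = j := h2 h3
    omega
  · intro h h2
    obtain ⟨i, j, hij, he⟩ := exists_lt_of_not_inj h
    have he' : orb f i (f.eval ξ) = orb f j (f.eval ξ) := he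
    rw [← hs, ← hs] at he'
    have h4 : i + 1 = j + 1 := h2 he'
    omega

private theorem eq_pow_of_unique {f : ℂ[X]} {a : ℂ} (hf : f ≠ 0)
    (h : ∀ z, f.eval z = 0 → z = a) : f = C f.leadingCoeff * (X - C a) ^ f.natDegree := by
  have h1 : f.roots = Multiset.replicate f.natDegree a := by
    rw [Multiset.eq_replicate]
    refine ⟨IsAlgClosed.card_roots_eq_natDegree, fun b hb => ?_⟩
    exact h b ((mem_roots hf).1 hb)
  have h2 := (IsAlgClosed.splits f).eq_prod_roots
  rw [h1] at h2
  rw [Multiset.map_replicate, Multiset.prod_replicate] at h2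
  exact h2

theorem infinite_preperiodic {f : ℂ[X]} (hf : 2 ≤ f.natDegree) :
    {ξ : ℂ | ¬ Function.Injective fun n => orb f n ξ}.Infinite := by
  intro hfin
  set E := {ξ : ℂ | ¬ Function.Injective fun n => orb f n ξ} with hE
  have hmem : ∀ ξ, ξ ∈ E ↔ f.eval ξ ∈ E := fun ξ => mem_iff ξ
  have hf0 : f ≠ 0 := by
    rintro rfl
    simp at hf
  have hc0 : f.leadingCoeff ≠ 0 := leadingCoeff_ne_zero.2 hf0
  have hroot : ∀ e : ℂ, ∃ z, f.eval z = e := by
    intro e
    have hd : (f - C e).degree ≠ 0 := by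
      have h1 : (f - C e).natDegree = f.natDegree := natDegree_sub_C
      intro h2
      have h3 := natDegree_eq_zero_iff_degree_le_zero.2 h2.le
      omega
    obtain ⟨z, hz⟩ := IsAlgClosed.exists_root _ hd
    refine ⟨z, ?_⟩
    have h4 : (f - C e).eval z = 0 := hz
    rw [eval_sub, eval_C, sub_eq_zero] at h4
    exact h4
  -- fixed points
  have hfix : ∀ z, f.eval z = z → z ∈ E := by
    intro z hz hinj
    have h1 : orb f 0 z = orb f 1 z := by
      rw [orb_succ, orb_zero, hz]
    have h2 : (0 : ℕ) = 1 := hinj h1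
    omega
  have hne : E.Nonempty := by
    have hd : (f - X).degree ≠ 0 := by
      have h1 : (f - X).natDegree = f.natDegree := by
        apply natDegree_sub_eq_left_of_natDegree_lt
        rw [natDegree_X]
        omega
      intro h2
      have h3 := natDegree_eq_zero_iff_degree_le_zero.2 h2.le
      omega
    obtain ⟨z, hz⟩ := IsAlgClosed.exists_root _ hd
    have h4 : (f - X).eval z = 0 := hz
    rw [eval_sub, eval_X, sub_eq_zero] at h4
    exact ⟨z, hfix z h4⟩
  -- `f` is a bijection of `E`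
  have hsurj : Set.SurjOn (fun z => f.eval z) E E := by
    intro e he
    obtain ⟨z, hz⟩ := hroot e
    exact ⟨z, (hmem z).2 (by rw [hz]; exact he), hz⟩
  have hmaps : Set.MapsTo (fun z => f.eval z) E E := fun z hz => (hmem z).1 hz
  have hinj : Set.InjOn (fun z => f.eval z) E :=
    (Set.Finite.surjOn_iff_bijOn_of_mapsTo hfin hmaps).1 hsurj |>.injOn
  have key : ∀ e ∈ E, ∃ e' ∈ E, f.eval e' = e ∧
      f = C f.leadingCoeff * (X - C e') ^ f.natDegree + C e := by
    intro e he
    obtain ⟨e', he', hee⟩ := hsurj he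
    have hee' : f.eval e' = e := hee
    refine ⟨e', he', hee', ?_⟩
    have hdeg : (f - C e).natDegree = f.natDegree := natDegree_sub_C
    have h1 : f - C e ≠ 0 := by
      intro h
      rw [h] at hdeg
      simp at hdeg
      omega
    have h2 := eq_pow_of_unique (f := f - C e) (a := e') h1 (by
      intro z hz
      rw [eval_sub, eval_C, sub_eq_zero] at hz
      have hzE : z ∈ E := (hmem z).2 (by rw [hz]; exact he)
      exact hinj hzE he' (by simp only; rw [hz, hee']))
    have hlc : (f - C e).leadingCoeff = f.leadingCoeff := by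
      rw [leadingCoeff, hdeg, coeff_sub, coeff_C, if_neg (by omega), sub_zero]
      rfl
    rw [hdeg, hlc] at h2
    rw [← h2]
    ring
  have hsub : ∀ e₁ ∈ E, ∀ e₂ ∈ E, e₁ = e₂ := by
    intro e₁ h1 e₂ h2
    obtain ⟨a, -, ha, ha'⟩ := key e₁ h1
    obtain ⟨b, -, hb, hb'⟩ := key e₂ h2
    have h3 : ∀ (x y : ℂ), (C f.leadingCoeff * (X - C x) ^ f.natDegree + C y).coeff (f.natDegree - 1)
        = f.leadingCoeff * (-x * f.natDegree) := by
      intro x y
      have hx : (X - C x : ℂ[X]) = X + C (-x) := by rw [map_neg, sub_eq_add_neg]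
      rw [coeff_add, coeff_C_mul, coeff_C, if_neg (by omega), add_zero, hx, coeff_X_add_C_pow]
      congr 1
      rw [show f.natDegree - (f.natDegree - 1) = 1 by omega, pow_one]
      congr 1
      rw [Nat.choose_symm_of_eq_add (show f.natDegree = (f.natDegree - 1) + 1 by omega),
        Nat.choose_one_right]
    have h4 := h3 a e₁
    have h5 := h3 b e₂
    rw [← ha'] at h4
    rw [← hb', h4] at h5
    have h6 := mul_left_cancel₀ hc0 h5
    have h7 : ((f.natDegree : ℕ) : ℂ) ≠ 0 := by
      exact_mod_cast (by omega : f.natDegree ≠ 0)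
    have h8 := mul_right_cancel₀ h7 h6
    have h9 : a = b := neg_injective h8
    rw [← ha, ← hb, h9]
  obtain ⟨e, he⟩ := hne
  obtain ⟨a, haE, ha, ha'⟩ := key e he
  have hae : a = e := hsub a haE e he
  subst hae
  obtain ⟨w, hw⟩ := IsAlgClosed.exists_pow_nat_eq (f.leadingCoeff)⁻¹ (n := f.natDegree - 1) (by omega)
  have hw0 : w ≠ 0 := by
    rintro rfl
    rw [zero_pow (by omega)] at hw
    exact inv_ne_zero hc0 hw.symm
  have h10 : f.eval (a + w) = a + w := by
    have h11 : f.eval (a + w) = (C f.leadingCoeff * (X - C a) ^ f.natDegree + C a).eval (a + w) := by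
      rw [← ha']
    rw [h11]
    simp only [eval_add, eval_mul, eval_C, eval_pow, eval_sub, eval_X, add_sub_cancel_left]
    have h12 : w ^ f.natDegree = w ^ (f.natDegree - 1) * w := by
      rw [← pow_succ]
      congr 1
      omega
    rw [h12, hw, ← mul_assoc, mul_inv_cancel₀ hc0, one_mul, add_comm]
  have h13 := hsub _ (hfix _ h10) a haE
  apply hw0
  simpa using h13

/-- the forward orbit of a preperiodic point is finite. -/
theorem finite_orbit {K : Type*} [CommRing K] {f : K[X]} {ξ : K} (h : ¬ Function.Injective fun n => orb f n ξ) :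
    (Set.range fun n => orb f n ξ).Finite := by
  obtain ⟨i, j, hij, he⟩ := exists_lt_of_not_inj h
  have he' : orb f i ξ = orb f j ξ := he
  apply Set.Finite.subset (s := (fun n => orb f n ξ) '' (Set.Iio j)) ((Set.finite_Iio j).image _)
  rintro _ ⟨n, rfl⟩
  induction n using Nat.strong_induction_on with
  | _ n ih =>
    rcases Nat.lt_or_ge n j with h1 | h1
    · exact ⟨n, h1, rfl⟩
    · have h2 := ih (n - j + i) (by omega)
      have h3 : orb f (n - j + i) ξ = orb f n ξ := by
        rw [orb_add, he', ← orb_add]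
        congr 1
        omega
      change orb f n ξ ∈ _
      rw [← h3]
      exact h2

end Pool.Agent.Helper59.DX
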