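import Pool.Agent.Helper59.DX.DegX

/-!
# DX-FACTOR: an irreducible component of `F^{-k}(C)` which contains infinitely many points of the orbit

PROOF. `W = comp2 (itp f k) (itp g k) P ≠ 0` (`comp2_ne_zero`, `itp_natDegree`). For `n ∈ R := {n | P.evalEval (orb f n a) (orb g n b) = 0}`, `n ≥ k`:
`W.evalEval (orb f (n-k) a) (orb g (n-k) b) = P.evalEval (orb f n a) (orb g n b) = 0` (`comp2_evalEval`, `itp_eval`, `orb_add`). So `J = {n | W vanishes at p_n}` is infinite and for `n ∈ J`
also `P` vanishes at `p_{n+k}`. Write `W = unit * product of irreducibles` (`UniqueFactorizationMonoid.factors` or `normalizedFactors`, a finite multiset); for every `n ∈ J` some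
irreducible factor vanishes at `p_n` (`evalEvalRingHom`, domain; the unit does not vanish). Pigeonhole (`Set.Infinite` of a finite union): some factor `Q` vanishes for infinitely many `n ∈ J`.
-/

set_option autoImplicit false

namespace Pool.Agent.Helper59.DX

open Polynomial

theorem exists_factor {f g : ℂ[X]} (hf : 1 ≤ f.natDegree) (hg : 1 ≤ g.natDegree) {a b : ℂ} {P : ℂ[X][X]}
    (hP : P ≠ 0) (hinf : {n | P.evalEval (orb f n a) (orb g n b) = 0}.Infinite) (k : ℕ) :
    ∃ Q : ℂ[X][X], Irreducible Q ∧
      {n | Q.evalEval (orb f n a) (orb g n b) = 0 ∧ P.evalEval (orb f (n + k) a) (orb g (n + k) b) = 0}.Infinite := by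
  classical
  set W : ℂ[X][X] := comp2 (itp f k) (itp g k) P with hW
  have hW0 : W ≠ 0 := by
    apply comp2_ne_zero _ _ hP
    · rw [itp_natDegree]
      exact pow_ne_zero _ (by omega)
    · rw [itp_natDegree]
      exact pow_ne_zero _ (by omega)
  have hWe : ∀ n, W.evalEval (orb f n a) (orb g n b) =
      P.evalEval (orb f (n + k) a) (orb g (n + k) b) := by
    intro n
    rw [hW, comp2_evalEval, itp_eval, itp_eval, ← orb_add, ← orb_add, Nat.add_comm k n]
  have hJ : {n | P.evalEval (orb f (n + k) a) (orb g (n + k) b) = 0}.Infinite := by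
    intro hfin
    apply hinf
    refine ((Set.finite_Iio k).union (hfin.image fun n => n + k)).subset ?_
    intro n hn
    by_cases hnk : n < k
    · exact Or.inl hnk
    · refine Or.inr ⟨n - k, ?_, Nat.sub_add_cancel (not_lt.1 hnk)⟩
      show P.evalEval (orb f (n - k + k) a) (orb g (n - k + k) b) = 0
      rw [Nat.sub_add_cancel (not_lt.1 hnk)]
      exact hn
  have hfac : ∀ n, P.evalEval (orb f (n + k) a) (orb g (n + k) b) = 0 →
      ∃ Q ∈ UniqueFactorizationMonoid.factors W, Q.evalEval (orb f n a) (orb g n b) = 0 := by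
    intro n hn
    obtain ⟨u, hu⟩ := UniqueFactorizationMonoid.factors_prod hW0
    have h1 : evalEvalRingHom (orb f n a) (orb g n b) W = 0 := by
      rw [← hWe] at hn
      exact hn
    rw [← hu, map_mul] at h1
    have h2 : IsUnit (evalEvalRingHom (orb f n a) (orb g n b) (u : ℂ[X][X])) := u.isUnit.map _
    rcases mul_eq_zero.1 h1 with h3 | h3
    · rw [map_multiset_prod, Multiset.prod_eq_zero_iff, Multiset.mem_map] at h3
      obtain ⟨Q, hQ, hQ0⟩ := h3
      exact ⟨Q, hQ, hQ0⟩
    · exact absurd h3 h2.ne_zero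
  by_contra hcon
  push Not at hcon
  apply hJ
  refine ((Finset.finite_toSet (UniqueFactorizationMonoid.factors W).toFinset).biUnion
    (t := fun Q => {n | Q.evalEval (orb f n a) (orb g n b) = 0 ∧
      P.evalEval (orb f (n + k) a) (orb g (n + k) b) = 0}) ?_).subset ?_
  · intro Q hQ
    have hQ' : Q ∈ UniqueFactorizationMonoid.factors W := by simpa using hQ
    exact hcon Q (UniqueFactorizationMonoid.irreducible_of_factor Q hQ')
  · intro n hn
    obtain ⟨Q, hQ, hQ0⟩ := hfac n hn
    exact Set.mem_biUnion (show Q ∈ ((UniqueFactorizationMonoid.factors W).toFinset : Set ℂ[X][X]) by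
      simpa using hQ) ⟨hQ0, hn⟩

end Pool.Agent.Helper59.DX
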