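import Pool.Agent.Helper59.DX.Northcott
import Pool.Agent.Helper59.DX.Esc
import Pool.Agent.Helper59.DX.Descend
import Pool.Agent.Helper59.DX.Factor
import Pool.Agent.Helper59.DX.Bnd

/-!
# DX-CHAIN: equal degrees `≥ 2`: the curve is periodic

`Q_k`: irreducible component of `F^{-k}(C)` with infinitely many orbit points; its degrees are bounded independently of `k` (`degY_bound`), and it meets the lines `X = ξ`,
`ξ` preperiodic for `f`, in a finite set independent of `k` (`northcott`). By pigeonhole two of them, `Q_k` and `Q_l`, have more common points than the Bezout bound allows.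
-/

set_option autoImplicit false

namespace Pool.Agent.Helper59.DX

open Polynomial

/-- a curve with infinitely many points with distinct `X`-coordinates has positive degree in `Y`. -/
theorem natDegree_pos_of_infinite {K : Type*} [Field K] {P : K[X][X]} (hP : P ≠ 0) {x y : ℕ → K}
    (hx : Function.Injective x) (hinf : {n | P.evalEval (x n) (y n) = 0}.Infinite) : 1 ≤ P.natDegree := by
  by_contra h0
  have h1 : P.natDegree = 0 := by omega
  rw [natDegree_eq_zero] at h1
  obtain ⟨p, rfl⟩ := h1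
  have hp : p ≠ 0 := fun h => hP (by rw [h, C_0])
  have h2 : (x '' {n | (C p : K[X][X]).evalEval (x n) (y n) = 0}).Infinite := hinf.image hx.injOn
  refine h2 ((p.rootSet_finite K).subset ?_)
  rintro _ ⟨n, hn, rfl⟩
  rw [mem_rootSet]
  refine ⟨hp, ?_⟩
  have h3 : (C p : K[X][X]).evalEval (x n) (y n) = 0 := hn
  rw [evalEval_C] at h3
  simpa using h3

theorem degX_pos_of_infinite {K : Type*} [Field K] {P : K[X][X]} (hP : P ≠ 0) {x y : ℕ → K}
    (hy : Function.Injective y) (hinf : {n | P.evalEval (x n) (y n) = 0}.Infinite) : 1 ≤ degX P := by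
  rw [← natDegree_swap]
  refine natDegree_pos_of_infinite (x := y) (y := x) ?_ hy ?_
  · intro h
    apply hP
    have := congrArg Bivariate.swap h
    rwa [Bivariate.swap_swap_apply, map_zero] at this
  · simpa only [evalEval_swap] using hinf

/-- the points of bounded degree of the curves `F^{-k}(C)` over a preperiodic point. -/
theorem fibre_finite {f g : ℂ[X]} (hg : 2 ≤ g.natDegree) {P : ℂ[X][X]} (hP : Irreducible P)
    (hPY : P.natDegree ≠ 0) {ξ : ℂ} (hξ : ¬ Function.Injective fun n => orb f n ξ) (S : Set ℂ)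
    (hS : S.Finite) (B : ℕ) :
    {η : ℂ | (∃ k, P.evalEval (orb f k ξ) (orb g k η) = 0) ∧
      ∃ q : (IntermediateField.adjoin ℚ S)[X], q ≠ 0 ∧ q.natDegree ≤ B ∧ aeval η q = 0}.Finite := by
  have h1 := finite_orbit hξ
  have h2 : {y : ℂ | ∃ x ∈ Set.range (fun n => orb f n ξ), P.evalEval x y = 0}.Finite := by
    have h3 : {y : ℂ | ∃ x ∈ Set.range (fun n => orb f n ξ), P.evalEval x y = 0} =
        ⋃ x ∈ Set.range (fun n => orb f n ξ), {y | P.evalEval x y = 0} := by
      ext y; simp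
    rw [h3]
    refine h1.biUnion fun x _ => ?_
    refine ((P.map (evalRingHom x)).rootSet_finite ℂ).subset fun y hy => ?_
    rw [mem_rootSet]
    refine ⟨eval_X_ne_zero hP hPY x, ?_⟩
    have hy' : P.evalEval x y = 0 := hy
    rw [← eval_map_evalRingHom] at hy'
    simpa using hy'
  refine (h2.biUnion fun y _ => northcott S hS hg y B).subset ?_
  rintro η ⟨⟨k, hk⟩, hq⟩
  refine Set.mem_iUnion₂.2 ⟨orb g k η, ⟨orb f k ξ, ⟨k, rfl⟩, hk⟩, ⟨k, rfl⟩, hq⟩

theorem orb_mem {K : IntermediateField ℚ ℂ} {f : ℂ[X]} (hf : ∀ i, f.coeff i ∈ K) {a : ℂ} (ha : a ∈ K) (n : ℕ) :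
    orb f n a ∈ K := by
  induction n with
  | zero => exact ha
  | succ n ih =>
    rw [orb_succ, eval_eq_sum_range]
    exact sum_mem fun i _ => mul_mem (hf i) (pow_mem ih i)

/-- the equation of the fibre over `ξ`, with coefficients in `ℚ(S, ξ)`. -/
theorem exists_fibre_poly (S : Set ℂ) (ξ : ℂ) {Q : ℂ[X][X]} {c : ℂ} (hc : c ≠ 0)
    {Q' : (IntermediateField.adjoin ℚ S)[X][X]}
    (hQ' : Q'.map (mapRingHom (algebraMap (IntermediateField.adjoin ℚ S) ℂ)) = C (C c) * Q)
    (hne : Q.map (evalRingHom ξ) ≠ 0) (N : ℕ) (hN : Q.natDegree ≤ N) {η : ℂ} (hη : Q.evalEval ξ η = 0) :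
    ∃ q : (IntermediateField.adjoin ℚ (insert ξ S))[X], q ≠ 0 ∧ q.natDegree ≤ N ∧ aeval η q = 0 := by
  have hle : IntermediateField.adjoin ℚ S ≤ IntermediateField.adjoin ℚ (insert ξ S) :=
    IntermediateField.adjoin.mono ℚ _ _ (Set.subset_insert ξ S)
  let i : IntermediateField.adjoin ℚ S →+* IntermediateField.adjoin ℚ (insert ξ S) :=
    (IntermediateField.inclusion hle).toRingHom
  let ξ' : IntermediateField.adjoin ℚ (insert ξ S) :=
    ⟨ξ, IntermediateField.subset_adjoin ℚ _ (Set.mem_insert ξ S)⟩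
  let j := algebraMap (IntermediateField.adjoin ℚ (insert ξ S)) ℂ
  have hij : j.comp i = algebraMap (IntermediateField.adjoin ℚ S) ℂ := by
    ext x; rfl
  have hjξ : j ξ' = ξ := rfl
  let q := (Q'.map (mapRingHom i)).map (evalRingHom ξ')
  have hq : q.map j = C c * Q.map (evalRingHom ξ) := by
    have e1 : q.map j = (Q'.map (mapRingHom (j.comp i))).map (evalRingHom ξ) := by
      rw [Polynomial.map_map, Polynomial.map_map, Polynomial.map_map]
      congr 1
      refine RingHom.ext fun p => ?_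
      simp only [RingHom.comp_apply, coe_mapRingHom, coe_evalRingHom]
      change j (eval ξ' (p.map i)) = eval (j ξ') (p.map (j.comp i))
      rw [← Polynomial.map_map, eval_map_apply]
    rw [e1, hij, hQ', Polynomial.map_mul, map_C]
    simp
  refine ⟨q, ?_, ?_, ?_⟩
  · intro h0
    rw [h0, Polynomial.map_zero] at hq
    rcases mul_eq_zero.1 hq.symm with h | h
    · exact hc (C_eq_zero.1 h)
    · exact hne h
  · have h1 : (q.map j).natDegree = q.natDegree := natDegree_map _
    rw [← h1, hq, natDegree_C_mul hc]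
    exact natDegree_map_le.trans hN
  · have h2 : (q.map j).eval η = 0 := by
      rw [hq, eval_mul, eval_map_evalRingHom, hη, mul_zero]
    rwa [aeval_def, ← eval_map]

theorem plane_equal (hN : NFTStatement) {f g : ℂ[X]} {a b : ℂ} (hf : 2 ≤ f.natDegree)
    (hfg : f.natDegree = g.natDegree) (ha : Function.Injective fun n => orb f n a)
    (hb : Function.Injective fun n => orb g n b) {P : ℂ[X][X]} (hP : Irreducible P)
    (hinf : {n | P.evalEval (orb f n a) (orb g n b) = 0}.Infinite) :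
    ∃ m, 0 < m ∧ P ∣ comp2 (itp f m) (itp g m) P := by
  classical
  have hg : 2 ≤ g.natDegree := by omega
  have hPY := natDegree_pos_of_infinite hP.ne_zero ha hinf
  have hPX := degX_pos_of_infinite hP.ne_zero hb hinf
  obtain ⟨N, hN1⟩ := degY_bound hN f.natDegree (degX P) P.natDegree hf
  obtain ⟨N', hN2⟩ := degY_bound hN f.natDegree P.natDegree (degX P) hf
  have hswap : ∀ {R : ℂ[X][X]}, Irreducible R → Irreducible (Bivariate.swap R) := fun {R} h =>
    (MulEquiv.irreducible_iff (Bivariate.swap (R := ℂ)).toMulEquiv).2 h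
  -- the curves
  choose Q hQ hJ using fun k => exists_factor (f := f) (g := g) (a := a) (b := b) (by omega) (by omega)
    hP.ne_zero hinf k
  have hQinf : ∀ k, {n | (Q k).evalEval (orb f n a) (orb g n b) = 0}.Infinite := fun k =>
    (hJ k).mono fun n hn => hn.1
  have hQY : ∀ k, (Q k).natDegree ≤ N := fun k =>
    hN1 f g P (Q k) a b k rfl hfg.symm ha hP hPX le_rfl hPY le_rfl (hQ k) (hJ k)
  have hQX : ∀ k, degX (Q k) ≤ N' := fun k => by
    rw [← natDegree_swap]
    refine hN2 g f (Bivariate.swap P) (Bivariate.swap (Q k)) b a k hfg.symm rfl hb (hswap hP)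
      (by rw [degX_swap]; exact hPY) (by rw [degX_swap]) (by rw [natDegree_swap]; exact hPX)
      (by rw [natDegree_swap]) (hswap (hQ k)) ?_
    simpa only [evalEval_swap] using hJ k
  have hQY1 : ∀ k, 1 ≤ (Q k).natDegree := fun k =>
    natDegree_pos_of_infinite (hQ k).ne_zero ha (hQinf k)
  have hdvd : ∀ k, Q k ∣ comp2 (itp f k) (itp g k) P := fun k =>
    dvd_of_common_zeros (hQ k) ha (hJ k) fun n hn => ⟨hn.1, by
      rw [comp2_evalEval, itp_eval, itp_eval, ← orb_add, ← orb_add, add_comm k n]; exact hn.2⟩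
  -- the field of definition
  let S : Set ℂ := ((fun i => f.coeff i) '' (Finset.range (f.natDegree + 1) : Set ℕ)) ∪
    ((fun i => g.coeff i) '' (Finset.range (g.natDegree + 1) : Set ℕ)) ∪ {a, b}
  have hS : S.Finite := by
    refine ((Set.Finite.image _ (Finset.finite_toSet _)).union
      (Set.Finite.image _ (Finset.finite_toSet _))).union (by simp)
  let K := IntermediateField.adjoin ℚ S
  have hSK : ∀ x ∈ S, x ∈ K := fun x hx => IntermediateField.subset_adjoin ℚ S hx
  have hcf : ∀ i, f.coeff i ∈ K := fun i => by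
    by_cases hi : i ∈ Finset.range (f.natDegree + 1)
    · exact hSK _ (Or.inl (Or.inl ⟨i, by exact_mod_cast hi, rfl⟩))
    · rw [coeff_eq_zero_of_natDegree_lt (by rw [Finset.mem_range] at hi; omega)]; exact zero_mem _
  have hcg : ∀ i, g.coeff i ∈ K := fun i => by
    by_cases hi : i ∈ Finset.range (g.natDegree + 1)
    · exact hSK _ (Or.inl (Or.inr ⟨i, by exact_mod_cast hi, rfl⟩))
    · rw [coeff_eq_zero_of_natDegree_lt (by rw [Finset.mem_range] at hi; omega)]; exact zero_mem _
  have haK : a ∈ K := hSK _ (Or.inr (by simp))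
  have hbK : b ∈ K := hSK _ (Or.inr (by simp))
  choose Q' c hc hQ' using fun k => descend K (hQ k) (x := fun n => orb f n a) (y := fun n => orb g n b)
    (fun n => orb_mem hcf haK n) (fun n => orb_mem hcg hbK n) ha (hQinf k)
  -- preperiodic points
  obtain ⟨Ξ, hΞ, hcard⟩ := (infinite_preperiodic hf).exists_subset_card_eq (2 * (N * N') + N' + 1)
  have hH : ∀ ξ ∈ Ξ, {η : ℂ | (∃ k, P.evalEval (orb f k ξ) (orb g k η) = 0) ∧
      ∃ q : (IntermediateField.adjoin ℚ (insert ξ S))[X], q ≠ 0 ∧ q.natDegree ≤ N ∧ aeval η q = 0}.Finite :=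
    fun ξ hξ => fibre_finite hg hP (by omega) (hΞ hξ) _ (hS.insert ξ) N
  let H : Set ℂ := ⋃ ξ ∈ Ξ, {η : ℂ | (∃ k, P.evalEval (orb f k ξ) (orb g k η) = 0) ∧
      ∃ q : (IntermediateField.adjoin ℚ (insert ξ S))[X], q ≠ 0 ∧ q.natDegree ≤ N ∧ aeval η q = 0}
  have hHfin : H.Finite := Set.Finite.biUnion (Finset.finite_toSet Ξ) fun ξ hξ => hH ξ (by exact_mod_cast hξ)
  have hpt : ∀ k, ∀ ξ ∈ Ξ, (Q k).leadingCoeff.eval ξ ≠ 0 → ∃ η : H, (Q k).evalEval ξ η = 0 := by
    intro k ξ hξ hl
    have hd : ((Q k).map (evalRingHom ξ)).natDegree = (Q k).natDegree :=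
      natDegree_map_of_leadingCoeff_ne_zero _ hl
    have hne : (Q k).map (evalRingHom ξ) ≠ 0 := by
      intro h; rw [h, natDegree_zero] at hd; have := hQY1 k; omega
    obtain ⟨η, hη⟩ := IsAlgClosed.exists_root ((Q k).map (evalRingHom ξ)) (by
      intro h
      have h2 := natDegree_eq_zero_iff_degree_le_zero.2 h.le
      rw [hd] at h2
      have := hQY1 k
      omega)
    have hη1 : (Q k).evalEval ξ η = 0 := by rw [← eval_map_evalRingHom]; exact hη
    refine ⟨⟨η, Set.mem_iUnion₂.2 ⟨ξ, hξ, ⟨k, ?_⟩, exists_fibre_poly S ξ (hc k) (hQ' k) hne N (hQY k) hη1⟩⟩, hη1⟩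
    obtain ⟨T, hT⟩ := hdvd k
    have h3 := congrArg (evalEval ξ η) hT
    rw [comp2_evalEval, itp_eval, itp_eval, evalEval_mul, hη1, zero_mul] at h3
    exact h3
  -- pigeonhole
  have hfin : Finite H := hHfin
  let e : ℕ → Ξ → Option H := fun k ξ =>
    if h : ∃ η : H, (Q k).evalEval ξ.1 η = 0 then some h.choose else none
  have he : ∀ k ξ η, e k ξ = some η → (Q k).evalEval ξ.1 η = 0 := by
    intro k ξ η h
    simp only [e] at h
    split_ifs at h with h1
    have h2 : h1.choose = η := by simpa using h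
    rw [← h2]; exact h1.choose_spec
  have he' : ∀ k (ξ : Ξ), (Q k).leadingCoeff.eval ξ.1 ≠ 0 → ∃ η, e k ξ = some η := by
    intro k ξ h
    have h1 := hpt k ξ.1 ξ.2 h
    exact ⟨h1.choose, by simp only [e]; rw [dif_pos h1]⟩
  obtain ⟨k, l, hkl, hekl⟩ : ∃ k l, k < l ∧ e k = e l := by
    obtain ⟨k, l, hne, h⟩ := Finite.exists_ne_map_eq_of_infinite e
    rcases lt_or_gt_of_ne hne with h1 | h1
    · exact ⟨k, l, h1, h⟩
    · exact ⟨l, k, h1, h.symm⟩
  have hQkl : Q k ∣ Q l := by
    by_contra hnd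
    have h1 := bezout_count (Q k) (Q l) (hQ k) hnd (Ξ.filter fun ξ => (Q k).leadingCoeff.eval ξ ≠ 0) (by
      intro ξ hξ
      rw [Finset.mem_filter] at hξ
      obtain ⟨η, hη⟩ := he' k ⟨ξ, hξ.1⟩ hξ.2
      refine ⟨η, he k ⟨ξ, hξ.1⟩ η hη, ?_⟩
      rw [hekl] at hη
      exact he l ⟨ξ, hξ.1⟩ η hη)
    have h2 : (Ξ.filter fun ξ => ¬ (Q k).leadingCoeff.eval ξ ≠ 0).card ≤ N' := by
      have h3 : (Ξ.filter fun ξ => ¬ (Q k).leadingCoeff.eval ξ ≠ 0) ⊆ (Q k).leadingCoeff.roots.toFinset := by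
        intro ξ hξ
        rw [Finset.mem_filter, not_not] at hξ
        rw [Multiset.mem_toFinset, mem_roots (by rw [Ne, leadingCoeff_eq_zero]; exact (hQ k).ne_zero)]
        exact hξ.2
      calc _ ≤ _ := Finset.card_le_card h3
        _ ≤ _ := Multiset.toFinset_card_le _
        _ ≤ _ := card_roots' _
        _ ≤ _ := natDegree_coeff_le_degX _ _
        _ ≤ _ := hQX k
    have h4 := Finset.card_filter_add_card_filter_not (s := Ξ) (fun ξ => (Q k).leadingCoeff.eval ξ ≠ 0)
    have h5 : degX (Q k) * (Q l).natDegree ≤ N' * N := Nat.mul_le_mul (hQX k) (hQY l)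
    have h6 : degX (Q l) * (Q k).natDegree ≤ N' * N := Nat.mul_le_mul (hQX l) (hQY k)
    have h7 : N * N' = N' * N := mul_comm _ _
    omega
  refine ⟨l - k, by omega, ?_⟩
  refine dvd_of_common_zeros hP (x := fun n => orb f (n + k) a) (y := fun n => orb g (n + k) b)
    (fun m n h => by have := ha h; omega) (hJ k) fun n hn => ⟨hn.2, ?_⟩
  rw [comp2_evalEval, itp_eval, itp_eval, ← orb_add, ← orb_add]
  have e1 : l - k + (n + k) = l + n := by omega
  rw [e1]
  obtain ⟨T, hT⟩ := hQkl.trans (hdvd l)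
  have h3 := congrArg (evalEval (orb f n a) (orb g n b)) hT
  rw [comp2_evalEval, itp_eval, itp_eval, evalEval_mul, hn.1, zero_mul, ← orb_add, ← orb_add] at h3
  exact h3

end Pool.Agent.Helper59.DX
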