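import Mathlib

/-!
# MP_28f5fb_ag, sections 0, 4, 5: definitions

Bivariate polynomials are `K[X][X]` (inner variable `X`, outer variable `Y`), evaluated by `evalEval x y`.
-/

set_option autoImplicit false

namespace Pool.Agent.Helper59.DX

open Polynomial

/-- the point `f^n(a)` of the orbit of `a`. -/
abbrev orb {K : Type*} [Semiring K] (f : K[X]) (n : ℕ) (a : K) : K := (fun z => f.eval z)^[n] a

/-- the `n`-th iterate of `f`, as a polynomial. -/
noncomputable def itp {K : Type*} [CommRing K] (f : K[X]) (n : ℕ) : K[X] := f.comp^[n] X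

/-- `P(f(X), g(Y))`. -/
noncomputable def comp2 {K : Type*} [CommRing K] (f g : K[X]) (P : K[X][X]) : K[X][X] :=
  (P.map (compRingHom f)).comp (g.map C)

/-- degree in the inner variable. -/
noncomputable def degX {K : Type*} [Semiring K] (Q : K[X][X]) : ℕ :=
  Q.support.sup fun b => (Q.coeff b).natDegree

/-- absolute irreducibility: irreducible over every extension field. -/
def AbsIrr {K : Type} [Field K] (Q : K[X][X]) : Prop :=
  ∀ (F : Type) [Field F] (φ : K →+* F), Irreducible (Q.map (mapRingHom φ))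

/-- size of an integral point. -/
def sz {r : ℕ} (v : Fin r → ℤ) : ℝ := 1 + ∑ i, |(v i : ℝ)|

/-- evaluation of a polynomial with coefficients in `R` at an integral point, as a ring homomorphism to `ℂ`. -/
noncomputable def ev {r : ℕ} (R : Type*) [CommRing R] [Algebra R ℂ] (v : Fin r → ℤ) :
    MvPolynomial (Fin r) R →+* ℂ :=
  (MvPolynomial.aeval (fun i => (v i : ℂ)) : MvPolynomial (Fin r) R →ₐ[R] ℂ).toRingHom

/-- escape radius of a complex polynomial. -/
noncomputable def escR (g : ℂ[X]) : ℝ :=
  1 + ‖g.leadingCoeff‖⁻¹ * (1 + ∑ i ∈ Finset.range g.natDegree, ‖g.coeff i‖)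

theorem one_le_sz {r : ℕ} (v : Fin r → ℤ) : 1 ≤ sz v := by
  have : 0 ≤ ∑ i, |(v i : ℝ)| := Finset.sum_nonneg fun i _ => abs_nonneg _
  unfold sz; linarith

theorem one_le_escR (g : ℂ[X]) : 1 ≤ escR g := by
  have h1 : 0 ≤ ∑ i ∈ Finset.range g.natDegree, ‖g.coeff i‖ := Finset.sum_nonneg fun i _ => norm_nonneg _
  have h2 : 0 ≤ ‖g.leadingCoeff‖⁻¹ := inv_nonneg.2 (norm_nonneg _)
  unfold escR
  nlinarith [mul_nonneg h2 h1]

theorem orb_zero {K : Type*} [Semiring K] (f : K[X]) (a : K) : orb f 0 a = a := rfl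

theorem orb_succ {K : Type*} [Semiring K] (f : K[X]) (n : ℕ) (a : K) :
    orb f (n + 1) a = f.eval (orb f n a) := Function.iterate_succ_apply' _ _ _

theorem orb_add {K : Type*} [Semiring K] (f : K[X]) (m n : ℕ) (a : K) :
    orb f (m + n) a = orb f m (orb f n a) := Function.iterate_add_apply _ _ _ _

theorem orb_map {K L : Type*} [CommSemiring K] [CommSemiring L] (s : K →+* L) (f : K[X]) (n : ℕ) (a : K) :
    orb (f.map s) n (s a) = s (orb f n a) := by
  induction n with
  | zero => rfl
  | succ n ih => rw [orb_succ, orb_succ, ih, eval_map_apply]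

theorem itp_zero {K : Type*} [CommRing K] (f : K[X]) : itp f 0 = X := rfl

theorem itp_succ {K : Type*} [CommRing K] (f : K[X]) (n : ℕ) : itp f (n + 1) = f.comp (itp f n) :=
  Function.iterate_succ_apply' _ _ _

theorem itp_eval {K : Type*} [CommRing K] (f : K[X]) (n : ℕ) (x : K) : (itp f n).eval x = orb f n x := by
  induction n with
  | zero => simp [itp_zero, orb_zero]
  | succ n ih => rw [itp_succ, eval_comp, ih, orb_succ]

theorem itp_add {K : Type*} [CommRing K] (f : K[X]) (m n : ℕ) : itp f (m + n) = (itp f m).comp (itp f n) := by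
  induction m with
  | zero => simp [itp_zero]
  | succ m ih => rw [Nat.succ_add, itp_succ, ih, itp_succ, comp_assoc]

theorem itp_natDegree {K : Type*} [CommRing K] [IsDomain K] (f : K[X]) (n : ℕ) :
    (itp f n).natDegree = f.natDegree ^ n := by
  induction n with
  | zero => simp [itp_zero]
  | succ n ih => rw [itp_succ, natDegree_comp, ih, pow_succ']

end Pool.Agent.Helper59.DX
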