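import Pool.Agent.Helper59.DX.Defs

/-!
# DX-DEGX: elementary API: `degX`, `comp2`, `swap`

`degX Q` is the degree in the inner variable, `Q.natDegree` the degree in the outer variable. Hints: `degX Q = (Bivariate.swap Q).natDegree`
can be proved by comparing coefficients: `(swap Q).coeff i).coeff j = (Q.coeff j).coeff i` (`Bivariate.swap_apply`, induction with
`swap_monomial_monomial`); then multiplicativity of `degX` over domains is `natDegree_mul`.
-/

set_option autoImplicit false

namespace Pool.Agent.Helper59.DX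

open Polynomial

variable {K : Type*}

theorem natDegree_coeff_le_degX [Semiring K] (Q : K[X][X]) (b : ℕ) : (Q.coeff b).natDegree ≤ degX Q := by
  by_cases hb : b ∈ Q.support
  · exact Finset.le_sup (f := fun b => (Q.coeff b).natDegree) hb
  · rw [notMem_support_iff.mp hb, natDegree_zero]
    exact Nat.zero_le _

theorem degX_le [Semiring K] {Q : K[X][X]} {n : ℕ} (h : ∀ b, (Q.coeff b).natDegree ≤ n) : degX Q ≤ n :=
  Finset.sup_le (fun b _ => h b)

theorem coeff_swap [CommRing K] (Q : K[X][X]) (i j : ℕ) :
    ((Bivariate.swap Q).coeff i).coeff j = (Q.coeff j).coeff i := by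
  induction Q using Polynomial.induction_on' with
  | add p q hp hq => rw [map_add, coeff_add, coeff_add, coeff_add, coeff_add, hp, hq]
  | monomial n a =>
    induction a using Polynomial.induction_on' with
    | add p q hp hq =>
      rw [map_add, map_add, coeff_add, coeff_add, coeff_add, coeff_add, hp, hq]
    | monomial m r =>
      rw [Bivariate.swap_monomial_monomial, coeff_monomial, coeff_monomial]
      by_cases h1 : m = i
      · by_cases h2 : n = j
        · rw [if_pos h1, if_pos h2, coeff_monomial, coeff_monomial, if_pos h1, if_pos h2]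
        · rw [if_pos h1, if_neg h2, coeff_monomial, if_neg h2, coeff_zero]
      · by_cases h2 : n = j
        · rw [if_neg h1, if_pos h2, coeff_monomial, if_neg h1, coeff_zero]
        · rw [if_neg h1, if_neg h2, coeff_zero, coeff_zero]

theorem evalEval_swap [CommRing K] (Q : K[X][X]) (x y : K) :
    (Bivariate.swap Q).evalEval x y = Q.evalEval y x := by
  induction Q using Polynomial.induction_on' with
  | add p q hp hq => rw [map_add, evalEval_add, evalEval_add, hp, hq]
  | monomial n a =>
    induction a using Polynomial.induction_on' with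
    | add p q hp hq =>
      rw [map_add, map_add, evalEval_add, evalEval_add, hp, hq]
    | monomial m r =>
      rw [Bivariate.swap_monomial_monomial]
      simp only [evalEval, eval_monomial, eval_mul, eval_pow, eval_C]
      ring

theorem natDegree_swap [CommRing K] (Q : K[X][X]) : (Bivariate.swap Q).natDegree = degX Q := by
  apply le_antisymm
  · rw [natDegree_le_iff_coeff_eq_zero]
    intro i hi
    ext j
    rw [coeff_swap, coeff_zero]
    exact coeff_eq_zero_of_natDegree_lt ((natDegree_coeff_le_degX Q j).trans_lt hi)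
  · apply degX_le
    intro b
    by_cases hb : Q.coeff b = 0
    · rw [hb, natDegree_zero]
      exact Nat.zero_le _
    · apply le_natDegree_of_ne_zero
      intro h
      have h1 := coeff_swap Q (Q.coeff b).natDegree b
      rw [h, coeff_zero] at h1
      exact hb (leadingCoeff_eq_zero.mp h1.symm)

theorem degX_swap [CommRing K] (Q : K[X][X]) : degX (Bivariate.swap Q) = Q.natDegree := by
  rw [← natDegree_swap, Bivariate.swap_swap_apply]

theorem degX_mul [CommRing K] [IsDomain K] {P Q : K[X][X]} (hP : P ≠ 0) (hQ : Q ≠ 0) :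
    degX (P * Q) = degX P + degX Q := by
  rw [← natDegree_swap, ← natDegree_swap, ← natDegree_swap, map_mul, natDegree_mul]
  · exact (map_ne_zero_iff _ Bivariate.swap.injective).mpr hP
  · exact (map_ne_zero_iff _ Bivariate.swap.injective).mpr hQ

/-- the map on coefficients commutes with `swap`. -/
theorem swap_map {L : Type*} [CommRing K] [CommRing L] (s : K →+* L) (Q : K[X][X]) :
    Bivariate.swap (Q.map (mapRingHom s)) = (Bivariate.swap Q).map (mapRingHom s) := by
  ext i j
  rw [coeff_swap, coeff_map, coeff_map, coe_mapRingHom, coeff_map, coeff_map, coeff_swap]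

theorem degX_map_le {L : Type*} [Semiring K] [Semiring L] (s : K →+* L) (Q : K[X][X]) :
    degX (Q.map (mapRingHom s)) ≤ degX Q := by
  apply degX_le
  intro b
  rw [coeff_map, coe_mapRingHom]
  exact natDegree_map_le.trans (natDegree_coeff_le_degX Q b)

theorem degX_map_of_injective {L : Type*} [Semiring K] [Semiring L] (s : K →+* L)
    (hs : Function.Injective s) (Q : K[X][X]) : degX (Q.map (mapRingHom s)) = degX Q := by
  apply le_antisymm (degX_map_le s Q)
  apply degX_le
  intro b
  have h := natDegree_coeff_le_degX (Q.map (mapRingHom s)) b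
  rw [coeff_map, coe_mapRingHom, natDegree_map_eq_of_injective hs] at h
  exact h

theorem natDegree_map_of_injective {L : Type*} [Semiring K] [Semiring L] (s : K →+* L)
    (hs : Function.Injective s) (Q : K[X][X]) : (Q.map (mapRingHom s)).natDegree = Q.natDegree :=
  natDegree_map_eq_of_injective (Polynomial.map_injective s hs) Q

theorem map_injective' {L : Type*} [Semiring K] [Semiring L] (s : K →+* L)
    (hs : Function.Injective s) : Function.Injective (fun Q : K[X][X] => Q.map (mapRingHom s)) :=
  Polynomial.map_injective (mapRingHom s) (Polynomial.map_injective s hs)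

/-- a polynomial with both degrees `0` is a constant. -/
theorem eq_CC_of_deg_zero [Semiring K] {Q : K[X][X]} (h1 : degX Q = 0) (h2 : Q.natDegree = 0) :
    Q = C (C ((Q.coeff 0).coeff 0)) := by
  have h3 : Q.coeff 0 = C ((Q.coeff 0).coeff 0) :=
    eq_C_of_natDegree_eq_zero (Nat.le_zero.mp (h1 ▸ natDegree_coeff_le_degX Q 0))
  rw [← h3]
  exact eq_C_of_natDegree_eq_zero h2

/-- units of `K[X][Y]` for a field `K` are the nonzero constants. -/
theorem isUnit_iff_deg [Field K] {Q : K[X][X]} (hQ : Q ≠ 0) : IsUnit Q ↔ degX Q = 0 ∧ Q.natDegree = 0 := by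
  constructor
  · intro h
    refine ⟨?_, natDegree_eq_zero_of_isUnit h⟩
    rw [← natDegree_swap]
    exact natDegree_eq_zero_of_isUnit (h.map Bivariate.swap)
  · rintro ⟨h1, h2⟩
    have h3 := eq_CC_of_deg_zero h1 h2
    rw [h3]
    have h4 : (Q.coeff 0).coeff 0 ≠ 0 := by
      intro h5
      rw [h5, C_0, C_0] at h3
      exact hQ h3
    exact ((IsUnit.mk0 _ h4).map C).map C

/-- `comp2` as a ring homomorphism -/
private noncomputable def c2h [CommRing K] (f g : K[X]) : K[X][X] →+* K[X][X] :=
  (compRingHom (g.map C)).comp (mapRingHom (compRingHom f))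

private theorem c2h_apply [CommRing K] (f g : K[X]) (P : K[X][X]) : c2h f g P = comp2 f g P := rfl

private theorem comp2_C [CommRing K] (f g h : K[X]) : comp2 f g (C h) = C (h.comp f) := by
  unfold comp2
  rw [map_C, C_comp]
  rfl

private theorem comp2_Y [CommRing K] (f g : K[X]) : comp2 f g X = g.map C := by
  unfold comp2
  rw [map_X, X_comp]

private theorem comp2_map [CommRing K] (f g h : K[X]) : comp2 f g (h.map C) = (h.comp g).map C := by
  unfold comp2
  rw [map_map, map_comp]
  congr 2
  ext a
  simp

private theorem hom_ext2 {L : Type*} [CommRing K] [CommRing L] {s t : K[X][X] →+* L}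
    (h0 : ∀ r, s (C (C r)) = t (C (C r))) (h1 : s (C X) = t (C X)) (h2 : s X = t X) (P : K[X][X]) :
    s P = t P := by
  have : s = t := by
    apply Polynomial.ringHom_ext'
    · apply Polynomial.ringHom_ext'
      · ext r
        exact h0 r
      · exact h1
    · exact h2
  rw [this]

theorem comp2_evalEval [CommRing K] (f g : K[X]) (P : K[X][X]) (x y : K) :
    (comp2 f g P).evalEval x y = P.evalEval (f.eval x) (g.eval y) := by
  refine hom_ext2 (s := (evalEvalRingHom x y).comp (c2h f g))
    (t := evalEvalRingHom (f.eval x) (g.eval y)) ?_ ?_ ?_ P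
  · intro r
    change (comp2 f g (C (C r))).evalEval x y = (C (C r)).evalEval (f.eval x) (g.eval y)
    rw [comp2_C, C_comp, evalEval_C, evalEval_C, eval_C, eval_C]
  · change (comp2 f g (C X)).evalEval x y = (C X).evalEval (f.eval x) (g.eval y)
    rw [comp2_C, X_comp, evalEval_C, evalEval_C, eval_X]
  · change (comp2 f g X).evalEval x y = X.evalEval (f.eval x) (g.eval y)
    rw [comp2_Y, evalEval_map_C, evalEval_X]

theorem comp2_mul [CommRing K] (f g : K[X]) (P Q : K[X][X]) :
    comp2 f g (P * Q) = comp2 f g P * comp2 f g Q :=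
  map_mul (c2h f g) P Q

theorem comp2_comp2 [CommRing K] (f g f' g' : K[X]) (P : K[X][X]) :
    comp2 f g (comp2 f' g' P) = comp2 (f'.comp f) (g'.comp g) P := by
  refine hom_ext2 (s := (c2h f g).comp (c2h f' g')) (t := c2h (f'.comp f) (g'.comp g)) ?_ ?_ ?_ P
  · intro r
    change comp2 f g (comp2 f' g' (C (C r))) = comp2 (f'.comp f) (g'.comp g) (C (C r))
    rw [comp2_C, comp2_C, comp2_C, C_comp, C_comp, C_comp]
  · change comp2 f g (comp2 f' g' (C X)) = comp2 (f'.comp f) (g'.comp g) (C X)
    rw [comp2_C, comp2_C, comp2_C, X_comp, X_comp]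
  · change comp2 f g (comp2 f' g' X) = comp2 (f'.comp f) (g'.comp g) X
    rw [comp2_Y, comp2_Y, comp2_map]

theorem comp2_X [CommRing K] (P : K[X][X]) : comp2 X X P = P := by
  refine hom_ext2 (s := c2h X X) (t := RingHom.id _) ?_ ?_ ?_ P
  · intro r
    change comp2 X X (C (C r)) = C (C r)
    rw [comp2_C, comp_X]
  · change comp2 X X (C X) = C X
    rw [comp2_C, comp_X]
  · change comp2 X X X = X
    rw [comp2_Y, map_X]

theorem comp2_ne_zero [Field K] {f g : K[X]} (hf : f.natDegree ≠ 0) (hg : g.natDegree ≠ 0) {P : K[X][X]}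
    (hP : P ≠ 0) : comp2 f g P ≠ 0 := by
  have hfi : Function.Injective (compRingHom f) := by
    rw [injective_iff_map_eq_zero]
    intro p hp
    have hp' : p.comp f = 0 := hp
    rw [comp_eq_zero_iff] at hp'
    rcases hp' with h | ⟨_, h⟩
    · exact h
    · exfalso
      apply hf
      rw [h, natDegree_C]
  have h1 : P.map (compRingHom f) ≠ 0 := (Polynomial.map_ne_zero_iff hfi).mpr hP
  intro h
  have h' : (P.map (compRingHom f)).comp (g.map C) = 0 := h
  rw [comp_eq_zero_iff] at h'
  rcases h' with h2 | ⟨_, h2⟩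
  · exact h1 h2
  · apply hg
    have h3 := congrArg natDegree h2
    rw [natDegree_C, natDegree_map_eq_of_injective C_injective] at h3
    exact h3

theorem comp2_dvd [CommRing K] {f g : K[X]} {P Q : K[X][X]} (h : P ∣ Q) : comp2 f g P ∣ comp2 f g Q :=
  map_dvd (c2h f g) h

theorem comp2_swap [CommRing K] (f g : K[X]) (P : K[X][X]) :
    Bivariate.swap (comp2 f g P) = comp2 g f (Bivariate.swap P) := by
  refine hom_ext2 (s := (Bivariate.swap (R := K) : K[X][X] ≃ₐ[K] K[X][X]).toRingHom.comp (c2h f g))
    (t := (c2h g f).comp (Bivariate.swap (R := K) : K[X][X] ≃ₐ[K] K[X][X]).toRingHom) ?_ ?_ ?_ P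
  · intro r
    change Bivariate.swap (comp2 f g (C (C r))) = comp2 g f (Bivariate.swap (C (C r)))
    rw [comp2_C, C_comp, Bivariate.swap_C_C, comp2_C, C_comp]
  · change Bivariate.swap (comp2 f g (C X)) = comp2 g f (Bivariate.swap (C X))
    rw [comp2_C, X_comp, Bivariate.swap_C, Bivariate.swap_X, comp2_Y]
  · change Bivariate.swap (comp2 f g X) = comp2 g f (Bivariate.swap X)
    rw [comp2_Y, Bivariate.swap_map_C, Bivariate.swap_Y, comp2_C, X_comp]

/-- forward invariance is inherited by the iterates. -/
theorem dvd_comp2_iterate [CommRing K] {f g : K[X]} {m : ℕ} {P : K[X][X]}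
    (h : P ∣ comp2 (itp f m) (itp g m) P) (k : ℕ) : P ∣ comp2 (itp f (m * k)) (itp g (m * k)) P := by
  induction k with
  | zero =>
    rw [mul_zero, itp_zero, itp_zero, comp2_X]
  | succ k ih =>
    rw [Nat.mul_succ, itp_add, itp_add, ← comp2_comp2]
    exact h.trans (comp2_dvd ih)

/-- an irreducible polynomial of positive degree in `Y` contains no line `X = ξ`. -/
theorem eval_X_ne_zero [Field K] {P : K[X][X]} (hP : Irreducible P) (hY : P.natDegree ≠ 0) (ξ : K) :
    P.map (evalRingHom ξ) ≠ 0 := by
  intro h
  have h1 : C (X - C ξ) ∣ P := by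
    rw [C_dvd_iff_dvd_coeff]
    intro i
    rw [dvd_iff_isRoot, IsRoot.def]
    have h2 := congrArg (fun q => q.coeff i) h
    simpa [coeff_map] using h2
  obtain ⟨R, hR⟩ := h1
  rcases hP.isUnit_or_isUnit hR with h2 | h2
  · rw [isUnit_C] at h2
    exact not_isUnit_X_sub_C ξ h2
  · apply hY
    rw [hR, natDegree_mul, natDegree_C, natDegree_eq_zero_of_isUnit h2]
    · rw [Ne, C_eq_zero]
      exact X_sub_C_ne_zero ξ
    · exact h2.ne_zero

/-- `P(ξ, ·)` evaluated at `y`. -/
theorem eval_map_evalRingHom [CommRing K] (P : K[X][X]) (ξ y : K) :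
    (P.map (evalRingHom ξ)).eval y = P.evalEval ξ y :=
  map_evalRingHom_eval ξ y P

end Pool.Agent.Helper59.DX
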