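import Pool.Agent.Helper59.DML.Embed

/-!
# DX-EMBED2: Cassels embedding with units

`embed_core2`: like `Pool.Agent.Helper59.DML.embed_core` (file DML/Embed.lean: copy its proof), with an additional nonzero `D' : ℤ[t]` which becomes a `p`-adic unit and all of `ℤ[t]` going to `ℤ_p`.
CHANGES: choose the integral point `r` with `eval r (D * D') ≠ 0`; exclude also the primes dividing `eval r D'`; then `ετ D'` is a unit of `ℤ_p`
(`PadicInt.toZMod (ετ D') = (eval r D' : ZMod p) ≠ 0`), so has norm `1`; `φ (algebraMap ..) = ε' x = (ετ x : ℤ_[p])` has norm `≤ 1` for all `x`.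

`embed_units`: PROOF as `DML.embed_infinite` (copy), with `D'` = the product over `x ∈ T` of (leading coefficient) * (constant coefficient) of a polynomial `q_x : (MvPolynomial κ ℤ)[X]` with
`q_x(x) = 0` and nonzero constant coefficient (exists: `x ≠ 0` is algebraic over `L = FractionRing (MvPolynomial κ ℤ)`: `IsLocalization.integerNormalization` of `minpoly L x`).
For the embedding `φ` the element `φ x` is a root of a polynomial over `ℤ_p` with unit leading coefficient and unit constant coefficient: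
`‖φ x‖ > 1` contradicts `‖lc x^n‖ = ‖∑_{i<n} a_i x^i‖ ≤ ‖x‖^(n-1)`, and `‖φ x‖ < 1` contradicts `‖a_0‖ = ‖∑_{i≥1} a_i x^i‖ ≤ ‖x‖ < 1`. So `‖φ x‖ = 1`.
-/

set_option autoImplicit false

open Polynomial

namespace Pool.Agent.Helper59.DX

open Pool.Agent.Helper59.DML

theorem embed_core2 {κ : Type} [Finite κ] {E : Type} [Field E]
    [Algebra (FractionRing (MvPolynomial κ ℤ)) E]
    [FiniteDimensional (FractionRing (MvPolynomial κ ℤ)) E] (D' : MvPolynomial κ ℤ) (hD' : D' ≠ 0) :
    {p : ℕ | ∃ _ : Fact p.Prime, ∃ φ : E →+* ℚ_[p],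
      (∀ x : MvPolynomial κ ℤ, ‖φ (algebraMap (FractionRing (MvPolynomial κ ℤ)) E (algebraMap _ _ x))‖ ≤ 1) ∧
      ‖φ (algebraMap (FractionRing (MvPolynomial κ ℤ)) E (algebraMap _ _ D'))‖ = 1}.Infinite := by
  classical
  revert D'
  set B := MvPolynomial κ ℤ with hB
  set K := FractionRing B with hK
  intro D' hD'
  haveI : CharZero B := charZero_of_injective_algebraMap (R := ℤ) (A := B)
    (by rw [MvPolynomial.algebraMap_eq]; exact MvPolynomial.C_injective κ ℤ)
  haveI : CharZero K := charZero_of_injective_algebraMap (R := B) (A := K) (IsFractionRing.injective B K)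
  obtain ⟨θ, hθ⟩ := Field.exists_primitive_element K E
  have hint : IsIntegral K θ := Algebra.IsIntegral.isIntegral θ
  set m := minpoly K θ with hm
  have hsep : m.Separable := (minpoly.irreducible hint).separable
  obtain ⟨u, v, huv⟩ := hsep
  obtain ⟨bm, hbm, hbm1⟩ := IsLocalization.integerNormalization_spec (nonZeroDivisors B) m
  obtain ⟨bu, hbu, hbu1⟩ := IsLocalization.integerNormalization_spec (nonZeroDivisors B) u
  obtain ⟨bv, hbv, hbv1⟩ := IsLocalization.integerNormalization_spec (nonZeroDivisors B) v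
  set m₁ := IsLocalization.integerNormalization (nonZeroDivisors B) m with hm₁
  set u₁ := IsLocalization.integerNormalization (nonZeroDivisors B) u with hu₁
  set v₁ := IsLocalization.integerNormalization (nonZeroDivisors B) v with hv₁
  have hmapinj : Function.Injective (Polynomial.map (algebraMap B K)) :=
    Polynomial.map_injective _ (IsFractionRing.injective B K)
  have hm₁' : m₁.map (algebraMap B K) = C (algebraMap B K bm) * m := by
    rw [hbm1, Algebra.smul_def]; rfl
  have hu₁' : u₁.map (algebraMap B K) = C (algebraMap B K bu) * u := by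
    rw [hbu1, Algebra.smul_def]; rfl
  have hv₁' : v₁.map (algebraMap B K) = C (algebraMap B K bv) * v := by
    rw [hbv1, Algebra.smul_def]; rfl
  set D : B := bu * bv * bm with hD
  have hD0 : D ≠ 0 := mul_ne_zero (mul_ne_zero (nonZeroDivisors.ne_zero hbu) (nonZeroDivisors.ne_zero hbv))
    (nonZeroDivisors.ne_zero hbm)
  have hrel : (C bv * u₁) * m₁ + (C bu * v₁) * derivative m₁ = C D := by
    apply hmapinj
    rw [Polynomial.map_add, Polynomial.map_mul, Polynomial.map_mul, Polynomial.map_mul,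
      Polynomial.map_mul, ← Polynomial.derivative_map, Polynomial.map_C, Polynomial.map_C,
      Polynomial.map_C, hm₁', hu₁', hv₁', derivative_mul, derivative_C, zero_mul, zero_add, hD]
    have : C (algebraMap B K (bu * bv * bm))
        = C (algebraMap B K bu) * C (algebraMap B K bv) * C (algebraMap B K bm) := by
      simp only [map_mul]
    rw [this, ← mul_one (C (algebraMap B K bu) * C (algebraMap B K bv) * C (algebraMap B K bm)), ← huv]
    ring
  -- an integral point
  obtain ⟨r, hr, hr'⟩ : ∃ r : κ → ℤ, MvPolynomial.eval r D ≠ 0 ∧ MvPolynomial.eval r D' ≠ 0 := by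
    by_contra hcon
    push Not at hcon
    refine mul_ne_zero hD0 hD' (MvPolynomial.funext (fun x => ?_))
    rw [map_zero, map_mul]
    by_cases h : MvPolynomial.eval x D = 0
    · rw [h, zero_mul]
    · rw [hcon x h, mul_zero]
  have hbmr : MvPolynomial.eval r bm ≠ 0 := by
    intro h0; apply hr; rw [hD, map_mul, h0, mul_zero]
  -- the specialised polynomial
  set g : ℤ[X] := m₁.map (MvPolynomial.eval r) with hg
  have hdeg1 : m₁.natDegree = m.natDegree := by
    have h1 : (m₁.map (algebraMap B K)).natDegree = m₁.natDegree :=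
      Polynomial.natDegree_map_eq_of_injective (IsFractionRing.injective B K) _
    rw [← h1, hm₁', Polynomial.natDegree_C_mul]
    exact fun h => (nonZeroDivisors.ne_zero hbm) (IsFractionRing.injective B K (by rw [h, map_zero]))
  have hcoeff : m₁.coeff m.natDegree = bm := by
    apply IsFractionRing.injective B K
    have h2 : (m₁.map (algebraMap B K)).coeff m.natDegree = algebraMap B K bm := by
      rw [hm₁', coeff_C_mul]
      have : m.coeff m.natDegree = 1 := (minpoly.monic hint).coeff_natDegree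
      rw [this, mul_one]
    rwa [coeff_map] at h2
  have hgdeg : 0 < g.natDegree := by
    have h3 : g.coeff m.natDegree ≠ 0 := by
      rw [hg, coeff_map, hcoeff]; exact hbmr
    exact lt_of_lt_of_le (minpoly.natDegree_pos hint) (le_natDegree_of_ne_zero h3)
  have hinf := exists_root_mod_infinite hgdeg
  have hfin : {p : ℕ | (p : ℤ) ∣ MvPolynomial.eval r D}.Finite := by
    apply Set.Finite.subset (Set.finite_Icc 0 (MvPolynomial.eval r D).natAbs)
    intro p hp
    refine ⟨Nat.zero_le _, ?_⟩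
    exact Nat.le_of_dvd (Int.natAbs_pos.2 hr) (Int.natCast_dvd.1 hp)
  have hfin' : {p : ℕ | (p : ℤ) ∣ MvPolynomial.eval r D'}.Finite := by
    apply Set.Finite.subset (Set.finite_Icc 0 (MvPolynomial.eval r D').natAbs)
    intro p hp
    refine ⟨Nat.zero_le _, ?_⟩
    exact Nat.le_of_dvd (Int.natAbs_pos.2 hr') (Int.natCast_dvd.1 hp)
  refine ((hinf.diff hfin).diff hfin').mono ?_
  rintro p ⟨⟨⟨hp, n, hn⟩, hpD⟩, hpD'⟩
  haveI : Fact p.Prime := ⟨hp⟩
  refine ⟨⟨hp⟩, ?_⟩
  obtain ⟨τ, hind, hclose⟩ := exists_algInd (p := p) (κ := κ) (fun j => (r j : ℤ_[p]))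
  obtain ⟨b, hb⟩ := hensel_step r τ hclose m₁ (C bv * u₁) (C bu * v₁) D hrel hpD n hn
  -- the embedding of `K`
  set ετ : B →+* ℤ_[p] := MvPolynomial.eval₂Hom (Int.castRingHom ℤ_[p]) τ with hετ
  set ε' : B →+* ℚ_[p] := (PadicInt.Coe.ringHom).comp ετ with hε'
  have hε'inj : Function.Injective ε' := by
    have h4 : AlgebraicIndependent ℤ (fun j => ((τ j : ℤ_[p]) : ℚ_[p])) :=
      hind.restrictScalars (RingHom.injective_int (algebraMap ℤ ℚ))
    have h5 : (ε' : B →+* ℚ_[p]) = (MvPolynomial.aeval (fun j => ((τ j : ℤ_[p]) : ℚ_[p])) :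
        MvPolynomial κ ℤ →ₐ[ℤ] ℚ_[p]).toRingHom := by
      apply MvPolynomial.ringHom_ext
      · intro a; simp [ε', ετ]
      · intro j; simp [ε', ετ]
    rw [h5]
    exact h4
  set φ : K →+* ℚ_[p] := IsFractionRing.lift hε'inj with hφ
  have hφB : ∀ x : B, φ (algebraMap B K x) = ε' x := fun x => IsFractionRing.lift_algebraMap hε'inj x
  have hroot : m.eval₂ φ (b : ℚ_[p]) = 0 := by
    have h6 : (m₁.map (algebraMap B K)).eval₂ φ (b : ℚ_[p]) = 0 := by
      rw [Polynomial.eval₂_map]
      have h7 : φ.comp (algebraMap B K) = (PadicInt.Coe.ringHom).comp ετ := RingHom.ext hφB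
      rw [h7]
      have h8 := Polynomial.hom_eval₂ m₁ ετ (PadicInt.Coe.ringHom (p := p)) b
      rw [Polynomial.eval_map] at hb
      rw [hb, map_zero] at h8
      exact h8.symm
    rw [hm₁', Polynomial.eval₂_mul, Polynomial.eval₂_C, hφB] at h6
    rcases mul_eq_zero.1 h6 with h9 | h9
    · exfalso
      exact (nonZeroDivisors.ne_zero hbm) (hε'inj (by rw [h9, map_zero]))
    · exact h9
  let f1 : AdjoinRoot m →+* ℚ_[p] := AdjoinRoot.lift φ (b : ℚ_[p]) hroot
  let f2 : AdjoinRoot m ≃ₐ[K] IntermediateField.adjoin K {θ} :=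
    IntermediateField.adjoinRootEquivAdjoin K hint
  let f3 : IntermediateField.adjoin K {θ} ≃ₐ[K] (⊤ : IntermediateField K E) :=
    IntermediateField.equivOfEq hθ
  let f4 : (⊤ : IntermediateField K E) ≃ₐ[K] E := IntermediateField.topEquiv
  have hval : ∀ x : B, (f1.comp (((f2.trans f3).trans f4).symm : E →+* AdjoinRoot m))
      (algebraMap K E (algebraMap B K x)) = ((ετ x : ℤ_[p]) : ℚ_[p]) := by
    intro x
    have h1 : (((f2.trans f3).trans f4).symm : E →+* AdjoinRoot m)
        (algebraMap K E (algebraMap B K x)) = AdjoinRoot.of m (algebraMap B K x) :=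
      ((f2.trans f3).trans f4).symm.commutes (algebraMap B K x)
    rw [RingHom.comp_apply, h1]
    change AdjoinRoot.lift φ (b : ℚ_[p]) hroot (AdjoinRoot.of m (algebraMap B K x)) = _
    rw [AdjoinRoot.lift_of, hφB]
    rfl
  refine ⟨f1.comp (((f2.trans f3).trans f4).symm : E →+* AdjoinRoot m), ?_, ?_⟩
  · intro x
    rw [hval x]
    exact PadicInt.norm_le_one _
  · rw [hval D']
    have hcomp : (PadicInt.toZMod : ℤ_[p] →+* ZMod p).comp ετ
        = (Int.castRingHom (ZMod p)).comp (MvPolynomial.eval r) := by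
      apply MvPolynomial.ringHom_ext
      · intro a; simp [ετ]
      · intro j
        simp only [RingHom.comp_apply, ετ, MvPolynomial.eval₂Hom_X', MvPolynomial.eval_X]
        have h1 : τ j - (r j : ℤ_[p]) ∈ RingHom.ker (PadicInt.toZMod : ℤ_[p] →+* ZMod p) := by
          rw [PadicInt.ker_toZMod]
          exact PadicInt.mem_nonunits.2 (hclose j)
        rw [RingHom.mem_ker, map_sub, sub_eq_zero] at h1
        rw [h1]; simp
    have h4 : PadicInt.toZMod (ετ D') = ((MvPolynomial.eval r D' : ℤ) : ZMod p) :=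
      congrArg (fun f : MvPolynomial κ ℤ →+* ZMod p => f D') hcomp
    have h5 : ¬ ‖ετ D'‖ < 1 := by
      intro h6
      have h7 : PadicInt.toZMod (ετ D') = 0 := by
        rw [← RingHom.mem_ker, PadicInt.ker_toZMod]
        exact PadicInt.mem_nonunits.2 h6
      rw [h4] at h7
      exact hpD' ((ZMod.intCast_zmod_eq_zero_iff_dvd _ _).1 h7)
    exact le_antisymm (PadicInt.norm_le_one _) (not_lt.1 h5)

/-- a root of a polynomial with integral coefficients, whose leading and constant coefficients are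
units, is a unit -/
private theorem norm_root {p : ℕ} [Fact p.Prime] {B : Type} [CommRing B] (q : B[X])
    (f : B →+* ℚ_[p]) (h1 : ∀ b, ‖f b‖ ≤ 1) (hl : ‖f q.leadingCoeff‖ = 1)
    (h0 : ‖f (q.coeff 0)‖ = 1) (y : ℚ_[p]) (hy : q.eval₂ f y = 0) : ‖y‖ = 1 := by
  rw [Polynomial.eval₂_eq_sum_range] at hy
  set n := q.natDegree with hn
  rcases lt_trichotomy ‖y‖ 1 with h | h | h
  · exfalso
    rw [Finset.sum_range_succ', pow_zero, mul_one] at hy
    have h2 : f (q.coeff 0) = -∑ k ∈ Finset.range n, f (q.coeff (k + 1)) * y ^ (k + 1) := by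
      linear_combination hy
    have h3 : ‖∑ k ∈ Finset.range n, f (q.coeff (k + 1)) * y ^ (k + 1)‖ ≤ ‖y‖ := by
      refine IsUltrametricDist.norm_sum_le_of_forall_le_of_nonneg (norm_nonneg _) fun k _ => ?_
      rw [norm_mul, norm_pow, pow_succ]
      have h4 : ‖y‖ ^ k ≤ 1 := pow_le_one₀ (norm_nonneg _) h.le
      have h5 := h1 (q.coeff (k + 1))
      calc ‖f (q.coeff (k + 1))‖ * (‖y‖ ^ k * ‖y‖) ≤ 1 * (1 * ‖y‖) := by gcongr
        _ = ‖y‖ := by ring
    rw [h2, norm_neg] at h0
    linarith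
  · exact h
  · exfalso
    rcases Nat.eq_zero_or_pos n with hn0 | hn0
    · rw [hn0] at hy
      simp only [zero_add, Finset.range_one, Finset.sum_singleton, pow_zero, mul_one] at hy
      rw [hy, norm_zero] at h0
      exact zero_ne_one h0
    · rw [Finset.sum_range_succ] at hy
      have h2 : f (q.coeff n) * y ^ n = -∑ k ∈ Finset.range n, f (q.coeff k) * y ^ k := by
        linear_combination hy
      have h3 : ‖∑ k ∈ Finset.range n, f (q.coeff k) * y ^ k‖ ≤ ‖y‖ ^ (n - 1) := by
        refine IsUltrametricDist.norm_sum_le_of_forall_le_of_nonneg (by positivity) fun k hk => ?_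
        rw [norm_mul, norm_pow]
        have h4 : ‖y‖ ^ k ≤ ‖y‖ ^ (n - 1) :=
          pow_le_pow_right₀ h.le (by have := Finset.mem_range.1 hk; omega)
        have h5 := h1 (q.coeff k)
        calc ‖f (q.coeff k)‖ * ‖y‖ ^ k ≤ 1 * ‖y‖ ^ (n - 1) := by gcongr
          _ = ‖y‖ ^ (n - 1) := one_mul _
      have h6 : ‖f (q.coeff n) * y ^ n‖ = ‖y‖ ^ n := by
        rw [norm_mul, norm_pow]
        have : ‖f (q.coeff n)‖ = 1 := hl
        rw [this, one_mul]
      rw [← norm_neg, ← h2, h6] at h3
      have h7 : ‖y‖ ^ (n - 1) < ‖y‖ ^ n := pow_lt_pow_right₀ h (by omega)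
      linarith

theorem embed_units (s : Finset ℂ) (T : Finset (IntermediateField.adjoin ℚ (s : Set ℂ)))
    (hT : ∀ x ∈ T, x ≠ 0) : ∃ (p : ℕ) (_ : Fact p.Prime)
      (φ : (IntermediateField.adjoin ℚ (s : Set ℂ)) →+* ℚ_[p]), ∀ x ∈ T, ‖φ x‖ = 1 := by
  classical
  revert T
  set E := IntermediateField.adjoin ℚ (s : Set ℂ) with hE
  intro T hT
  haveI : Algebra.EssFiniteType ℚ E :=
    IntermediateField.essFiniteType_iff.2 ⟨s, rfl⟩
  obtain ⟨t, ht⟩ : ∃ t : Finset E, IsTranscendenceBasis ℚ ((↑) : t → E) := by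
    obtain ⟨t0, ht0⟩ := IntermediateField.fg_top ℚ E
    haveI : Algebra.IsAlgebraic (Algebra.adjoin ℚ (t0 : Set E)) E := by
      rw [← IntermediateField.isAlgebraic_adjoin_iff_top, ht0, Algebra.isAlgebraic_iff_isIntegral]
      refine Algebra.isIntegral_of_surjective IntermediateField.topEquiv.surjective
    have ⟨t, hts, ht⟩ := exists_isTranscendenceBasis_subset (R := ℚ) (t0 : Set E)
    lift t to Finset E using t0.finite_toSet.subset hts
    exact ⟨t, ht⟩
  let κ : Type := (t : Set E)
  let x : κ → E := fun i => i.1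
  haveI : Finite κ := t.finite_toSet
  have hx : IsTranscendenceBasis ℚ x := ht
  have hxZ : AlgebraicIndependent ℤ x :=
    hx.1.restrictScalars (RingHom.injective_int (algebraMap ℤ ℚ))
  let ι : MvPolynomial κ ℤ →+* E := (MvPolynomial.aeval x : MvPolynomial κ ℤ →ₐ[ℤ] E).toRingHom
  have hι : Function.Injective ι := hxZ
  let ψ : FractionRing (MvPolynomial κ ℤ) →+* E := IsFractionRing.lift hι
  letI : Algebra (FractionRing (MvPolynomial κ ℤ)) E := ψ.toAlgebra
  haveI hchar : CharZero (FractionRing (MvPolynomial κ ℤ)) := ψ.charZero_iff ψ.injective |>.2 inferInstance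
  letI : Algebra ℚ (FractionRing (MvPolynomial κ ℤ)) := DivisionRing.toRatAlgebra
  haveI : IsScalarTower ℚ (FractionRing (MvPolynomial κ ℤ)) E :=
    IsScalarTower.of_algebraMap_eq' (Subsingleton.elim _ _)
  haveI : Algebra.IsAlgebraic (FractionRing (MvPolynomial κ ℤ)) E := by
    refine (hx.isAlgebraic_iff (S := FractionRing (MvPolynomial κ ℤ))).2 (fun i => ?_)
    have h1 : x i = algebraMap (FractionRing (MvPolynomial κ ℤ)) E
        (algebraMap (MvPolynomial κ ℤ) _ (MvPolynomial.X i)) := by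
      change x i = ψ _
      rw [IsFractionRing.lift_algebraMap hι]
      simp [ι]
    rw [h1]
    exact isAlgebraic_algebraMap _
  haveI : Algebra.EssFiniteType (FractionRing (MvPolynomial κ ℤ)) E :=
    Algebra.EssFiniteType.of_comp ℚ _ _
  haveI : FiniteDimensional (FractionRing (MvPolynomial κ ℤ)) E :=
    Algebra.finite_of_essFiniteType_of_isAlgebraic
  -- the polynomials
  have hinjB : Function.Injective (algebraMap (MvPolynomial κ ℤ)
      (FractionRing (MvPolynomial κ ℤ))) := IsFractionRing.injective _ _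
  have hpoly : ∀ y : E, y ≠ 0 → ∃ q : (MvPolynomial κ ℤ)[X], q ≠ 0 ∧ q.coeff 0 ≠ 0 ∧
      q.eval₂ ((algebraMap (FractionRing (MvPolynomial κ ℤ)) E).comp
        (algebraMap (MvPolynomial κ ℤ) (FractionRing (MvPolynomial κ ℤ)))) y = 0 := by
    intro y hy
    have hint : IsIntegral (FractionRing (MvPolynomial κ ℤ)) y := Algebra.IsIntegral.isIntegral y
    set m := minpoly (FractionRing (MvPolynomial κ ℤ)) y with hm
    obtain ⟨bm, hbm, hbm1⟩ :=
      IsLocalization.integerNormalization_spec (nonZeroDivisors (MvPolynomial κ ℤ)) m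
    set m₁ := IsLocalization.integerNormalization (nonZeroDivisors (MvPolynomial κ ℤ)) m with hm₁
    have hbm0 : algebraMap (MvPolynomial κ ℤ) (FractionRing (MvPolynomial κ ℤ)) bm ≠ 0 :=
      fun h => (nonZeroDivisors.ne_zero hbm) (hinjB (by rw [h, map_zero]))
    have hm₁' : m₁.map (algebraMap (MvPolynomial κ ℤ) (FractionRing (MvPolynomial κ ℤ))) =
        C (algebraMap (MvPolynomial κ ℤ) (FractionRing (MvPolynomial κ ℤ)) bm) * m := by
      rw [hbm1, Algebra.smul_def]; rfl
    have hc0 : m₁.coeff 0 ≠ 0 := by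
      intro h0
      have h1 := congrArg (fun P => P.coeff 0) hm₁'
      simp only [coeff_map, coeff_C_mul, h0, map_zero] at h1
      rcases mul_eq_zero.1 h1.symm with h2 | h2
      · exact hbm0 h2
      · exact minpoly.coeff_zero_ne_zero hint hy h2
    refine ⟨m₁, fun h => hc0 (by rw [h, coeff_zero]), hc0, ?_⟩
    rw [← Polynomial.eval₂_map, hm₁', Polynomial.eval₂_mul]
    have h3 : m.eval₂ (algebraMap (FractionRing (MvPolynomial κ ℤ)) E) y = 0 := minpoly.aeval _ y
    rw [h3, mul_zero]
  choose! Q hQ0 hQc hQr using hpoly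
  set D' : MvPolynomial κ ℤ := ∏ y ∈ T, ((Q y).leadingCoeff * (Q y).coeff 0) with hD'
  have hD'0 : D' ≠ 0 := Finset.prod_ne_zero_iff.2 fun y hy =>
    mul_ne_zero (leadingCoeff_ne_zero.2 (hQ0 y (hT y hy))) (hQc y (hT y hy))
  obtain ⟨p, hp, φ, hφ1, hφ2⟩ := (embed_core2 (κ := κ) (E := E) D' hD'0).nonempty
  refine ⟨p, hp, φ, fun y hy => ?_⟩
  set f : MvPolynomial κ ℤ →+* ℚ_[p] := φ.comp ((algebraMap (FractionRing (MvPolynomial κ ℤ)) E).comp
        (algebraMap (MvPolynomial κ ℤ) (FractionRing (MvPolynomial κ ℤ)))) with hf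
  have hf1 : ∀ b, ‖f b‖ ≤ 1 := hφ1
  have hf2 : ‖f D'‖ = 1 := hφ2
  have hdvd : ∀ b : MvPolynomial κ ℤ, b ∣ D' → ‖f b‖ = 1 := by
    rintro b ⟨c, hc⟩
    rw [hc, map_mul, norm_mul] at hf2
    have h1 := hf1 b
    have h2 := hf1 c
    have h3 : 0 ≤ ‖f b‖ := norm_nonneg _
    have h4 : 0 ≤ ‖f c‖ := norm_nonneg _
    nlinarith
  have hmem : (Q y).leadingCoeff * (Q y).coeff 0 ∣ D' := Finset.dvd_prod_of_mem _ hy
  refine norm_root (Q y) f hf1 (hdvd _ ((dvd_mul_right _ _).trans hmem))
    (hdvd _ ((dvd_mul_left _ _).trans hmem)) (φ y) ?_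
  rw [hf, ← Polynomial.hom_eval₂, hQr y (hT y hy), map_zero]

end Pool.Agent.Helper59.DX
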