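import Pool.Agent.Helper59.DX.Defs

/-!
# DX-GENERIC: algebraic points which are generic for polynomials of bounded degree

PROOF (Kronecker substitution). Put `e = E + 1`, `n = e^r` (and `n ≥ 1`), `θ ∈ ℂ` a root of `X^n - 2`
(irreducible over `ℚ`: Mathlib `X_pow_sub_C_irreducible...` or Eisenstein `Polynomial.irreducible_of_eisenstein_criterion` at `2` + Gauss;
over `ℂ` take any root, `IsAlgClosed.exists_root`), `τ i = θ^(e^i)`. `minpoly ℚ θ = X^n - 2` has degree `n`.
For `c ≠ 0` with `totalDegree ≤ E`: `aeval τ c = aeval θ P` with `P = ∑_m (coeff m c) X^{∑ m_i e^i} ∈ ℚ[X]`; the exponents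
`∑ m_i e^i` (`m_i ≤ E < e`) are pairwise distinct and `< e^r = n` (base `e` expansion: `Nat.ofDigits` injectivity
`Nat.ofDigits_inj_of_len_eq` as in Mathlib/RingTheory/NoetherNormalization.lean, or induction on `r`), so `P ≠ 0` has degree `< n`
and `aeval θ P ≠ 0` (`minpoly.degree_le_of_ne_zero`).
-/

set_option autoImplicit false

namespace Pool.Agent.Helper59.DX

open Polynomial in
private theorem sum_lt (e : ℕ) (_ : 0 < e) : ∀ (r : ℕ) (v : Fin r → ℕ), (∀ i, v i < e) →
    ∑ i, v i * e ^ (i : ℕ) < e ^ r := by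
  intro r
  induction r with
  | zero => intro v _; simp
  | succ r ih =>
    intro v hv
    rw [Fin.sum_univ_castSucc, pow_succ]
    have h1 := ih (fun i => v i.castSucc) (fun i => hv _)
    have h2 := hv (Fin.last r)
    simp only [Fin.val_castSucc, Fin.val_last]
    have h3 : v (Fin.last r) * e ^ r + e ^ r ≤ e ^ r * e := by
      have h4 : v (Fin.last r) + 1 ≤ e := h2
      nlinarith [Nat.mul_le_mul_right (e ^ r) h4]
    omega

private theorem sum_inj (e : ℕ) (he : 0 < e) : ∀ (r : ℕ) (v w : Fin r → ℕ), (∀ i, v i < e) →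
    (∀ i, w i < e) → ∑ i, v i * e ^ (i : ℕ) = ∑ i, w i * e ^ (i : ℕ) → v = w := by
  intro r
  induction r with
  | zero => intro v w _ _ _; exact Subsingleton.elim _ _
  | succ r ih =>
    intro v w hv hw h
    rw [Fin.sum_univ_succ, Fin.sum_univ_succ] at h
    have key : ∀ u : Fin (r + 1) → ℕ, ∑ i : Fin r, u i.succ * e ^ ((i.succ : Fin (r + 1)) : ℕ) =
        e * ∑ i : Fin r, u i.succ * e ^ (i : ℕ) := by
      intro u
      rw [Finset.mul_sum]
      apply Finset.sum_congr rfl
      intro i _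
      rw [Fin.val_succ, pow_succ]
      ring
    rw [key v, key w] at h
    simp only [Fin.val_zero, pow_zero, mul_one] at h
    have h0 : v 0 = w 0 := by
      have h1 := congrArg (fun x => x % e) h
      simp only [Nat.add_mul_mod_self_left] at h1
      rwa [Nat.mod_eq_of_lt (hv 0), Nat.mod_eq_of_lt (hw 0)] at h1
    rw [h0] at h
    have h2 : ∑ i : Fin r, v i.succ * e ^ (i : ℕ) = ∑ i : Fin r, w i.succ * e ^ (i : ℕ) :=
      Nat.eq_of_mul_eq_mul_left he (Nat.add_left_cancel h)
    have h3 := ih (fun i => v i.succ) (fun i => w i.succ) (fun i => hv _) (fun i => hw _) h2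
    funext i
    refine Fin.cases h0 (fun j => ?_) i
    exact congrFun h3 j

private theorem exists_theta (n : ℕ) : ∃ θ : ℂ, IsAlgebraic ℚ θ ∧
    ∀ P : Polynomial ℚ, P ≠ 0 → P.natDegree < n → Polynomial.aeval θ P ≠ 0 := by
  obtain ⟨p, hp, hprime⟩ := Nat.exists_infinite_primes (n + 1)
  have hμ : IsPrimitiveRoot (Complex.exp (2 * Real.pi * Complex.I / p)) p :=
    Complex.isPrimitiveRoot_exp p hprime.ne_zero
  set θ := Complex.exp (2 * Real.pi * Complex.I / p) with hθ
  have hint : IsIntegral ℚ θ := by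
    refine ⟨Polynomial.X ^ p - Polynomial.C 1, Polynomial.monic_X_pow_sub_C _ hprime.ne_zero, ?_⟩
    have h1 := hμ.pow_eq_one
    simp [h1]
  refine ⟨θ, hint.isAlgebraic, ?_⟩
  intro P hP hdeg hz
  have h1 := minpoly.degree_le_of_ne_zero ℚ θ hP hz
  have h2 : (minpoly ℚ θ).natDegree = p - 1 := by
    rw [← Polynomial.cyclotomic_eq_minpoly_rat hμ hprime.pos, Polynomial.natDegree_cyclotomic,
      Nat.totient_prime hprime]
  have h3 := Polynomial.natDegree_le_natDegree h1
  omega

theorem exists_generic_point (r E : ℕ) : ∃ τ : Fin r → ℂ, (∀ i, IsAlgebraic ℚ (τ i)) ∧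
    ∀ c : MvPolynomial (Fin r) ℚ, c ≠ 0 → c.totalDegree ≤ E → MvPolynomial.aeval τ c ≠ 0 := by
  classical
  set e := E + 1 with he
  have he0 : 0 < e := Nat.succ_pos _
  obtain ⟨θ, hθ, H⟩ := exists_theta (e ^ r)
  refine ⟨fun i => θ ^ (e ^ (i : ℕ)), fun i => hθ.pow _, ?_⟩
  intro c hc hdeg
  let wt : (Fin r →₀ ℕ) → ℕ := fun m => ∑ i, m i * e ^ (i : ℕ)
  have hlt : ∀ m ∈ c.support, ∀ i, m i < e := by
    intro m hm i
    have h1 := MvPolynomial.le_totalDegree hm
    have h2 : m i ≤ m.sum fun _ k => k := by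
      rw [Finsupp.sum_fintype _ _ (fun _ => rfl)]
      exact Finset.single_le_sum (f := fun j => m j) (fun _ _ => Nat.zero_le _) (Finset.mem_univ i)
    omega
  let P : Polynomial ℚ := ∑ m ∈ c.support, Polynomial.monomial (wt m) (MvPolynomial.coeff m c)
  have hcoeff : ∀ m ∈ c.support, P.coeff (wt m) = MvPolynomial.coeff m c := by
    intro m hm
    simp only [P, Polynomial.finsetSum_coeff, Polynomial.coeff_monomial]
    rw [Finset.sum_eq_single m]
    · rw [if_pos rfl]
    · intro m' hm' hne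
      rw [if_neg]
      intro h
      apply hne
      have h1 := sum_inj e he0 r m' m (hlt m' hm') (hlt m hm) h
      exact DFunLike.coe_injective h1
    · intro h
      exact absurd hm h
  have hP : P ≠ 0 := by
    obtain ⟨m, hm⟩ := MvPolynomial.ne_zero_iff.1 hc
    have hm' : m ∈ c.support := MvPolynomial.mem_support_iff.2 hm
    intro h
    have h1 := hcoeff m hm'
    rw [h, Polynomial.coeff_zero] at h1
    exact hm h1.symm
  have hPdeg : P.natDegree < e ^ r := by
    rw [Nat.lt_iff_add_one_le, ← Nat.succ_eq_add_one, Nat.succ_le_iff]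
    have hpos : 0 < e ^ r := pow_pos he0 r
    refine lt_of_le_of_lt (Polynomial.natDegree_sum_le_of_forall_le (n := e ^ r - 1) _ _ ?_)
      (by omega)
    intro m hm
    refine le_trans (Polynomial.natDegree_monomial_le _) ?_
    have := sum_lt e he0 r m (hlt m hm)
    change ∑ i, m i * e ^ (i : ℕ) ≤ _
    omega
  have hev : MvPolynomial.aeval (fun i : Fin r => θ ^ (e ^ (i : ℕ))) c = Polynomial.aeval θ P := by
    rw [MvPolynomial.aeval_def, MvPolynomial.eval₂_eq']
    simp only [P, map_sum, Polynomial.aeval_monomial]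
    apply Finset.sum_congr rfl
    intro m _
    congr 1
    change ∏ i : Fin r, (θ ^ (e ^ (i : ℕ))) ^ m i = θ ^ (∑ i : Fin r, m i * e ^ (i : ℕ))
    rw [← Finset.prod_pow_eq_pow_sum]
    apply Finset.prod_congr rfl
    intro i _
    rw [← pow_mul, mul_comm]
  rw [hev]
  exact H P hP hPdeg

end Pool.Agent.Helper59.DX
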