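import Pool.Agent.Helper59.DX.Defs

/-!
# DX-GROWTH: polynomials of polynomial growth on the integral points

(a) `c : MvPolynomial (Fin r) ℚ` with `|c(v)| ≤ C (sz v)^E` for all `v : Fin r → ℤ` has total degree `≤ E`.

(b) finiteness over `ℤ`.
-/

set_option autoImplicit false

namespace Pool.Agent.Helper59.DX

open Filter

theorem exists_int_eval_ne_zero {r : ℕ} (h : MvPolynomial (Fin r) ℚ) (h0 : h ≠ 0) :
    ∃ w : Fin r → ℤ, MvPolynomial.eval (fun i => (w i : ℚ)) h ≠ 0 := by
  by_contra hc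
  push Not at hc
  apply h0
  apply MvPolynomial.funext_set (s := fun _ => Set.range (Int.cast : ℤ → ℚ))
  · intro i
    exact Set.infinite_range_of_injective Int.cast_injective
  · intro x hx
    have : ∀ i, ∃ z : ℤ, (z : ℚ) = x i := fun i => hx i (Set.mem_univ i)
    choose w hw using this
    have hxw : x = fun i => (w i : ℚ) := funext fun i => (hw i).symm
    rw [hxw, hc w, map_zero]

theorem eval_mul_of_isHomogeneous {r : ℕ} {p : MvPolynomial (Fin r) ℚ} {j : ℕ} (hp : p.IsHomogeneous j)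
    (w : Fin r → ℚ) (n : ℚ) :
    MvPolynomial.eval (fun i => n * w i) p = MvPolynomial.eval w p * n ^ j := by
  rw [MvPolynomial.eval_eq', MvPolynomial.eval_eq', Finset.sum_mul]
  refine Finset.sum_congr rfl fun d hd => ?_
  have hdeg : ∑ i, d i = j := by
    have := hp (MvPolynomial.mem_support_iff.1 hd)
    rw [← this]
    simp [Finsupp.weight_apply, Finsupp.sum_fintype]
  simp only [mul_pow, Finset.prod_mul_distrib, Finset.prod_pow_eq_pow_sum, hdeg]
  ring

theorem ev_eq_eval {r : ℕ} (c : MvPolynomial (Fin r) ℚ) (v : Fin r → ℤ) :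
    ev ℚ v c = ((MvPolynomial.eval (fun i => (v i : ℚ)) c : ℚ) : ℂ) := by
  have : (ev ℚ v) = (Rat.castHom ℂ).comp (MvPolynomial.eval (fun i => (v i : ℚ))) := by
    apply MvPolynomial.ringHom_ext
    · intro a
      simp [ev]
    · intro i
      simp [ev]
  rw [this]
  rfl

theorem ev_int_eq_eval {r : ℕ} (c : MvPolynomial (Fin r) ℤ) (v : Fin r → ℤ) :
    ev ℤ v c = ((MvPolynomial.eval v c : ℤ) : ℂ) := by
  have : (ev ℤ v) = (Int.castRingHom ℂ).comp (MvPolynomial.eval v) := by
    apply MvPolynomial.ringHom_ext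
    · intro a
      simp [ev]
    · intro i
      simp [ev]
  rw [this]
  rfl

theorem ev_int_eq_ev_rat {r : ℕ} (c : MvPolynomial (Fin r) ℤ) (v : Fin r → ℤ) :
    ev ℤ v c = ev ℚ v (MvPolynomial.map (Int.castRingHom ℚ) c) := by
  have : (ev ℤ v) = (ev ℚ v).comp (MvPolynomial.map (Int.castRingHom ℚ)) := by
    apply MvPolynomial.ringHom_ext
    · intro a
      simp [ev]
    · intro i
      simp [ev]
  rw [this]
  rfl

theorem totalDegree_le_of_growth {r : ℕ} (c : MvPolynomial (Fin r) ℚ) (C : ℝ) (E : ℕ)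
    (h : ∀ v : Fin r → ℤ, ‖ev ℚ v c‖ ≤ C * sz v ^ E) : c.totalDegree ≤ E := by
  by_contra hDE
  push Not at hDE
  set D := c.totalDegree with hD
  have hc0 : c ≠ 0 := by
    rintro rfl
    simp at hD
    omega
  have hh : MvPolynomial.homogeneousComponent D c ≠ 0 := by
    obtain ⟨d, hd, hdD⟩ : ∃ d ∈ c.support, (d.sum fun _ e => e) = c.totalDegree := by
      have hne : c.support.Nonempty := MvPolynomial.support_nonempty.2 hc0
      obtain ⟨d, hd, he⟩ := Finset.exists_mem_eq_sup c.support hne (fun s => s.sum fun _ e => e)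
      exact ⟨d, hd, he.symm⟩
    intro h0
    have h1 := congrArg (MvPolynomial.coeff d) h0
    rw [MvPolynomial.coeff_homogeneousComponent] at h1
    rw [if_pos] at h1
    · exact MvPolynomial.mem_support_iff.1 hd (by simpa using h1)
    · rw [hD, ← hdD]
      rfl
  obtain ⟨w, hw⟩ := exists_int_eval_ne_zero _ hh
  set a : ℕ → ℝ := fun j => ((MvPolynomial.eval (fun i => (w i : ℚ))
    (MvPolynomial.homogeneousComponent j c) : ℚ) : ℝ) with ha
  let P : Polynomial ℝ := ∑ j ∈ Finset.range (D + 1), Polynomial.C (a j) * Polynomial.X ^ j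
  have hPcoeff : P.coeff D = a D := by
    simp only [P, Polynomial.finsetSum_coeff, Polynomial.coeff_C_mul_X_pow]
    rw [Finset.sum_eq_single D]
    · simp
    · intro b _ hb
      rw [if_neg (Ne.symm hb)]
    · intro hD'
      simp at hD'
  have haD : a D ≠ 0 := by
    simp only [ha]
    exact_mod_cast hw
  have hPeval : ∀ n : ℕ, |P.eval (n : ℝ)| = ‖ev ℚ (fun i => (n : ℤ) * w i) c‖ := by
    intro n
    rw [ev_eq_eval, Complex.norm_ratCast]
    congr 1
    have h1 : MvPolynomial.eval (fun i => (((n : ℤ) * w i : ℤ) : ℚ)) c =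
        ∑ j ∈ Finset.range (D + 1), MvPolynomial.eval (fun i => (w i : ℚ))
          (MvPolynomial.homogeneousComponent j c) * (n : ℚ) ^ j := by
      conv_lhs => rw [← MvPolynomial.sum_homogeneousComponent c]
      rw [map_sum]
      refine Finset.sum_congr rfl fun j _ => ?_
      rw [← eval_mul_of_isHomogeneous (MvPolynomial.homogeneousComponent_isHomogeneous j c)]
      congr 2
      ext i
      push_cast
      rfl
    rw [h1]
    simp only [P, ha, Polynomial.eval_finsetSum, Polynomial.eval_mul, Polynomial.eval_C,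
      Polynomial.eval_pow, Polynomial.eval_X]
    push_cast
    rfl
  let Q : Polynomial ℝ := (Polynomial.X + 1) ^ E
  have hQdeg : Q.degree = E := by
    simp only [Q, Polynomial.degree_pow]
    have : (Polynomial.X + 1 : Polynomial ℝ).degree = 1 := by
      have := Polynomial.degree_X_add_C (1 : ℝ)
      simpa using this
    rw [this]
    simp
  have hQ0 : Q ≠ 0 := by
    intro h0
    rw [h0] at hQdeg
    simp at hQdeg
  have hPdeg : (D : WithBot ℕ) ≤ P.degree := by
    apply Polynomial.le_degree_of_ne_zero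
    rw [hPcoeff]
    exact haD
  have hlim := Polynomial.abs_div_tendsto_atTop_atTop_of_degree_gt P Q (by
    rw [hQdeg]
    exact lt_of_lt_of_le (by exact_mod_cast hDE) hPdeg) hQ0
  have hlim2 := hlim.comp (tendsto_natCast_atTop_atTop (R := ℝ))
  have hCnn : 0 ≤ C := by
    have := h 0
    have h2 : 0 < sz (0 : Fin r → ℤ) ^ E := pow_pos (lt_of_lt_of_le one_pos (one_le_sz _)) _
    by_contra hneg
    push Not at hneg
    have h3 : C * sz (0 : Fin r → ℤ) ^ E < 0 := mul_neg_of_neg_of_pos hneg h2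
    linarith [norm_nonneg (ev ℚ 0 c)]
  have hbd : ∀ n : ℕ, |P.eval (n : ℝ) / Q.eval (n : ℝ)| ≤ C * sz w ^ E := by
    intro n
    have hQn : Q.eval (n : ℝ) = ((n : ℝ) + 1) ^ E := by simp [Q]
    have hQpos : 0 < Q.eval (n : ℝ) := by
      rw [hQn]
      positivity
    rw [abs_div, abs_of_pos hQpos, div_le_iff₀ hQpos, hPeval, hQn]
    refine (h _).trans ?_
    rw [mul_assoc, ← mul_pow]
    apply mul_le_mul_of_nonneg_left _ hCnn
    apply pow_le_pow_left₀ (zero_le_one.trans (one_le_sz _))
    unfold sz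
    have hs : 0 ≤ ∑ i, |(w i : ℝ)| := Finset.sum_nonneg fun i _ => abs_nonneg _
    have : ∑ i, |(((n : ℤ) * w i : ℤ) : ℝ)| = (n : ℝ) * ∑ i, |(w i : ℝ)| := by
      rw [Finset.mul_sum]
      refine Finset.sum_congr rfl fun i _ => ?_
      push_cast
      rw [abs_mul, Nat.abs_cast]
    rw [this]
    have hn : (0 : ℝ) ≤ n := Nat.cast_nonneg n
    nlinarith [mul_nonneg hn hs]
  have hev := hlim2.eventually (eventually_gt_atTop (C * sz w ^ E))
  obtain ⟨n, hn⟩ := hev.exists
  exact absurd (hbd n) (not_le.2 hn)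

theorem finite_of_growth (r : ℕ) (C : ℝ) (E : ℕ) :
    {c : MvPolynomial (Fin r) ℤ | ∀ v : Fin r → ℤ, ‖ev ℤ v c‖ ≤ C * sz v ^ E}.Finite := by
  classical
  let G : Finset ℤ := (Finset.range (E + 1)).image (fun n : ℕ => (n : ℤ))
  have hGcard : G.card = E + 1 := by
    rw [Finset.card_image_of_injective _ Nat.cast_injective, Finset.card_range]
  let Gr : Finset (Fin r → ℤ) := Fintype.piFinset fun _ => G
  obtain ⟨M, hM⟩ : ∃ M : ℤ, ∀ v ∈ Gr, C * sz v ^ E ≤ M := by
    have : ∃ M : ℝ, ∀ v ∈ Gr, C * sz v ^ E ≤ M := by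
      obtain ⟨M, hM⟩ := (Gr.image fun v => C * sz v ^ E).bddAbove
      exact ⟨M, fun v hv => hM (Finset.mem_coe.2 (Finset.mem_image_of_mem _ hv))⟩
    obtain ⟨M, hM⟩ := this
    exact ⟨⌈M⌉, fun v hv => (hM v hv).trans (Int.le_ceil M)⟩
  let F : MvPolynomial (Fin r) ℤ → (Gr → ℤ) := fun c v => MvPolynomial.eval (v : Fin r → ℤ) c
  refine Set.Finite.of_finite_image (f := F) (Set.Finite.subset (Set.Finite.pi' (t := fun _ : Gr => Set.Icc (-M) M)
    (fun _ => Set.finite_Icc _ _)) ?_) ?_
  · rintro _ ⟨c, hc, rfl⟩ v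
    have h1 := (hc v).trans (hM v v.2)
    rw [ev_int_eq_eval, Complex.norm_intCast] at h1
    have h2 : |MvPolynomial.eval (v : Fin r → ℤ) c| ≤ M := by exact_mod_cast h1
    exact ⟨(abs_le.1 h2).1, (abs_le.1 h2).2⟩
  · intro c hc c' hc' hcc
    have hdeg : ∀ c : MvPolynomial (Fin r) ℤ, (∀ v : Fin r → ℤ, ‖ev ℤ v c‖ ≤ C * sz v ^ E) →
        c.totalDegree ≤ E := by
      intro c hc
      have h1 := totalDegree_le_of_growth (MvPolynomial.map (Int.castRingHom ℚ) c) C E
        (fun v => by rw [← ev_int_eq_ev_rat]; exact hc v)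
      have h2 : (MvPolynomial.map (Int.castRingHom ℚ) c).totalDegree = c.totalDegree := by
        unfold MvPolynomial.totalDegree
        rw [MvPolynomial.support_map_of_injective _ (RingHom.injective_int _)]
      rwa [h2] at h1
    have h0 : c - c' = 0 := by
      apply MvPolynomial.eq_zero_of_eval_zero_at_prod_finset (c - c') (fun _ => G)
      · intro i
        rw [hGcard]
        refine Nat.lt_succ_of_le ?_
        refine (MvPolynomial.degreeOf_le_totalDegree _ _).trans ?_
        refine (MvPolynomial.totalDegree_sub _ _).trans ?_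
        exact max_le (hdeg c hc) (hdeg c' hc')
      · intro x hx
        have hxG : x ∈ Gr := Fintype.mem_piFinset.2 hx
        have := congrFun hcc ⟨x, hxG⟩
        simp only [F] at this
        rw [map_sub, this, sub_self]
    exact sub_eq_zero.1 h0

end Pool.Agent.Helper59.DX
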