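import Pool.Agent.Helper38.DM.Prod
import Pool.Agent.Helper59.DX.DegX

/-!
# DX-HEIGHTSA: heights of values of a polynomial

Use the API of `Pool/Agent/Helper38/DM/Prod.lean` (on main): `tot` (sum over all places), `tot_posLog : tot (log⁺ v(x)) = logHeight₁ x`, `tot_mono`, `tot_add`, `tot_mul`,
`exists_const_bound` (a `Const A` with `v x ≤ exp (A.c v)` for finitely many given `x`, and `exp (-(A.c v)) ≤ v x` if `x ≠ 0`), `AlmostZero`, `IsPlace`, and
Mathlib `NumberTheory/Height/*`. Nonarchimedean places satisfy the ultrametric inequality (`IsNonarchimedean`), at archimedean ones use the triangle inequality and a constant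
`log (number of terms)` (a `Const` which is `log (n+1)` at the archimedean and `0` at the nonarchimedean places: e.g. put `A.c v := if v ∈ nonarchAbsVal then 0 else log (n+1)`; a place
is not both archimedean and nonarchimedean — or simply bound a sum of `n+1` terms by `exp (A.c v) * max` with `A` from `exists_const_bound {(n+1 : K)}`: NOT enough at nonarchimedean places, use the ultrametric inequality there).

(a) `height_eval_le`: for every place `log⁺ v(f(x)) ≤ e log⁺ v(x) + B.c v` with a `Const` `B` independent of `x` (coefficients bounded by `exists_const_bound`).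
(b) `height_eval_ge`: with `d = natDegree f ≥ 1` for every place `d log⁺ v(x) ≤ log⁺ v(f x) + B.c v`: let `M_v = exp(A.c v) ≥ 1` bound all coefficients, the inverse of the leading one (and the number of terms if
   archimedean). If `v x > M_v^3` (say, a suitable power) then the leading term dominates: `v(f x) ≥ c_v (v x)^d`; otherwise `d log⁺ v(x) ≤ 3 d A.c v`. Nonarchimedean and archimedean cases separately; for nonarchimedean
   `v` the leading term dominates as soon as `v x > M_v^2`.
-/

set_option autoImplicit false

namespace Pool.Agent.Helper59.DX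

open Polynomial

private theorem hA_eval_hom {K : Type} [Field K] (f : K[X]) {n : ℕ} (hn : f.natDegree ≤ n) (x : K) :
    MvPolynomial.eval ![x, 1] (f.homogenize n) = f.eval x := by
  have h := Polynomial.eval₂_homogenize_of_eq_one hn (RingHom.id K) (g := ![x, 1]) (by simp)
  simpa [MvPolynomial.eval₂_id, Polynomial.eval₂_id] using h

theorem height_eval_le {K : Type} [Field K] [NumberField K] (f : K[X]) (e : ℕ) (he : f.natDegree ≤ e) :
    ∃ C : ℝ, ∀ x : K, Height.logHeight₁ (f.eval x) ≤ e * Height.logHeight₁ x + C := by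
  have hp : ∀ i, ((![f.homogenize e, MvPolynomial.X 1 ^ e] : Fin 2 → MvPolynomial (Fin 2) K) i).IsHomogeneous e := by
    intro i
    fin_cases i
    · exact Polynomial.isHomogeneous_homogenize f
    · exact MvPolynomial.isHomogeneous_X_pow _ _
  obtain ⟨C, hC⟩ := Height.logHeight_eval_le' hp
  refine ⟨C, fun x => ?_⟩
  have h := hC ![x, 1]
  have h2 : (fun j => MvPolynomial.eval ![x, 1]
      ((![f.homogenize e, MvPolynomial.X 1 ^ e] : Fin 2 → MvPolynomial (Fin 2) K) j)) = ![f.eval x, 1] := by
    funext j
    fin_cases j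
    · simpa using hA_eval_hom f he x
    · simp
  rw [h2, ← Height.logHeight₁_eq_logHeight, ← Height.logHeight₁_eq_logHeight] at h
  linarith

theorem height_eval_ge {K : Type} [Field K] [NumberField K] (f : K[X]) (hf : 1 ≤ f.natDegree) :
    ∃ C : ℝ, ∀ x : K, f.natDegree * Height.logHeight₁ x ≤ Height.logHeight₁ (f.eval x) + C := by
  obtain ⟨d, hd⟩ : ∃ d, d = f.natDegree := ⟨_, rfl⟩
  have hf0 : f ≠ 0 := by
    rintro rfl
    simp at hf
  obtain ⟨u, hu⟩ : ∃ u, u = (X ^ (2 * d - 1) : K[X]) / f := ⟨_, rfl⟩
  obtain ⟨w, hw⟩ : ∃ w, w = (X ^ (2 * d - 1) : K[X]) % f := ⟨_, rfl⟩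
  have huw : f * u + w = X ^ (2 * d - 1) := by
    rw [hu, hw]
    exact EuclideanDomain.div_add_mod _ _
  have hwd : w.natDegree ≤ d - 1 := by
    have h1 := Polynomial.natDegree_mod_lt (X ^ (2 * d - 1) : K[X]) (q := f) (by omega)
    rw [← hw] at h1
    omega
  have hud : u.natDegree ≤ d - 1 := by
    by_contra hlt
    have hu0 : u ≠ 0 := by
      rintro rfl
      simp at hlt
    have h1 : (f * u).natDegree = f.natDegree + u.natDegree := Polynomial.natDegree_mul hf0 hu0
    have h2 : w.natDegree < (f * u).natDegree := by omega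
    have h3 := Polynomial.natDegree_add_eq_left_of_natDegree_lt h2
    rw [huw, Polynomial.natDegree_X_pow] at h3
    omega
  rw [← hd] at hf ⊢
  have hq : ∀ a, ((fun a : Fin 2 × Fin 2 => if a.1 = 0 then (if a.2 = 0 then u.homogenize (d - 1) else
      w.homogenize (d - 1)) else (if a.2 = 0 then 0 else MvPolynomial.X 1 ^ (d - 1)) :
      Fin 2 × Fin 2 → MvPolynomial (Fin 2) K) a).IsHomogeneous (d - 1) := by
    rintro ⟨i, j⟩
    dsimp only
    split_ifs
    · exact Polynomial.isHomogeneous_homogenize u
    · exact Polynomial.isHomogeneous_homogenize w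
    · exact MvPolynomial.isHomogeneous_zero _ _ _
    · exact MvPolynomial.isHomogeneous_X_pow _ _
  obtain ⟨C, hC⟩ := Height.logHeight_eval_ge' (N := d) hq
  refine ⟨-C, fun x => ?_⟩
  have h := hC ![f.homogenize d, MvPolynomial.X 1 ^ d] (x := ![x, 1]) ?_
  · have h2 : (fun j => MvPolynomial.eval ![x, 1]
        ((![f.homogenize d, MvPolynomial.X 1 ^ d] : Fin 2 → MvPolynomial (Fin 2) K) j)) = ![f.eval x, 1] := by
      funext j
      fin_cases j
      · simpa using hA_eval_hom f hd.ge x
      · simp
    rw [h2, ← Height.logHeight₁_eq_logHeight, ← Height.logHeight₁_eq_logHeight] at h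
    linarith
  · intro k
    rw [Fin.sum_univ_two]
    have h3 : d - 1 + d = 2 * d - 1 := by omega
    fin_cases k
    · have h4 := congrArg (Polynomial.eval x) huw
      simp only [Polynomial.eval_add, Polynomial.eval_mul, Polynomial.eval_pow, Polynomial.eval_X] at h4
      simp only [hA_eval_hom u hud, hA_eval_hom w hwd, hA_eval_hom f hd.ge, h3, if_true, Fin.isValue,
        Fin.zero_eta, Matrix.cons_val_zero, Matrix.cons_val_one, one_ne_zero, if_false, map_pow, MvPolynomial.eval_X,
        one_pow, mul_one]
      linear_combination h4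
    · simp

end Pool.Agent.Helper59.DX
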