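import Pool.Agent.Helper38.DM.Prod
import Pool.Agent.Helper59.DX.DegX

/-!
# DX-HEIGHTSB: heights of the points of a plane curve

Use the API of `Pool/Agent/Helper38/DM/Prod.lean` (on main): `tot` (sum over all places), `tot_posLog : tot (log⁺ v(x)) = logHeight₁ x`, `tot_mono`, `tot_add`, `tot_mul`, `tot_nonneg_of` (the product formula as an
inequality), `exists_const_bound` (a `Const A` with `v x ≤ exp (A.c v)` for finitely many given `x`), `AlmostZero`, `IsPlace`.

PROOF. `P = ∑_j c_j(X) Y^j`, `n0 = P.natDegree`. There is a `Const` `B` with `v (c_j(x)) ≤ exp (B.c v + degX P * log⁺ v(x))` for all `j`, `x` (coefficients bounded by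
`exists_const_bound`; number of terms `≤ degX P + 1` at archimedean places, ultrametric inequality at the others). Let `P(x,y) = 0` and `n = natDegree (P.map (evalRingHom x))`, `z = c_n(x) ≠ 0` its leading
coefficient (`hP x`). `n ≥ 1` as this nonzero polynomial has the root `y`. For every place: `v z * max (v y) 1 ≤ exp (B'.c v + degX P * log⁺ v(x))`: if `v y ≤ 1` clear; otherwise
`z y^n = -∑_{j<n} c_j(x) y^j` gives `v z * (v y)^n ≤ (n0 or 1) * max_j v(c_j(x)) * (v y)^(n-1)`. So `v z ≤ exp (B'.c v + degX P * log⁺ v(x) - log⁺ v(y))`, and by the product formula (`tot_nonneg_of`)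
`0 ≤ tot B' + degX P * h(x) - h(y)`. The constant `tot B'` does not depend on `x, y`.
-/

set_option autoImplicit false

namespace Pool.Agent.Helper59.DX

open Polynomial

open Pool.Agent.Helper38.DM (tot AlmostZero IsPlace Const tot_add tot_mul tot_posLog
  almostZero_posLog tot_nonneg_of exists_const_bound)

open Height in
open Classical in
private noncomputable def nt {K : Type} [Field K] [NumberField K] (N : ℕ)
    (v : AbsoluteValue K ℝ) : ℝ :=
  if v ∈ AdmissibleAbsValues.nonarchAbsVal (K := K) then 0 else Real.log N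

private theorem nt_almostZero {K : Type} [Field K] [NumberField K] (N : ℕ) :
    AlmostZero (nt (K := K) N) := by
  have : {v : AbsoluteValue K ℝ | v ∈ Height.AdmissibleAbsValues.nonarchAbsVal (K := K) ∧
      nt N v ≠ 0} = ∅ := by
    ext v
    simp only [Set.mem_setOf_eq, Set.mem_empty_iff_false, iff_false, not_and, not_not]
    intro hv
    unfold nt
    rw [if_pos hv]
  unfold AlmostZero
  rw [this]
  exact Set.finite_empty

private theorem sum_le_nt {K : Type} [Field K] [NumberField K] {N : ℕ} (hN : 1 ≤ N)
    (v : AbsoluteValue K ℝ) {α : Type*} (s : Finset α) (hs : s.card ≤ N)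
    (a : α → K) {B : ℝ} (hB : 0 ≤ B) (h : ∀ i ∈ s, v (a i) ≤ B) :
    v (∑ i ∈ s, a i) ≤ Real.exp (nt N v) * B := by
  classical
  unfold nt
  split_ifs with hv
  · rw [Real.exp_zero, one_mul]
    have hna := Height.AdmissibleAbsValues.isNonarchimedean v hv
    clear hs
    induction s using Finset.induction_on with
    | empty => rw [Finset.sum_empty, map_zero]; exact hB
    | insert i s hi ih =>
      rw [Finset.sum_insert hi]
      refine (hna _ _).trans (max_le (h i (Finset.mem_insert_self _ _)) ?_)
      exact ih fun j hj => h j (Finset.mem_insert_of_mem hj)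
  · have hN0 : (0 : ℝ) < N := by exact_mod_cast hN
    rw [Real.exp_log hN0]
    calc v (∑ i ∈ s, a i) ≤ ∑ i ∈ s, v (a i) := v.sum_le _ _
      _ ≤ ∑ _i ∈ s, B := Finset.sum_le_sum h
      _ = s.card * B := by rw [Finset.sum_const, nsmul_eq_mul]
      _ ≤ N * B := mul_le_mul_of_nonneg_right (by exact_mod_cast hs) hB

private theorem le_exp_posLog {t : ℝ} (ht : 0 ≤ t) : t ≤ Real.exp (Real.posLog t) := by
  rcases eq_or_lt_of_le ht with h | h
  · rw [← h]; exact (Real.exp_pos _).le
  · rw [← Real.log_le_iff_le_exp h]
    exact le_max_right _ _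

private theorem pow_le_exp {t : ℝ} (ht : 0 ≤ t) {i D : ℕ} (hi : i ≤ D) :
    t ^ i ≤ Real.exp (D * Real.posLog t) := by
  have h1 : t ^ i ≤ Real.exp (i * Real.posLog t) := by
    rw [Real.exp_nat_mul]
    exact pow_le_pow_left₀ ht (le_exp_posLog ht) i
  refine h1.trans (Real.exp_le_exp.2 ?_)
  exact mul_le_mul_of_nonneg_right (by exact_mod_cast hi) Real.posLog_nonneg

theorem height_curve {K : Type} [Field K] [NumberField K] (P : K[X][X])
    (hP : ∀ ξ : K, P.map (evalRingHom ξ) ≠ 0) : ∃ C : ℝ, ∀ x y : K, P.evalEval x y = 0 →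
      Height.logHeight₁ y ≤ degX P * Height.logHeight₁ x + C := by
  classical
  set N : ℕ := degX P + P.natDegree + 1 with hN
  have hN1 : 1 ≤ N := by omega
  obtain ⟨A, hA, -⟩ := exists_const_bound
    ((Finset.range (P.natDegree + 1) ×ˢ Finset.range (degX P + 1)).image
      (fun ij : ℕ × ℕ => (P.coeff ij.1).coeff ij.2))
  have hcoef : ∀ v, IsPlace v → ∀ j ≤ P.natDegree, ∀ i ≤ degX P,
      v ((P.coeff j).coeff i) ≤ Real.exp (A.c v) := by
    intro v hv j hj i hi
    refine hA v hv _ (Finset.mem_image.2 ⟨(j, i), ?_, rfl⟩)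
    rw [Finset.mem_product, Finset.mem_range, Finset.mem_range]
    exact ⟨by omega, by omega⟩
  -- the coefficients of `P(x, ·)`
  have hev : ∀ v, IsPlace v → ∀ j ≤ P.natDegree, ∀ x : K, v ((P.coeff j).eval x)
      ≤ Real.exp (nt N v) * Real.exp (A.c v + degX P * Real.posLog (v x)) := by
    intro v hv j hj x
    rw [eval_eq_sum_range' (lt_of_le_of_lt (natDegree_coeff_le_degX P j) (Nat.lt_succ_self _))]
    refine sum_le_nt hN1 v _ (by rw [Finset.card_range]; omega) _ (Real.exp_pos _).le fun i hi => ?_
    rw [Finset.mem_range] at hi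
    rw [map_mul, map_pow, Real.exp_add]
    exact mul_le_mul (hcoef v hv j hj i (by omega)) (pow_le_exp (v.nonneg _) (by omega))
      (pow_nonneg (v.nonneg _) _) (Real.exp_pos _).le
  have hAz : AlmostZero A.c := A.finite
  have hCz : AlmostZero fun v : AbsoluteValue K ℝ => 2 * nt N v + A.c v :=
    ((nt_almostZero N).mul 2).add hAz
  refine ⟨tot (fun v : AbsoluteValue K ℝ => 2 * nt N v + A.c v), fun x y hxy => ?_⟩
  set p : K[X] := P.map (evalRingHom x) with hp
  have hp0 : p ≠ 0 := hP x
  have hz : p.leadingCoeff ≠ 0 := leadingCoeff_ne_zero.2 hp0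
  have hcf : ∀ j, p.coeff j = (P.coeff j).eval x := by
    intro j
    rw [hp, coeff_map, coe_evalRingHom]
  have hroot : p.eval y = 0 := by rw [hp, eval_map_evalRingHom]; exact hxy
  have hnP : p.natDegree ≤ P.natDegree := natDegree_map_le
  have hn1 : 1 ≤ p.natDegree := by
    by_contra hlt
    have h0 : p.natDegree = 0 := by omega
    rw [eq_C_of_natDegree_eq_zero h0, eval_C] at hroot
    apply hz
    rw [leadingCoeff, h0]
    exact hroot
  have hsum : p.leadingCoeff * y ^ p.natDegree
      = -∑ j ∈ Finset.range p.natDegree, p.coeff j * y ^ j := by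
    rw [eval_eq_sum_range, Finset.sum_range_succ] at hroot
    rw [leadingCoeff]
    linear_combination hroot
  have key : 0 ≤ tot (fun v : AbsoluteValue K ℝ => (2 * nt N v + A.c v) +
      ((degX P : ℝ) * Real.posLog (v x) + (-1) * Real.posLog (v y))) := by
    refine tot_nonneg_of hz (hCz.add (((almostZero_posLog x).mul _).add
      ((almostZero_posLog y).mul _))) fun v hv => ?_
    have hlead : v p.leadingCoeff
        ≤ Real.exp (nt N v) * Real.exp (A.c v + degX P * Real.posLog (v x)) := by
      rw [leadingCoeff, hcf]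
      exact hev v hv _ hnP x
    have hnt : 0 ≤ nt N v := by
      unfold nt
      split_ifs
      · exact le_rfl
      · exact Real.log_nonneg (by exact_mod_cast hN1)
    rcases le_or_gt (v y) 1 with hy | hy
    · have h1 : Real.posLog (v y) = 0 := by
        rw [Real.posLog_eq_zero_iff, abs_of_nonneg (v.nonneg _)]
        exact hy
      refine hlead.trans ?_
      rw [← Real.exp_add, h1]
      refine Real.exp_le_exp.2 ?_
      linarith
    · have h1 : Real.posLog (v y) = Real.log (v y) :=
        Real.posLog_eq_log (by rw [abs_of_nonneg (v.nonneg _)]; exact hy.le)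
      have hy0 : 0 < v y := by linarith
      set B : ℝ := Real.exp (nt N v) * Real.exp (A.c v + degX P * Real.posLog (v x)) with hB
      have hB0 : 0 < B := by positivity
      have h2 : v (∑ j ∈ Finset.range p.natDegree, p.coeff j * y ^ j)
          ≤ Real.exp (nt N v) * (B * v y ^ (p.natDegree - 1)) := by
        refine sum_le_nt hN1 v _ (by rw [Finset.card_range]; omega) _ (by positivity)
          fun j hj => ?_
        rw [Finset.mem_range] at hj
        rw [map_mul, map_pow, hcf]
        refine mul_le_mul (hev v hv j (by omega) x) ?_ (by positivity) hB0.le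
        exact pow_le_pow_right₀ hy.le (by omega)
      have h3 : v p.leadingCoeff * v y ^ p.natDegree
          ≤ Real.exp (nt N v) * (B * v y ^ (p.natDegree - 1)) := by
        rw [← map_pow, ← map_mul, hsum, v.map_neg]
        exact h2
      have h4 : v p.leadingCoeff * v y ≤ Real.exp (nt N v) * B := by
        have h5 : 0 < v y ^ (p.natDegree - 1) := by positivity
        have h6 : v y ^ p.natDegree = v y * v y ^ (p.natDegree - 1) := by
          rw [← pow_succ']
          congr 1
          omega
        rw [h6] at h3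
        refine le_of_mul_le_mul_right ?_ h5
        linarith
      have h7 : v y = Real.exp (Real.log (v y)) := (Real.exp_log hy0).symm
      rw [h1]
      have h8 : v p.leadingCoeff ≤ Real.exp (nt N v) * B * Real.exp (-Real.log (v y)) := by
        rw [Real.exp_neg, Real.exp_log hy0]
        rw [← div_eq_mul_inv, le_div_iff₀ hy0]
        exact h4
      refine h8.trans ?_
      rw [hB, ← Real.exp_add, ← Real.exp_add, ← Real.exp_add]
      refine Real.exp_le_exp.2 ?_
      linarith
  rw [tot_add hCz (((almostZero_posLog x).mul _).add ((almostZero_posLog y).mul _)),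
    tot_add ((almostZero_posLog x).mul _) ((almostZero_posLog y).mul _), tot_mul, tot_mul,
    tot_posLog, tot_posLog] at key
  linarith

end Pool.Agent.Helper59.DX
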