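import Pool.Agent.Helper59.DX.Defs

/-!
# DX-INTBD: polynomial bounds for specialisations of integral elements

(a) `ev_bound`: `c : MvPolynomial (Fin r) R`. PROOF: `MvPolynomial.aeval`/`eval₂_eq'`: `‖ev c‖ ≤ ∑_m ‖coeff m c‖ ∏ |v i|^{m i}` and
`∏ |v i|^{m i} ≤ (sz v)^{∑ m i} ≤ (sz v)^{totalDegree}`.
(b) `integral_bound`: `u` satisfies a monic equation `u^n + ∑_{i<n} b_i u^i = 0`, so `‖s u‖ ≤ 1 + ∑_{i<n} ‖ev b_i‖` (if `‖s u‖ > 1`, divide by `‖s u‖^(n-1)`), then (a).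
One may take the same `C ≥ 1`, `E` for finitely many elements.
(c) `coeff_bound`: Mathlib `Polynomial.coeff_le_of_roots_le` (with `f = RingHom.id ℂ`): `‖p.coeff i‖ ≤ ρ^(n-i) * n.choose i ≤ ρ^n 2^n`.
(d) `minpoly_growth`: combine: a root `ω` of `(minpoly B u).map (ev R v)` is `s u` for some `s` over `ev R v` (this is
`roots_lift`, here taken as the hypothesis `hroot`), so `‖ω‖ ≤ C sz^E`; the specialised polynomial is monic of the same degree `≤ n`; use (c).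
-/

set_option autoImplicit false

namespace Pool.Agent.Helper59.DX

open Polynomial

variable {r : ℕ} {R : Type*} [CommRing R] [Algebra R ℂ]

private theorem sz_nonneg {r : ℕ} (v : Fin r → ℤ) : 0 ≤ sz v := zero_le_one.trans (one_le_sz v)

private theorem norm_le_sz {r : ℕ} (v : Fin r → ℤ) (i : Fin r) : ‖((v i : ℤ) : ℂ)‖ ≤ sz v := by
  have h1 : ‖((v i : ℤ) : ℂ)‖ = |(v i : ℝ)| := by
    rw [Complex.norm_intCast]
  rw [h1]
  have h2 : |(v i : ℝ)| ≤ ∑ j, |(v j : ℝ)| :=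
    Finset.single_le_sum (f := fun j => |(v j : ℝ)|) (fun j _ => abs_nonneg _) (Finset.mem_univ i)
  unfold sz
  linarith

theorem ev_bound (c : MvPolynomial (Fin r) R) : ∃ (C : ℝ) (E : ℕ), 1 ≤ C ∧
    ∀ v : Fin r → ℤ, ‖ev R v c‖ ≤ C * sz v ^ E := by
  induction c using MvPolynomial.induction_on with
  | C a =>
    refine ⟨1 + ‖algebraMap R ℂ a‖, 0, by linarith [norm_nonneg (algebraMap R ℂ a)], fun v => ?_⟩
    have h1 : ev R v (MvPolynomial.C a) = algebraMap R ℂ a := by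
      unfold ev
      exact MvPolynomial.aeval_C _ _
    rw [h1]
    linarith [norm_nonneg (algebraMap R ℂ a)]
  | add p q hp hq =>
    obtain ⟨C, E, hC, h⟩ := hp
    obtain ⟨C', E', hC', h'⟩ := hq
    refine ⟨C + C', E + E', by linarith, fun v => ?_⟩
    rw [map_add]
    have hs := one_le_sz v
    have e1 : sz v ^ E ≤ sz v ^ (E + E') := pow_le_pow_right₀ hs (by omega)
    have e2 : sz v ^ E' ≤ sz v ^ (E + E') := pow_le_pow_right₀ hs (by omega)
    calc ‖ev R v p + ev R v q‖ ≤ ‖ev R v p‖ + ‖ev R v q‖ := norm_add_le _ _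
      _ ≤ C * sz v ^ E + C' * sz v ^ E' := add_le_add (h v) (h' v)
      _ ≤ C * sz v ^ (E + E') + C' * sz v ^ (E + E') :=
        add_le_add (mul_le_mul_of_nonneg_left e1 (by linarith))
          (mul_le_mul_of_nonneg_left e2 (by linarith))
      _ = (C + C') * sz v ^ (E + E') := by ring
  | mul_X p i hp =>
    obtain ⟨C, E, hC, h⟩ := hp
    refine ⟨C, E + 1, hC, fun v => ?_⟩
    have h1 : ev R v (MvPolynomial.X i) = ((v i : ℤ) : ℂ) := by
      unfold ev
      exact MvPolynomial.aeval_X _ _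
    rw [map_mul, norm_mul, h1, pow_succ, ← mul_assoc]
    exact mul_le_mul (h v) (norm_le_sz v i) (norm_nonneg _)
      (mul_nonneg (by linarith) (pow_nonneg (sz_nonneg v) _))

/-- finitely many polynomials at once: a bound for the sum of the norms -/
private theorem sum_ev_bound {ι : Type*} (s : Finset ι) (c : ι → MvPolynomial (Fin r) R) :
    ∃ (C : ℝ) (E : ℕ), 1 ≤ C ∧ ∀ v : Fin r → ℤ, ∑ i ∈ s, ‖ev R v (c i)‖ ≤ C * sz v ^ E := by
  classical
  induction s using Finset.induction_on with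
  | empty => exact ⟨1, 0, le_refl _, fun v => by simp⟩
  | insert a s ha ih =>
    obtain ⟨C, E, hC, h⟩ := ih
    obtain ⟨C', E', hC', h'⟩ := ev_bound (c a)
    refine ⟨C' + C, E' + E, by linarith, fun v => ?_⟩
    rw [Finset.sum_insert ha]
    have hs := one_le_sz v
    have e1 : sz v ^ E ≤ sz v ^ (E' + E) := pow_le_pow_right₀ hs (by omega)
    have e2 : sz v ^ E' ≤ sz v ^ (E' + E) := pow_le_pow_right₀ hs (by omega)
    calc ‖ev R v (c a)‖ + ∑ i ∈ s, ‖ev R v (c i)‖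
        ≤ C' * sz v ^ E' + C * sz v ^ E := add_le_add (h' v) (h v)
      _ ≤ C' * sz v ^ (E' + E) + C * sz v ^ (E' + E) :=
        add_le_add (mul_le_mul_of_nonneg_left e2 (by linarith))
          (mul_le_mul_of_nonneg_left e1 (by linarith))
      _ = (C' + C) * sz v ^ (E' + E) := by ring

/-- a root of a monic complex polynomial relation is bounded by one plus the coefficients -/
private theorem root_le {n : ℕ} (b : ℕ → ℂ) (z : ℂ)
    (h : z ^ n + ∑ i ∈ Finset.range n, b i * z ^ i = 0) :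
    ‖z‖ ≤ 1 + ∑ i ∈ Finset.range n, ‖b i‖ := by
  have hS : 0 ≤ ∑ i ∈ Finset.range n, ‖b i‖ := Finset.sum_nonneg fun i _ => norm_nonneg _
  by_contra hlt
  push Not at hlt
  have hz1 : 1 ≤ ‖z‖ := by linarith
  have hz0 : 0 < ‖z‖ := by linarith
  rcases Nat.eq_zero_or_pos n with rfl | hn
  · simp at h
  have h1 : z ^ n = -∑ i ∈ Finset.range n, b i * z ^ i := eq_neg_of_add_eq_zero_left h
  have h2 : ‖z‖ ^ n ≤ (∑ i ∈ Finset.range n, ‖b i‖) * ‖z‖ ^ (n - 1) := by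
    calc ‖z‖ ^ n = ‖z ^ n‖ := (norm_pow z n).symm
      _ = ‖∑ i ∈ Finset.range n, b i * z ^ i‖ := by rw [h1, norm_neg]
      _ ≤ ∑ i ∈ Finset.range n, ‖b i * z ^ i‖ := norm_sum_le _ _
      _ ≤ ∑ i ∈ Finset.range n, ‖b i‖ * ‖z‖ ^ (n - 1) := by
        apply Finset.sum_le_sum
        intro i hi
        rw [norm_mul, norm_pow]
        have : i ≤ n - 1 := by have := Finset.mem_range.1 hi; omega
        exact mul_le_mul_of_nonneg_left (pow_le_pow_right₀ hz1 this) (norm_nonneg _)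
      _ = _ := by rw [Finset.sum_mul]
  have h3 : ‖z‖ ^ n = ‖z‖ * ‖z‖ ^ (n - 1) := by
    rw [← pow_succ']; congr 1; omega
  rw [h3] at h2
  have h4 : ‖z‖ ≤ ∑ i ∈ Finset.range n, ‖b i‖ :=
    le_of_mul_le_mul_right h2 (pow_pos hz0 _)
  linarith

theorem integral_bound {A : Type*} [CommRing A] [Algebra (MvPolynomial (Fin r) R) A] (u : A)
    (hu : IsIntegral (MvPolynomial (Fin r) R) u) : ∃ (C : ℝ) (E : ℕ), 1 ≤ C ∧
    ∀ (v : Fin r → ℤ) (s : A →+* ℂ), s.comp (algebraMap (MvPolynomial (Fin r) R) A) = ev R v →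
      ‖s u‖ ≤ C * sz v ^ E := by
  obtain ⟨p, hp, hpu⟩ := hu
  obtain ⟨C, E, hC, h⟩ := sum_ev_bound (Finset.range p.natDegree) (fun i => p.coeff i)
  refine ⟨1 + C, E, by linarith, fun v s hs => ?_⟩
  have h1 : (s u) ^ p.natDegree + ∑ i ∈ Finset.range p.natDegree, ev R v (p.coeff i) * (s u) ^ i = 0 := by
    have h2 : s (p.eval₂ (algebraMap (MvPolynomial (Fin r) R) A) u) = 0 := by rw [hpu, map_zero]
    rw [hom_eval₂, hs, eval₂_eq_sum_range, Finset.sum_range_succ] at h2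
    have h3 : p.coeff p.natDegree = 1 := hp
    rw [h3, map_one, one_mul, add_comm] at h2
    exact h2
  have h4 := root_le _ _ h1
  have h5 : 1 ≤ sz v ^ E := one_le_pow₀ (one_le_sz v)
  calc ‖s u‖ ≤ 1 + ∑ i ∈ Finset.range p.natDegree, ‖ev R v (p.coeff i)‖ := h4
    _ ≤ sz v ^ E + C * sz v ^ E := add_le_add h5 (h v)
    _ = (1 + C) * sz v ^ E := by ring

theorem coeff_bound {p : ℂ[X]} (hp : p.Monic) {n : ℕ} (hn : p.natDegree ≤ n) {ρ : ℝ} (hρ : 1 ≤ ρ)
    (h : ∀ z, p.eval z = 0 → ‖z‖ ≤ ρ) (i : ℕ) : ‖p.coeff i‖ ≤ (2 * ρ) ^ n := by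
  have h1 : ‖(p.map (RingHom.id ℂ)).coeff i‖ ≤ ρ ^ (p.natDegree - i) * (p.natDegree.choose i : ℝ) := by
    refine Polynomial.coeff_le_of_roots_le i hp (IsAlgClosed.splits _) ?_
    intro z hz
    rw [map_id] at hz
    exact h z (mem_roots'.1 hz).2
  rw [map_id] at h1
  have h2 : (p.natDegree.choose i : ℝ) ≤ 2 ^ n := by
    have h3 : p.natDegree.choose i ≤ 2 ^ p.natDegree := Nat.choose_le_two_pow _ _
    have h4 : (2 : ℕ) ^ p.natDegree ≤ 2 ^ n := Nat.pow_le_pow_right (by norm_num) hn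
    exact_mod_cast h3.trans h4
  have h5 : ρ ^ (p.natDegree - i) ≤ ρ ^ n := pow_le_pow_right₀ hρ (by omega)
  calc ‖p.coeff i‖ ≤ ρ ^ (p.natDegree - i) * (p.natDegree.choose i : ℝ) := h1
    _ ≤ ρ ^ n * 2 ^ n := mul_le_mul h5 h2 (by positivity) (by positivity)
    _ = (2 * ρ) ^ n := by rw [mul_pow]; ring

theorem minpoly_growth {A : Type*} [CommRing A] [IsDomain A] [Algebra (MvPolynomial (Fin r) R) A] (u : A)
    (hu : IsIntegral (MvPolynomial (Fin r) R) u)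
    (hroot : ∀ (v : Fin r → ℤ) (ω : ℂ), ((minpoly (MvPolynomial (Fin r) R) u).map (ev R v)).eval ω = 0 →
      ∃ s : A →+* ℂ, s.comp (algebraMap (MvPolynomial (Fin r) R) A) = ev R v ∧ s u = ω)
    {n : ℕ} (hn : (minpoly (MvPolynomial (Fin r) R) u).natDegree ≤ n) {C : ℝ} {E : ℕ} (hC : 1 ≤ C)
    (hb : ∀ (v : Fin r → ℤ) (s : A →+* ℂ), s.comp (algebraMap (MvPolynomial (Fin r) R) A) = ev R v →
      ‖s u‖ ≤ C * sz v ^ E) (i : ℕ) (v : Fin r → ℤ) :
    ‖ev R v ((minpoly (MvPolynomial (Fin r) R) u).coeff i)‖ ≤ (2 * C) ^ n * sz v ^ (E * n) := by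
  have hm : ((minpoly (MvPolynomial (Fin r) R) u).map (ev R v)).Monic := (minpoly.monic hu).map _
  have hd : ((minpoly (MvPolynomial (Fin r) R) u).map (ev R v)).natDegree ≤ n :=
    natDegree_map_le.trans hn
  have hρ : 1 ≤ C * sz v ^ E := by
    have : 1 ≤ sz v ^ E := one_le_pow₀ (one_le_sz v)
    nlinarith
  have h1 := coeff_bound hm hd hρ (fun z hz => by
    obtain ⟨s, hs, hsu⟩ := hroot v z hz
    rw [← hsu]
    exact hb v s hs) i
  rw [coeff_map] at h1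
  calc _ ≤ (2 * (C * sz v ^ E)) ^ n := h1
    _ = (2 * C) ^ n * sz v ^ (E * n) := by rw [← mul_assoc, mul_pow, pow_mul]

end Pool.Agent.Helper59.DX
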