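import Pool.Agent.Helper59.DX.Defs

/-!
# DX-MINDEG: degrees of minimal polynomials over an integrally closed domain

(a) `exists_minpoly_bound`. PROOF: `k = FractionRing B`, `F = FractionRing A`, `F` is a finite extension of `k` (as `A` is a finite `B`-module:
`IsIntegralClosure`/`IsLocalization` lemmas, or: `F = k ⊗ A`; it is enough that `k[u] ⊂ F` has dimension at most the number `n` of generators of
`A` as a `B`-module, because the `k`-span of the generators contains `k[u]`), `minpoly k (u : F) = (minpoly B u).map _`
(`minpoly.isIntegrallyClosed_eq_field_fractions`), `natDegree (minpoly k x) ≤ finrank k F`.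

(b) `minpoly_natDegree_le`: if `u : ℂ` (or any field `L ⊃ B`) is integral over `B` and a root of a nonzero polynomial `q : B[X]` then
`(minpoly B u).natDegree ≤ q.natDegree` (`minpoly.isIntegrallyClosed_dvd_iff`: `minpoly B u ∣ q`).
-/

set_option autoImplicit false

namespace Pool.Agent.Helper59.DX

open Polynomial

theorem exists_minpoly_bound {B A : Type*} [CommRing B] [IsDomain B] [IsIntegrallyClosed B] [CommRing A]
    [IsDomain A] [Algebra B A] [Module.Finite B A] (hinj : Function.Injective (algebraMap B A)) :
    ∃ n : ℕ, ∀ u : A, (minpoly B u).natDegree ≤ n :=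
  ⟨_, fun u => minpoly.natDegree_le_spanFinrank B u⟩

theorem minpoly_natDegree_le {B A : Type*} [CommRing B] [IsDomain B] [IsIntegrallyClosed B] [CommRing A]
    [IsDomain A] [Algebra B A] (hinj : Function.Injective (algebraMap B A)) (u : A) (hu : IsIntegral B u)
    (q : B[X]) (hq : q ≠ 0) (h : aeval u q = 0) : (minpoly B u).natDegree ≤ q.natDegree := by
  have : FaithfulSMul B A := (faithfulSMul_iff_algebraMap_injective B A).2 hinj
  have : Module.IsTorsionFree B A := Module.IsTorsionFree.of_faithfulSMul _ _ A
  exact natDegree_le_of_dvd (minpoly.isIntegrallyClosed_dvd hu h) hq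

/-- the constant coefficient of the minimal polynomial of a nonzero element is nonzero. -/
theorem minpoly_coeff_zero_ne {B A : Type*} [CommRing B] [IsDomain B] [CommRing A]
    [IsDomain A] [Algebra B A] (hinj : Function.Injective (algebraMap B A)) (u : A) (hu : IsIntegral B u)
    (h0 : u ≠ 0) : (minpoly B u).coeff 0 ≠ 0 := by
  intro hc
  obtain ⟨q, hq⟩ := X_dvd_iff.2 hc
  have hm : (minpoly B u).Monic := minpoly.monic hu
  have hqm : q.Monic := by
    rw [hq] at hm
    exact monic_X.of_mul_monic_left hm
  have hz : aeval u q = 0 := by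
    have h1 : aeval u (minpoly B u) = 0 := minpoly.aeval B u
    rw [hq, map_mul, aeval_X] at h1
    exact (mul_eq_zero.1 h1).resolve_left h0
  have h2 := minpoly.min B u hqm hz
  have h3 : (minpoly B u).natDegree ≤ q.natDegree := natDegree_le_natDegree h2
  rw [hq, natDegree_X_mul hqm.ne_zero] at h3
  omega

end Pool.Agent.Helper59.DX
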