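import Pool.Agent.Helper59.DX.Defs

/-!
# DX-TONF: a specialisation with algebraic values factors through a number field
-/

set_option autoImplicit false

namespace Pool.Agent.Helper59.DX

theorem exists_numberField {A : Type*} [CommRing A] [Algebra ℚ A] [Algebra.FiniteType ℚ A] (s : A →+* ℂ)
    (hs : ∀ x, IsAlgebraic ℚ (s x)) :
    ∃ (K : Type) (_ : Field K) (_ : NumberField K) (s' : A →+* K) (j : K →+* ℂ), s = j.comp s' := by
  obtain ⟨G, hG⟩ := (Algebra.FiniteType.out : (⊤ : Subalgebra ℚ A).FG)
  set sa : A →ₐ[ℚ] ℂ := s.toRatAlgHom with hsa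
  set K : IntermediateField ℚ ℂ := IntermediateField.adjoin ℚ (s '' (G : Set A)) with hK
  have hfin : (s '' (G : Set A)).Finite := G.finite_toSet.image s
  have hfd : FiniteDimensional ℚ K := by
    have : Finite (s '' (G : Set A)) := hfin
    refine IntermediateField.finiteDimensional_adjoin ?_
    rintro _ ⟨x, _, rfl⟩
    exact (hs x).isIntegral
  have hmem : ∀ x, s x ∈ K := by
    intro x
    have hx : x ∈ Algebra.adjoin ℚ (G : Set A) := by
      rw [hG]
      trivial
    have h1 : sa x ∈ (Algebra.adjoin ℚ (G : Set A)).map sa := ⟨x, hx, rfl⟩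
    rw [AlgHom.map_adjoin] at h1
    exact IntermediateField.algebra_adjoin_le_adjoin ℚ _ h1
  have hnf : NumberField K := { to_charZero := inferInstance, to_finiteDimensional := hfd }
  exact ⟨K, inferInstance, hnf, s.codRestrict K.toSubring hmem, K.val.toRingHom, rfl⟩

end Pool.Agent.Helper59.DX
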