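import Pool.Agent.Helper59.DX.Roots
import Pool.Agent.Helper59.DX.Growth
import Pool.Agent.Helper59.DX.IntBd
import Pool.Agent.Helper59.DX.MinDeg
import Pool.Agent.Helper59.DX.Esc
import Pool.Agent.Helper59.DX.ToNF
import Pool.Agent.Helper59.DX.Generic

/-!
# DX-LEMMAL0: a non-preperiodic point stays non-preperiodic under a suitable specialisation to a number field
-/

set_option autoImplicit false

namespace Pool.Agent.Helper59.DX

open Polynomial

/-- values of a specialisation over an algebraic specialisation are algebraic. -/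
theorem isIntegral_values {B A : Type*} [CommRing B] [CommRing A] [Algebra B A] [Algebra.IsIntegral B A]
    (φ : B →+* ℂ) (hφ : ∀ b, IsIntegral ℚ (φ b)) (s : A →+* ℂ) (hs : s.comp (algebraMap B A) = φ)
    (x : A) : IsIntegral ℚ (s x) := by
  obtain ⟨p, hp, hpx⟩ := Algebra.IsIntegral.isIntegral (R := B) x
  let φ' : B →+* integralClosure ℚ ℂ :=
    φ.codRestrict (integralClosure ℚ ℂ).toSubring (fun b => hφ b)
  have h1 : IsIntegral (integralClosure ℚ ℂ) (s x) := by
    refine ⟨p.map φ', hp.map _, ?_⟩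
    rw [eval₂_map]
    have h2 : (algebraMap (integralClosure ℚ ℂ) ℂ).comp φ' = s.comp (algebraMap B A) := by
      rw [hs]
      rfl
    rw [h2, ← hom_eval₂, hpx, map_zero]
  exact isIntegral_trans (A := integralClosure ℚ ℂ) (s x) h1

theorem isIntegral_aeval {r : ℕ} (τ : Fin r → ℂ) (hτ : ∀ i, IsIntegral ℚ (τ i))
    (b : MvPolynomial (Fin r) ℚ) : IsIntegral ℚ (MvPolynomial.aeval τ b) := by
  induction b using MvPolynomial.induction_on with
  | C a =>
    rw [MvPolynomial.aeval_C]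
    exact isIntegral_algebraMap
  | add p q hp hq =>
    rw [map_add]
    exact hp.add hq
  | mul_X p i hp =>
    rw [map_mul, MvPolynomial.aeval_X]
    exact hp.mul (hτ i)

/-- polynomial growth of a function on the specialisations over integral points. -/
def PB {r : ℕ} {A : Type*} [CommRing A] [Algebra (MvPolynomial (Fin r) ℚ) A] (F : (A →+* ℂ) → ℝ) : Prop :=
  ∃ (C : ℝ) (E : ℕ), 1 ≤ C ∧ ∀ (v : Fin r → ℤ) (s : A →+* ℂ),
    s.comp (algebraMap (MvPolynomial (Fin r) ℚ) A) = ev ℚ v → F s ≤ C * sz v ^ E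

theorem sz_pow_mono {r : ℕ} (v : Fin r → ℤ) {E F : ℕ} (h : E ≤ F) : sz v ^ E ≤ sz v ^ F :=
  pow_le_pow_right₀ (one_le_sz v) h

theorem PB.add {r : ℕ} {A : Type*} [CommRing A] [Algebra (MvPolynomial (Fin r) ℚ) A] {F G : (A →+* ℂ) → ℝ}
    (hF : PB (r := r) F) (hG : PB (r := r) G) : PB (r := r) fun s => F s + G s := by
  obtain ⟨C, E, hC, h⟩ := hF
  obtain ⟨C', E', hC', h'⟩ := hG
  refine ⟨C + C', E + E', by linarith, fun v s hs => ?_⟩
  have h1 : C * sz v ^ E ≤ C * sz v ^ (E + E') :=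
    mul_le_mul_of_nonneg_left (sz_pow_mono v (Nat.le_add_right _ _)) (by linarith)
  have h2 : C' * sz v ^ E' ≤ C' * sz v ^ (E + E') :=
    mul_le_mul_of_nonneg_left (sz_pow_mono v (Nat.le_add_left _ _)) (by linarith)
  rw [add_mul]
  linarith [h v s hs, h' v s hs]

theorem PB.mul {r : ℕ} {A : Type*} [CommRing A] [Algebra (MvPolynomial (Fin r) ℚ) A] {F G : (A →+* ℂ) → ℝ}
    (hF : PB (r := r) F) (hG : PB (r := r) G) (hF0 : ∀ s, 0 ≤ F s) (hG0 : ∀ s, 0 ≤ G s) :
    PB (r := r) fun s => F s * G s := by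
  obtain ⟨C, E, hC, h⟩ := hF
  obtain ⟨C', E', hC', h'⟩ := hG
  refine ⟨C * C', E + E', by nlinarith, fun v s hs => ?_⟩
  calc F s * G s ≤ (C * sz v ^ E) * (C' * sz v ^ E') :=
        mul_le_mul (h v s hs) (h' v s hs) (hG0 s) ((hF0 s).trans (h v s hs))
    _ = C * C' * sz v ^ (E + E') := by rw [pow_add]; ring

theorem PB.one {r : ℕ} {A : Type*} [CommRing A] [Algebra (MvPolynomial (Fin r) ℚ) A] :
    PB (r := r) (A := A) fun _ => 1 :=
  ⟨1, 0, le_refl _, fun v s _ => by simp⟩

theorem PB.norm {r : ℕ} {A : Type*} [CommRing A] [Algebra (MvPolynomial (Fin r) ℚ) A]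
    [Algebra.IsIntegral (MvPolynomial (Fin r) ℚ) A] (u : A) :
    PB (r := r) (A := A) fun s => ‖s u‖ :=
  integral_bound u (Algebra.IsIntegral.isIntegral u)

theorem PB.sum {r : ℕ} {A : Type*} [CommRing A] [Algebra (MvPolynomial (Fin r) ℚ) A]
    [Algebra.IsIntegral (MvPolynomial (Fin r) ℚ) A] (c : ℕ → A) (d : ℕ) :
    PB (r := r) (A := A) fun s => ∑ i ∈ Finset.range d, ‖s (c i)‖ := by
  induction d with
  | zero =>
    refine ⟨1, 0, le_refl _, fun v s _ => by simp⟩
  | succ d ih =>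
    simp only [Finset.sum_range_succ]
    exact ih.add (PB.norm (c d))

theorem PB.escR {r : ℕ} {A : Type*} [CommRing A] [IsDomain A] [Algebra (MvPolynomial (Fin r) ℚ) A]
    [Algebra.IsIntegral (MvPolynomial (Fin r) ℚ) A] (g : A[X]) (hu : IsUnit g.leadingCoeff) :
    PB (r := r) (A := A) fun s => DX.escR (g.map s) := by
  have key : ∀ s : A →+* ℂ, DX.escR (g.map s) = 1 + ‖s ((hu.unit⁻¹ : Aˣ) : A)‖ *
      (1 + ∑ i ∈ Finset.range g.natDegree, ‖s (g.coeff i)‖) := by
    intro s
    have h0 : s g.leadingCoeff ≠ 0 := (hu.map s).ne_zero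
    unfold DX.escR
    rw [natDegree_map_of_leadingCoeff_ne_zero s h0, leadingCoeff_map_of_leadingCoeff_ne_zero s h0]
    have h1 : s g.leadingCoeff * s ((hu.unit⁻¹ : Aˣ) : A) = 1 := by
      rw [← map_mul, IsUnit.mul_val_inv, map_one]
    have h2 : s ((hu.unit⁻¹ : Aˣ) : A) = (s g.leadingCoeff)⁻¹ := eq_inv_of_mul_eq_one_right h1
    rw [h2, norm_inv]
    simp only [coeff_map]
  simp only [key]
  apply PB.one.add
  apply (PB.norm _).mul (PB.one.add (PB.sum _ _))
  · intro s; exact norm_nonneg _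
  · intro s
    have : 0 ≤ ∑ i ∈ Finset.range g.natDegree, ‖s (g.coeff i)‖ := Finset.sum_nonneg fun i _ => norm_nonneg _
    linarith

theorem lemmaL0 {A : Type*} [CommRing A] [IsDomain A] [Algebra ℚ A] [Algebra.FiniteType ℚ A] (g : A[X])
    (hg : 2 ≤ g.natDegree) (hu : IsUnit g.leadingCoeff) (a : A) (ha : Function.Injective fun n => orb g n a) :
    ∃ (K : Type) (_ : Field K) (_ : NumberField K) (s : A →+* K),
      Function.Injective fun n => orb (g.map s) n (s a) := by
  by_contra hcon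
  push Not at hcon
  -- specialisations with algebraic values are bad
  have hbad : ∀ s : A →+* ℂ, (∀ x, IsIntegral ℚ (s x)) →
      ¬ Function.Injective fun n => orb (g.map s) n (s a) := by
    intro s hs hinj
    obtain ⟨K, iK, iNK, s', j, hsj⟩ := exists_numberField s fun x => (hs x).isAlgebraic
    apply hcon K iK iNK s'
    intro m n hmn
    apply hinj
    simp only [orb_map] at hmn ⊢
    rw [hsj]
    simp only [RingHom.comp_apply]
    exact congrArg j hmn
  obtain ⟨r, ι, hι, hfin⟩ := exists_finite_inj_algHom_of_fg ℚ A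
  let _ : Algebra (MvPolynomial (Fin r) ℚ) A := ι.toRingHom.toAlgebra
  have _ : Module.Finite (MvPolynomial (Fin r) ℚ) A := hfin
  have hinjB : Function.Injective (algebraMap (MvPolynomial (Fin r) ℚ) A) := hι
  obtain ⟨C, E, hC, hb⟩ := PB.escR (r := r) g hu
  obtain ⟨n0, hn0⟩ := exists_minpoly_bound (B := MvPolynomial (Fin r) ℚ) (A := A) hinjB
  obtain ⟨τ, hτ, hgen⟩ := exists_generic_point r (E * n0)
  obtain ⟨s, hs⟩ := exists_extension (R := MvPolynomial (Fin r) ℚ) (A := A) hinjB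
    (MvPolynomial.aeval τ : MvPolynomial (Fin r) ℚ →ₐ[ℚ] ℂ).toRingHom
  apply hbad s (isIntegral_values _ (fun b => isIntegral_aeval τ (fun i => (hτ i).isIntegral) b) s hs)
  intro i j hij
  by_contra hne
  simp only [orb_map] at hij
  -- the element u
  set u : A := orb g i a - orb g j a with hudef
  have hu0 : u ≠ 0 := by
    intro h0
    exact hne (ha (sub_eq_zero.1 h0))
  have hsu : s u = 0 := by rw [hudef, map_sub, hij, sub_self]
  have huint : IsIntegral (MvPolynomial (Fin r) ℚ) u := Algebra.IsIntegral.isIntegral u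
  have hgrow : ∀ (v : Fin r → ℤ) (s : A →+* ℂ), s.comp (algebraMap (MvPolynomial (Fin r) ℚ) A) = ev ℚ v →
      ‖s u‖ ≤ (2 * C) * sz v ^ E := by
    intro v s hs
    have hint : ∀ x, IsIntegral ℚ (s x) := by
      apply isIntegral_values _ _ s hs
      intro b
      exact isIntegral_aeval (fun i => ((v i : ℤ) : ℂ)) (fun i => by
        have := isIntegral_algebraMap (R := ℚ) (A := ℂ) (x := ((v i : ℤ) : ℚ))
        simpa using this) b
    have hnot := hbad s hint
    have h0 : s g.leadingCoeff ≠ 0 := (hu.map s).ne_zero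
    have hdeg : 2 ≤ (g.map s).natDegree := by
      rw [natDegree_map_of_leadingCoeff_ne_zero s h0]
      exact hg
    have h1 := norm_orb_le hdeg hnot i
    have h2 := norm_orb_le hdeg hnot j
    rw [orb_map] at h1 h2
    have h3 := hb v s hs
    have h4 : ‖s u‖ ≤ ‖s (orb g i a)‖ + ‖s (orb g j a)‖ := by
      rw [hudef, map_sub]
      exact norm_sub_le _ _
    simp only at h3
    calc ‖s u‖ ≤ C * sz v ^ E + C * sz v ^ E := by linarith
      _ = (2 * C) * sz v ^ E := by ring
  have hcoef := minpoly_growth (R := ℚ) u huint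
    (fun v ω hω => roots_lift hinjB (ev ℚ v) u ω hω) (hn0 u) (C := 2 * C) (E := E) (by linarith) hgrow 0
  have htd : ((minpoly (MvPolynomial (Fin r) ℚ) u).coeff 0).totalDegree ≤ E * n0 :=
    totalDegree_le_of_growth _ _ _ hcoef
  have hc0 := minpoly_coeff_zero_ne hinjB u huint hu0
  have hnz := hgen _ hc0 htd
  apply hnz
  have h5 : (minpoly (MvPolynomial (Fin r) ℚ) u).eval₂ (s.comp (algebraMap (MvPolynomial (Fin r) ℚ) A)) (s u) = 0 := by
    rw [← hom_eval₂]
    have := minpoly.aeval (MvPolynomial (Fin r) ℚ) u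
    rw [aeval_def] at this
    rw [this, map_zero]
  rw [hsu, eval₂_at_zero, hs] at h5
  exact h5

end Pool.Agent.Helper59.DX
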