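import Pool.Agent.Helper59.DML.Padic
import Pool.Agent.Helper59.DX.DegX
import Pool.Agent.Helper59.DX.Embed2

/-!
# DX-LINEAR: two maps of degree one (Skolem-Mahler-Lech)

PROOF. `f = C λ₀ * X + C μ₀`, `g = C λ₁ * X + C μ₁`, `λ₀, λ₁ ≠ 0`. Let `s` = `{λ₀, μ₀, λ₁, μ₁, a, b}`, `L = adjoin ℚ s`. `embed_units` with `T` = the nonzero elements among `λ₀, λ₁, μ₀, μ₁` (as elements of `L`):
`φ : L →+* ℚ_[p]` with `‖φ λ_i‖ = 1`, `‖φ μ_i‖ ≤ 1`. Apply `Pool.Agent.Helper59.DML.transfer` (file DML/Transfer.lean; `L`, `E = ℂ`, `K = ℚ_[p]`) with `ι = Fin 2`, `d i = 1`, the lifts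
`c i 0 = (μ_i, λ_i)`, `c i 1 = (1, 0)` (`form a v = ∑ a_i v 0 ^ i * v 1 ^ (d - i)`: so `(x, 1) ↦ (λ x + μ, 1)`), `v 0 = ![a, 1]`, `v 1 = ![b, 1]`, and the single multihomogeneous polynomial
`H = ∑_{i,j} P_{ij} X_{(0,0)}^i X_{(0,1)}^{m-i} X_{(1,0)}^j X_{(1,1)}^{n-j}` (`m = degX P`, `n = deg_Y P`). `hcore` is `DML.core'` (as in DML/Padic.lean, `dml_padic`): the hypotheses `‖c‖ ≤ 1`,
`‖hlift (c i) u‖ = 1` for `‖u‖ = 1` (`norm_hlift_eq_one`, `jac (c i) u = ± λ_i`, norm `1`) hold. By induction `hlift^n (v 0) = ![orb f n a, 1]`, so `H` evaluates to `P.evalEval (orb f n a) (orb g n b)`, and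
the result is `EP (fun n => P.evalEval (orb f n a) (orb g n b) = 0)`.
-/

set_option autoImplicit false

namespace Pool.Agent.Helper59.DX

open Polynomial Pool.Agent.Helper59.DML

private def lcoef {R : Type*} [CommRing R] (l m : R) : Fin 2 → Fin (1 + 1) → R :=
  ![![m, l], ![1, 0]]

private theorem lcoef_map {R S : Type*} [CommRing R] [CommRing S] (φ : R →+* S) (l m : R) :
    (fun k j => φ (lcoef l m k j)) = lcoef (φ l) (φ m) := by
  funext k j
  fin_cases k <;> fin_cases j <;> simp [lcoef]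

private theorem hlift_lcoef {R : Type*} [CommRing R] (l m : R) (v : Fin 2 → R) :
    hlift (lcoef l m) v = ![l * v 0 + m * v 1, v 1] := by
  funext k
  fin_cases k
  · simp [hlift, form, lcoef, Fin.sum_univ_two]
    ring
  · simp [hlift, form, lcoef, Fin.sum_univ_two]

private theorem jac_lcoef {R : Type*} [CommRing R] (l m : R) (v : Fin 2 → R) :
    jac (lcoef l m) v = l := by
  simp [jac, lcoef, Fin.sum_univ_two]

private theorem iter_lcoef {R : Type*} [CommRing R] (l m x : R) (n : ℕ) :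
    (hlift (lcoef l m))^[n] ![x, 1] = ![(fun z => l * z + m)^[n] x, 1] := by
  induction n with
  | zero => simp
  | succ n ih =>
    rw [Function.iterate_succ_apply', ih, hlift_lcoef, Function.iterate_succ_apply']
    simp

private noncomputable def lexp (M N a b : ℕ) : (Fin 2 × Fin 2) →₀ ℕ :=
  Finsupp.equivFunOnFinite.symm (fun x => if x.1 = 0 then (if x.2 = 0 then a else M - a)
    else (if x.2 = 0 then b else N - b))

private noncomputable def lH (P : ℂ[X][X]) : MvPolynomial (Fin 2 × Fin 2) ℂ :=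
  ∑ b ∈ Finset.range (P.natDegree + 1), ∑ a ∈ Finset.range (degX P + 1),
    MvPolynomial.monomial (lexp (degX P) P.natDegree a b) ((P.coeff b).coeff a)

private theorem lH_multi (P : ℂ[X][X]) : MultiHom (lH P) := by
  classical
  intro i
  refine ⟨if i = 0 then degX P else P.natDegree, ?_⟩
  intro m hm
  obtain ⟨b, hb, hm1⟩ : ∃ b ∈ Finset.range (P.natDegree + 1), m ∈ (∑ a ∈ Finset.range (degX P + 1),
      MvPolynomial.monomial (lexp (degX P) P.natDegree a b) ((P.coeff b).coeff a)).support := by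
    have h := MvPolynomial.support_sum hm
    simpa using h
  obtain ⟨a, ha, hm2⟩ : ∃ a ∈ Finset.range (degX P + 1), m ∈ (
      MvPolynomial.monomial (lexp (degX P) P.natDegree a b) ((P.coeff b).coeff a)).support := by
    have h := MvPolynomial.support_sum hm1
    simpa using h
  have h3 := MvPolynomial.support_monomial_subset hm2
  rw [Finset.mem_singleton] at h3
  rw [Finset.mem_range] at ha hb
  rw [h3]
  fin_cases i
  · simp [lexp]
    omega
  · simp [lexp]
    omega

private theorem lH_eval (P : ℂ[X][X]) (u : Fin 2 × Fin 2 → ℂ) (h0 : u (0, 1) = 1)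
    (h1 : u (1, 1) = 1) : MvPolynomial.eval u (lH P) = P.evalEval (u (0, 0)) (u (1, 0)) := by
  have h2 : P.evalEval (u (0, 0)) (u (1, 0)) = ∑ b ∈ Finset.range (P.natDegree + 1),
      ∑ a ∈ Finset.range (degX P + 1), (P.coeff b).coeff a * u (0, 0) ^ a * u (1, 0) ^ b := by
    rw [evalEval, eval_eq_sum_range (p := P), eval_finsetSum]
    refine Finset.sum_congr rfl fun b _ => ?_
    rw [eval_mul, eval_pow, eval_C, eval_eq_sum_range' (Nat.lt_succ_of_le
      (natDegree_coeff_le_degX P b)), Finset.sum_mul]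
  rw [h2, lH, map_sum]
  refine Finset.sum_congr rfl fun b _ => ?_
  rw [map_sum]
  refine Finset.sum_congr rfl fun a _ => ?_
  rw [MvPolynomial.eval_monomial, Finsupp.prod_fintype _ _ (fun i => pow_zero _)]
  rw [Fintype.prod_prod_type, Fin.prod_univ_two, Fin.prod_univ_two, Fin.prod_univ_two]
  simp [lexp, h0, h1]
  ring

private theorem lcoef_core {p : ℕ} [hp : Fact p.Prime] (l m : Fin 2 → ℚ_[p]) (hl : ∀ i, ‖l i‖ = 1)
    (hm : ∀ i, ‖m i‖ ≤ 1) (v : Fin 2 → Fin 2 → ℚ_[p]) (hv : ∀ i, v i ≠ 0)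
    {H : MvPolynomial (Fin 2 × Fin 2) ℚ_[p]} (hH : MHom H) :
    EP (fun n => MvPolynomial.eval (fun x =>
      (hlift (lcoef (l x.1) (m x.1)))^[n] (v x.1) x.2) H = 0) := by
  have hc1 : ∀ i k j, ‖lcoef (l i) (m i) k j‖ ≤ 1 := by
    intro i k j
    fin_cases k <;> fin_cases j <;> simp [lcoef, hl, hm]
  have hj : ∀ i, ∀ u : Fin 2 → ℚ_[p], ‖jac (lcoef (l i) (m i)) u‖ = 1 := by
    intro i u
    rw [jac_lcoef, hl]
  have hred : ∀ i, ∀ u : Fin 2 → ℚ_[p], ‖u‖ = 1 → ‖hlift (lcoef (l i) (m i)) u‖ = 1 :=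
    fun i u hu => norm_hlift_eq_one (hc1 i) hu (hj i u)
  exact core' (d := fun _ => 1) (c := fun i => lcoef (l i) (m i)) hp.out Padic.norm_p_lt_one hc1
    hred (fun i u hu => ⟨0, fun n _ => hj i _⟩) hv hH

theorem linear_ep (f g : ℂ[X]) (hf : f.natDegree = 1) (hg : g.natDegree = 1) (a b : ℂ) (P : ℂ[X][X]) :
    EP (fun n => P.evalEval (orb f n a) (orb g n b) = 0) := by
  classical
  obtain ⟨l0, m0, hl0, hf'⟩ : ∃ l m : ℂ, l ≠ 0 ∧ ∀ z, f.eval z = l * z + m := by
    refine ⟨f.coeff 1, f.coeff 0, ?_, fun z => ?_⟩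
    · intro h
      have h1 : f ≠ 0 := by
        intro h2
        rw [h2] at hf
        simp at hf
      have h2 := leadingCoeff_ne_zero.2 h1
      rw [leadingCoeff, hf] at h2
      exact h2 h
    · conv_lhs => rw [eq_X_add_C_of_natDegree_le_one hf.le]
      simp
  obtain ⟨l1, m1, hl1, hg'⟩ : ∃ l m : ℂ, l ≠ 0 ∧ ∀ z, g.eval z = l * z + m := by
    refine ⟨g.coeff 1, g.coeff 0, ?_, fun z => ?_⟩
    · intro h
      have h1 : g ≠ 0 := by
        intro h2
        rw [h2] at hg
        simp at hg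
      have h2 := leadingCoeff_ne_zero.2 h1
      rw [leadingCoeff, hg] at h2
      exact h2 h
    · conv_lhs => rw [eq_X_add_C_of_natDegree_le_one hg.le]
      simp
  set s : Finset ℂ := {l0, m0, l1, m1, a, b} with hs
  have hsub : ∀ x ∈ s, x ∈ IntermediateField.adjoin ℚ (s : Set ℂ) := fun x hx =>
    IntermediateField.subset_adjoin ℚ _ hx
  set L := IntermediateField.adjoin ℚ (s : Set ℂ) with hL
  let L0 : L := ⟨l0, hsub l0 (by simp [hs])⟩
  let M0 : L := ⟨m0, hsub m0 (by simp [hs])⟩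
  let L1 : L := ⟨l1, hsub l1 (by simp [hs])⟩
  let M1 : L := ⟨m1, hsub m1 (by simp [hs])⟩
  let A : L := ⟨a, hsub a (by simp [hs])⟩
  let B : L := ⟨b, hsub b (by simp [hs])⟩
  have eL0 : algebraMap L ℂ L0 = l0 := rfl
  have eM0 : algebraMap L ℂ M0 = m0 := rfl
  have eL1 : algebraMap L ℂ L1 = l1 := rfl
  have eM1 : algebraMap L ℂ M1 = m1 := rfl
  have eA : algebraMap L ℂ A = a := rfl
  have eB : algebraMap L ℂ B = b := rfl
  have hL0 : L0 ≠ 0 := fun h => hl0 (by rw [← eL0, h, map_zero])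
  have hL1 : L1 ≠ 0 := fun h => hl1 (by rw [← eL1, h, map_zero])
  obtain ⟨p, hp, φ, hφ⟩ := embed_units s (({L0, L1, M0, M1} : Finset L).filter (fun x => x ≠ 0))
    (fun x hx => (Finset.mem_filter.1 hx).2)
  have nL0 : ‖φ L0‖ = 1 := hφ _ (Finset.mem_filter.2 ⟨by simp, hL0⟩)
  have nL1 : ‖φ L1‖ = 1 := hφ _ (Finset.mem_filter.2 ⟨by simp, hL1⟩)
  have nM0 : ‖φ M0‖ ≤ 1 := by
    by_cases h : M0 = 0
    · rw [h, map_zero, norm_zero]; exact zero_le_one
    · exact (hφ _ (Finset.mem_filter.2 ⟨by simp, h⟩)).le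
  have nM1 : ‖φ M1‖ ≤ 1 := by
    by_cases h : M1 = 0
    · rw [h, map_zero, norm_zero]; exact zero_le_one
    · exact (hφ _ (Finset.mem_filter.2 ⟨by simp, h⟩)).le
  let l : Fin 2 → L := ![L0, L1]
  let mm : Fin 2 → L := ![M0, M1]
  let v : Fin 2 → Fin 2 → L := ![![A, 1], ![B, 1]]
  have key := transfer (L := L) (E := ℂ) φ (ι := Fin 2) (d := fun _ => 1)
    (fun i => lcoef (l i) (mm i)) v {lH P} (by
      intro H hH
      rw [Finset.mem_singleton] at hH
      rw [hH]
      exact lH_multi P) (by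
      intro H hH
      simp only [lcoef_map]
      refine lcoef_core (fun i => φ (l i)) (fun i => φ (mm i)) ?_ ?_ (fun i k => φ (v i k)) ?_ hH
      · intro i
        fin_cases i
        · exact nL0
        · exact nL1
      · intro i
        fin_cases i
        · exact nM0
        · exact nM1
      · intro i h
        have h1 := congrFun h 1
        fin_cases i <;> simp [v] at h1)
  refine key.congr fun n => ?_
  have hit0 : (hlift (lcoef L0 M0))^[n] ![A, 1] = ![(fun z => L0 * z + M0)^[n] A, 1] :=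
    iter_lcoef _ _ _ _
  have hit1 : (hlift (lcoef L1 M1))^[n] ![B, 1] = ![(fun z => L1 * z + M1)^[n] B, 1] :=
    iter_lcoef _ _ _ _
  have ho0 : algebraMap L ℂ ((fun z => L0 * z + M0)^[n] A) = orb f n a := by
    clear key hit0 hit1
    induction n with
    | zero => rfl
    | succ n ih =>
      rw [Function.iterate_succ_apply', orb_succ, hf', ← ih, map_add, map_mul]
      rfl
  have ho1 : algebraMap L ℂ ((fun z => L1 * z + M1)^[n] B) = orb g n b := by
    clear key hit0 hit1 ho0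
    induction n with
    | zero => rfl
    | succ n ih =>
      rw [Function.iterate_succ_apply', orb_succ, hg', ← ih, map_add, map_mul]
      rfl
  have hev := lH_eval P (fun x => algebraMap L ℂ
      ((hlift (lcoef (l x.1) (mm x.1)))^[n] (v x.1) x.2)) (by
        show algebraMap L ℂ ((hlift (lcoef L0 M0))^[n] ![A, 1] 1) = 1
        rw [hit0]
        simp) (by
        show algebraMap L ℂ ((hlift (lcoef L1 M1))^[n] ![B, 1] 1) = 1
        rw [hit1]
        simp)
  have e0 : algebraMap L ℂ ((hlift (lcoef (l 0) (mm 0)))^[n] (v 0) 0) = orb f n a := by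
    show algebraMap L ℂ ((hlift (lcoef L0 M0))^[n] ![A, 1] 0) = _
    rw [hit0, ← ho0]
    rfl
  have e1 : algebraMap L ℂ ((hlift (lcoef (l 1) (mm 1)))^[n] (v 1) 0) = orb g n b := by
    show algebraMap L ℂ ((hlift (lcoef L1 M1))^[n] ![B, 1] 0) = _
    rw [hit1, ← ho1]
    rfl
  simp only [e0, e1] at hev
  constructor
  · intro h
    rw [← hev]
    exact h _ (Finset.mem_singleton_self _)
  · intro h H hH
    rw [Finset.mem_singleton] at hH
    rw [hH]
    exact hev.trans h

end Pool.Agent.Helper59.DX
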