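import Pool.Agent.Helper59.DX.Defs

/-!
# DX-NBACK: backward orbits of a monic polynomial: integrality and size

`B` a domain in `ℂ`, `G : ℂ[X]` monic of degree `d ≥ 2`, `M : B` nonzero with `M c_i` integral over `B` (`c_i` the coefficients of `G`, `i < d`).
(a) `step_identity`: `(M x)^d + ∑_{i<d} (M c_i) M^(d-1-i) (M x)^i = M^(d-1) (M G(x))` (`eval_eq_sum_range`, monic).
(b) `integral_step`: if `M G(x)` is integral over `B` then so is `M x`: by (a) it is a root of a monic polynomial with coefficients in the integral closure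
(`isIntegral_trans`-type argument: `integralClosure` is integrally closed, or `IsIntegral.of_...`; e.g. build the monic polynomial
`X^d + ∑ C(a_i) X^i - C b` over `integralClosure B ℂ` and use `isIntegral_trans`).
(c) `integral_back`: induction on `k`.
(d) `backward_bound`: suppose `‖w‖ > R (≥ 1)`. Then `‖w‖^d ≤ ∑ ‖γ i‖ (1+‖m‖)^(d-1) ‖w‖^(d-1) + (1+‖m‖)^(d-1) R`, and `R ≤ ‖w‖ ≤ ‖w‖^(d-1)`, so
`‖w‖^d ≤ (1+‖m‖)^(d-1) (1 + ∑ ‖γ i‖) ‖w‖^(d-1) ≤ R ‖w‖^(d-1)` and `‖w‖ ≤ R`: contradiction.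
(e) `exists_mul_integral`: Mathlib `exists_integral_multiple`; finitely many elements: product of the multipliers.
-/

set_option autoImplicit false

namespace Pool.Agent.Helper59.DX

open Polynomial

theorem step_identity {G : ℂ[X]} (hG : G.Monic) (hd : 1 ≤ G.natDegree) (m x : ℂ) :
    (m * x) ^ G.natDegree + ∑ i ∈ Finset.range G.natDegree, (m * G.coeff i) * m ^ (G.natDegree - 1 - i) * (m * x) ^ i
      = m ^ (G.natDegree - 1) * (m * G.eval x) := by
  have h1 : G.coeff G.natDegree = 1 := hG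
  rw [eval_eq_sum_range, Finset.sum_range_succ, h1, one_mul, mul_add, mul_add, add_comm]
  congr 1
  · rw [Finset.mul_sum, Finset.mul_sum]
    apply Finset.sum_congr rfl
    intro i hi
    have hi' := Finset.mem_range.1 hi
    have h2 : m ^ (G.natDegree - 1) = m ^ (G.natDegree - 1 - i) * m ^ i := by
      rw [← pow_add]; congr 1; omega
    rw [h2, mul_pow]
    ring
  · have h2 : m ^ G.natDegree = m ^ (G.natDegree - 1) * m := by
      rw [← pow_succ]; congr 1; omega
    rw [mul_pow, h2]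
    ring

private theorem integral_of_relation {B : Type*} [CommRing B] [Algebra B ℂ] {n : ℕ} (hn : 1 ≤ n) (a : ℕ → ℂ) (b z : ℂ)
    (ha : ∀ i < n, IsIntegral B (a i)) (hb : IsIntegral B b)
    (h : z ^ n + ∑ i ∈ Finset.range n, a i * z ^ i = b) : IsIntegral B z := by
  let S := integralClosure B ℂ
  have hS : Algebra.IsIntegral B S := inferInstance
  let a' : ℕ → S := fun i => if hi : i < n then ⟨a i, ha i hi⟩ else 0
  let b' : S := ⟨b, hb⟩
  have hz : IsIntegral S z := by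
    let q : S[X] := ∑ i ∈ Finset.range n, C (a' i) * X ^ i - C b'
    have hq : q.degree < n := by
      refine (degree_sub_le _ _).trans_lt (max_lt ?_ ?_)
      · have h3 : (∑ i ∈ Finset.range n, C (a' i) * X ^ i).degree ≤ ((n - 1 : ℕ) : WithBot ℕ) := by
          refine (degree_sum_le _ _).trans (Finset.sup_le fun i hi => ?_)
          have := Finset.mem_range.1 hi
          exact (degree_C_mul_X_pow_le i _).trans (by exact_mod_cast (by omega : i ≤ n - 1))
        exact h3.trans_lt (by exact_mod_cast (by omega : n - 1 < n))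
      · exact degree_C_le.trans_lt (by exact_mod_cast hn)
    refine ⟨X ^ n + q, monic_X_pow_add hq, ?_⟩
    have h1 : eval₂ (algebraMap S ℂ) z q = ∑ i ∈ Finset.range n, a i * z ^ i - b := by
      simp only [q, eval₂_sub, eval₂_finsetSum, eval₂_mul, eval₂_C, eval₂_X_pow]
      congr 1
      apply Finset.sum_congr rfl
      intro i hi
      have : a' i = ⟨a i, ha i (Finset.mem_range.1 hi)⟩ := dif_pos (Finset.mem_range.1 hi)
      rw [this]
      rfl
    rw [eval₂_add, eval₂_X_pow, h1, ← h]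
    ring
  exact isIntegral_trans z hz

theorem integral_back {B : Type*} [CommRing B] [Algebra B ℂ] {G : ℂ[X]} (hG : G.Monic)
    (hd : 1 ≤ G.natDegree) (M : B) (hc : ∀ i < G.natDegree, IsIntegral B (algebraMap B ℂ M * G.coeff i))
    (k : ℕ) (x : ℂ) (h : IsIntegral B (algebraMap B ℂ M * orb G k x)) : IsIntegral B (algebraMap B ℂ M * x) := by
  have hM : IsIntegral B (algebraMap B ℂ M) := isIntegral_algebraMap
  have step : ∀ y : ℂ, IsIntegral B (algebraMap B ℂ M * G.eval y) → IsIntegral B (algebraMap B ℂ M * y) := by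
    intro y hy
    exact integral_of_relation hd _ _ _
      (fun i hi => (hc i hi).mul (hM.pow _)) ((hM.pow _).mul hy) (step_identity hG hd (algebraMap B ℂ M) y)
  induction k with
  | zero => exact h
  | succ k ih =>
    rw [orb_succ] at h
    exact ih (step _ h)

theorem backward_bound {d : ℕ} (hd : 2 ≤ d) (m w w' : ℂ) (γ : ℕ → ℂ) (R : ℝ)
    (h : w ^ d + ∑ i ∈ Finset.range d, γ i * m ^ (d - 1 - i) * w ^ i = m ^ (d - 1) * w')
    (hR : (1 + ‖m‖) ^ (d - 1) * (1 + ∑ i ∈ Finset.range d, ‖γ i‖) ≤ R) (hw : ‖w'‖ ≤ R) : ‖w‖ ≤ R := by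
  by_contra hlt
  push Not at hlt
  have hm : 0 ≤ ‖m‖ := norm_nonneg m
  have hm1 : 1 ≤ 1 + ‖m‖ := by linarith
  have hS : 0 ≤ ∑ i ∈ Finset.range d, ‖γ i‖ := Finset.sum_nonneg fun i _ => norm_nonneg _
  have hP : 1 ≤ (1 + ‖m‖) ^ (d - 1) := one_le_pow₀ hm1
  have hR1 : 1 ≤ R := by nlinarith
  have hw1 : 1 ≤ ‖w‖ := by linarith
  have hw0 : 0 < ‖w‖ := by linarith
  have h1 : w ^ d = m ^ (d - 1) * w' - ∑ i ∈ Finset.range d, γ i * m ^ (d - 1 - i) * w ^ i := by
    rw [← h]; ring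
  have hmp : ‖m‖ ^ (d - 1) ≤ (1 + ‖m‖) ^ (d - 1) := pow_le_pow_left₀ hm (by linarith) _
  have hRw : R ≤ ‖w‖ ^ (d - 1) := by
    calc R ≤ ‖w‖ := hlt.le
      _ = ‖w‖ ^ 1 := (pow_one _).symm
      _ ≤ ‖w‖ ^ (d - 1) := pow_le_pow_right₀ hw1 (by omega)
  have h2 : ‖w‖ ^ d ≤ (1 + ‖m‖) ^ (d - 1) * (1 + ∑ i ∈ Finset.range d, ‖γ i‖) * ‖w‖ ^ (d - 1) := by
    calc ‖w‖ ^ d = ‖w ^ d‖ := (norm_pow w d).symm
      _ = ‖m ^ (d - 1) * w' - ∑ i ∈ Finset.range d, γ i * m ^ (d - 1 - i) * w ^ i‖ := by rw [h1]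
      _ ≤ ‖m ^ (d - 1) * w'‖ + ‖∑ i ∈ Finset.range d, γ i * m ^ (d - 1 - i) * w ^ i‖ := norm_sub_le _ _
      _ ≤ (1 + ‖m‖) ^ (d - 1) * ‖w‖ ^ (d - 1) +
          ∑ i ∈ Finset.range d, ‖γ i‖ * ((1 + ‖m‖) ^ (d - 1) * ‖w‖ ^ (d - 1)) := by
        apply add_le_add
        · rw [norm_mul, norm_pow]
          exact mul_le_mul hmp (hw.trans hRw) (norm_nonneg _) (by positivity)
        · refine (norm_sum_le _ _).trans (Finset.sum_le_sum fun i hi => ?_)
          have hi' := Finset.mem_range.1 hi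
          rw [norm_mul, norm_mul, norm_pow, norm_pow, mul_assoc]
          apply mul_le_mul_of_nonneg_left _ (norm_nonneg _)
          apply mul_le_mul _ (pow_le_pow_right₀ hw1 (by omega)) (by positivity) (by positivity)
          calc ‖m‖ ^ (d - 1 - i) ≤ (1 + ‖m‖) ^ (d - 1 - i) := pow_le_pow_left₀ hm (by linarith) _
            _ ≤ (1 + ‖m‖) ^ (d - 1) := pow_le_pow_right₀ hm1 (by omega)
      _ = _ := by rw [← Finset.sum_mul]; ring
  have h3 : ‖w‖ ^ d = ‖w‖ * ‖w‖ ^ (d - 1) := by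
    rw [← pow_succ']; congr 1; omega
  rw [h3] at h2
  have h4 := le_of_mul_le_mul_right h2 (pow_pos hw0 _)
  linarith

theorem exists_mul_integral {B : Type*} [CommRing B] [IsDomain B] [Algebra B ℂ]
    (hinj : Function.Injective (algebraMap B ℂ)) (T : Set ℂ) (hT : T.Finite)
    (h : ∀ x ∈ T, ∃ q : B[X], q ≠ 0 ∧ aeval x q = 0) :
    ∃ M : B, M ≠ 0 ∧ ∀ x ∈ T, IsIntegral B (algebraMap B ℂ M * x) := by
  have h1 : ∀ x : ℂ, ∃ M : B, M ≠ 0 ∧ (x ∈ T → IsIntegral B (algebraMap B ℂ M * x)) := by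
    intro x
    by_cases hx : x ∈ T
    · have ha : IsAlgebraic B x := h x hx
      obtain ⟨y, hy, hyx⟩ := ha.exists_integral_multiple
      exact ⟨y, hy, fun _ => by rwa [Algebra.smul_def] at hyx⟩
    · exact ⟨1, one_ne_zero, fun hx' => absurd hx' hx⟩
  choose M hM hMx using h1
  refine ⟨∏ x ∈ hT.toFinset, M x, Finset.prod_ne_zero_iff.2 fun x _ => hM x, fun x hx => ?_⟩
  have hx' : x ∈ hT.toFinset := hT.mem_toFinset.2 hx
  rw [← Finset.mul_prod_erase _ _ hx', map_mul, mul_right_comm]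
  exact (hMx x hx).mul isIntegral_algebraMap

end Pool.Agent.Helper59.DX
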