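import Pool.Agent.Helper59.DX.Defs

/-!
# DX-NCALG: a prime ideal of relative dimension `0` over `ℂ[x_{i0}]`

Notation: `R = MvPolynomial (Fin N) ℂ`; for `P : ℂ[X][X]` the element `P(x_{i0}, x_j) : R` is `rel i0 j P := aevalAeval (X i0) (X j) P`, for
`c : ℂ[X]` the element `c(x_{i0})` is `aeval (X i0) c`.

`exists_elim` PROOF. `𝔮` prime, `x_{i0}` transcendental mod `𝔮`, every `x_j` is mod `𝔮` a root of the nonzero polynomial `P_j(x_{i0}, Y)`. So `R/𝔮` is algebraic over
the domain `ℂ[X]` (acting by `X ↦ x_{i0}`, injective): `Algebra.IsAlgebraic` — the elements algebraic over a domain form a subalgebra (`Subalgebra.algebraicClosure` / `algebraicClosure`, `IsAlgebraic.mul`,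
`IsAlgebraic.add`), it contains all `x_j` and the constants. Let `u ∉ 𝔮`. `ū ∈ R/𝔮` is nonzero and algebraic over `ℂ[X]`: by `IsAlgebraic.exists_nonzero_dvd` (or: take an annihilating
polynomial `∑ a_i T^i` with `a_0 ≠ 0`, dividing by a power of `T`) `ū` divides a nonzero element `c` of `ℂ[X]`: `c(x_{i0}) = ū w̄` in `R/𝔮`, so `c(x_{i0}) - u w ∈ 𝔮`.
-/

set_option autoImplicit false

namespace Pool.Agent.Helper59.DX

open Polynomial

/-- the element `P(x_i, x_j)` of the polynomial ring. -/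
noncomputable def rel {N : ℕ} (i j : Fin N) (P : ℂ[X][X]) : MvPolynomial (Fin N) ℂ :=
  aevalAeval (MvPolynomial.X i) (MvPolynomial.X j) P

theorem exists_elim {N : ℕ} (i0 : Fin N) (q : Ideal (MvPolynomial (Fin N) ℂ)) (hq : q.IsPrime)
    (htr : ∀ c : ℂ[X], aeval (MvPolynomial.X i0 : MvPolynomial (Fin N) ℂ) c ∈ q → c = 0)
    (P : Fin N → ℂ[X][X]) (hP0 : ∀ j, P j ≠ 0) (hP : ∀ j, rel i0 j (P j) ∈ q)
    (u : MvPolynomial (Fin N) ℂ) (hu : u ∉ q) :
    ∃ c : ℂ[X], c ≠ 0 ∧ aeval (MvPolynomial.X i0 : MvPolynomial (Fin N) ℂ) c ∈ q ⊔ Ideal.span {u} := by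
  classical
  haveI := hq
  let π : MvPolynomial (Fin N) ℂ →+* MvPolynomial (Fin N) ℂ ⧸ q := Ideal.Quotient.mk q
  let φ : ℂ[X] →+* MvPolynomial (Fin N) ℂ ⧸ q :=
    π.comp (aeval (MvPolynomial.X i0 : MvPolynomial (Fin N) ℂ)).toRingHom
  letI : Algebra ℂ[X] (MvPolynomial (Fin N) ℂ ⧸ q) := φ.toAlgebra
  have hφ : ∀ c, algebraMap ℂ[X] (MvPolynomial (Fin N) ℂ ⧸ q) c = φ c := fun _ => rfl
  -- all elements are algebraic
  have hX : ∀ j, IsAlgebraic ℂ[X] (π (MvPolynomial.X j)) := by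
    intro j
    refine ⟨P j, hP0 j, ?_⟩
    have h1 : ∀ Q : ℂ[X][X], aeval (π (MvPolynomial.X j)) Q = π (rel i0 j Q) := by
      intro Q
      induction Q using Polynomial.induction_on' with
      | add p q hp hq =>
        rw [map_add, hp, hq]
        unfold rel
        rw [map_add, map_add]
      | monomial n a =>
        rw [← C_mul_X_pow_eq_monomial, map_mul, map_pow, aeval_C, aeval_X, hφ]
        unfold rel
        rw [map_mul, map_pow, aevalAeval_C, aevalAeval_Y, map_mul, map_pow]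
        rfl
    rw [h1]
    exact Ideal.Quotient.eq_zero_iff_mem.2 (hP j)
  have hall : ∀ f : MvPolynomial (Fin N) ℂ, IsAlgebraic ℂ[X] (π f) := by
    intro f
    induction f using MvPolynomial.induction_on with
    | C a =>
      have h2 : π (MvPolynomial.C a) = algebraMap ℂ[X] (MvPolynomial (Fin N) ℂ ⧸ q) (C a) := by
        rw [hφ]
        show π (MvPolynomial.C a) = π (aeval (MvPolynomial.X i0 : MvPolynomial (Fin N) ℂ) (C a))
        rw [aeval_C]
        rfl
      rw [h2]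
      exact isAlgebraic_algebraMap _
    | add p q hp hq => rw [map_add]; exact hp.add hq
    | mul_X p j hp => rw [map_mul]; exact hp.mul (hX j)
  have hu0 : π u ∈ nonZeroDivisors (MvPolynomial (Fin N) ℂ ⧸ q) :=
    mem_nonZeroDivisors_of_ne_zero fun h => hu (Ideal.Quotient.eq_zero_iff_mem.1 h)
  obtain ⟨c, hc, w, hw⟩ := (hall u).exists_nonzero_dvd hu0
  obtain ⟨w, rfl⟩ := Ideal.Quotient.mk_surjective w
  refine ⟨c, hc, ?_⟩
  have h3 : aeval (MvPolynomial.X i0 : MvPolynomial (Fin N) ℂ) c - u * w ∈ q := by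
    rw [← Ideal.Quotient.eq_zero_iff_mem, map_sub, map_mul, sub_eq_zero]
    exact hw
  have h4 : aeval (MvPolynomial.X i0 : MvPolynomial (Fin N) ℂ) c =
      (aeval (MvPolynomial.X i0 : MvPolynomial (Fin N) ℂ) c - u * w) + u * w := by ring
  rw [h4]
  exact Ideal.add_mem _ (Ideal.mem_sup_left h3)
    (Ideal.mem_sup_right (Ideal.mul_mem_right _ _ (Ideal.mem_span_singleton_self u)))

end Pool.Agent.Helper59.DX
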