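import Pool.Agent.Helper59.DX.Defs

/-!
# DX-NCDEP: on a curve any two functions are algebraically dependent

`A` a domain, finitely generated over `ℂ`, of Krull dimension `≤ 1` (`ringKrullDim A = 1`).
PROOF of `exists_relation`. Every nonzero prime of `A` is maximal (`Ring.KrullDimLE 1 A` from `ringKrullDim A ≤ 1`, `Ideal.IsPrime.isMaximal_of_ne_bot`).
Noether normalisation (`exists_finite_inj_algHom_of_fg ℂ A`): `B = MvPolynomial (Fin r) ℂ → A` injective, finite. CLAIM `r ≤ 1`: if `r ≥ 2`, the prime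
`(X_0) ⊂ B` (`MvPolynomial`: kernel of `X_0 ↦ 0`; `MvPolynomial.prime_X` / `MvPolynomial.X_prime`) is nonzero and not maximal (`X_1` is not a unit
mod `X_0`; e.g. `(X_0) < (X_0, X_1) < ⊤`, evaluate at points). Lying over: a prime `Q` of `A` over `(X_0)` (`Ideal.exists_ideal_over_prime_of_isIntegral`), `Q ≠ ⊥`, so
`Q` is maximal and `(X_0) = Q ∩ B` is maximal (`Ideal.isMaximal_comap_of_isIntegral_of_isMaximal`). Contradiction.
So `A` is integral over `ℂ[t_i, i < r]`, `r ≤ 1`, and the transcendence degree of `A` is `≤ 1`, so `u, w` are not algebraically independent: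
if `![u, w]` were algebraically independent over `ℂ`, its cardinality `2` would be `≤ trdeg ≤ r ≤ 1` (`AlgebraicIndependent.cardinalMk_le_trdeg`; the images of the
variables form a transcendence basis `IsTranscendenceBasis`, `IsTranscendenceBasis.cardinalMk_eq_trdeg`...). Translate `MvPolynomial (Fin 2) ℂ` to `ℂ[X][X]` by
`Polynomial.Bivariate.equivMvPolynomial`.

PROOF of `exists_irreducible_relation`: factor `P` into irreducibles in the UFD `ℂ[X][X]`; `A` is a domain, so some factor vanishes at `(u,w)`.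
-/

set_option autoImplicit false

namespace Pool.Agent.Helper59.DX

open Polynomial

private theorem rank_le_one {A : Type} [CommRing A] [IsDomain A] (hdim : ringKrullDim A ≤ 1)
    {r : ℕ} (g : MvPolynomial (Fin r) ℂ →+* A) (hinj : Function.Injective g)
    (hint : g.IsIntegral) : r ≤ 1 := by
  classical
  by_contra hr
  push Not at hr
  let _ : Algebra (MvPolynomial (Fin r) ℂ) A := g.toAlgebra
  have : Algebra.IsIntegral (MvPolynomial (Fin r) ℂ) A := ⟨hint⟩
  have : Ring.KrullDimLE 1 A := Ring.krullDimLE_iff.2 (by exact_mod_cast hdim)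
  let i0 : Fin r := ⟨0, by omega⟩
  let i1 : Fin r := ⟨1, by omega⟩
  have h01 : i1 ≠ i0 := by simp [i0, i1]
  let s : MvPolynomial (Fin r) ℂ →ₐ[ℂ] MvPolynomial (Fin r) ℂ :=
    MvPolynomial.aeval (fun i => if i = i0 then 0 else MvPolynomial.X i)
  let e : MvPolynomial (Fin r) ℂ →ₐ[ℂ] ℂ := MvPolynomial.aeval (fun _ => (0 : ℂ))
  have hes : e.comp s = e := by
    apply MvPolynomial.algHom_ext
    intro i
    by_cases hi : i = i0 <;> simp [e, s, hi]
  let P : Ideal (MvPolynomial (Fin r) ℂ) := RingHom.ker s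
  let N : Ideal (MvPolynomial (Fin r) ℂ) := RingHom.ker e
  have hP : P.IsPrime := RingHom.ker_isPrime _
  have hPN : P ≤ N := by
    intro x hx
    have hx' : s x = 0 := hx
    show e x = 0
    rw [← hes]
    show e (s x) = 0
    rw [hx', map_zero]
  have hX0 : (MvPolynomial.X i0 : MvPolynomial (Fin r) ℂ) ∈ P := by
    show s (MvPolynomial.X i0) = 0
    simp [s]
  have hX1 : (MvPolynomial.X i1 : MvPolynomial (Fin r) ℂ) ∉ P := by
    intro h
    have : s (MvPolynomial.X i1) = 0 := h
    simp [s, h01] at this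
  have hX1' : (MvPolynomial.X i1 : MvPolynomial (Fin r) ℂ) ∈ N := by
    show e (MvPolynomial.X i1) = 0
    simp [e]
  have hN : N ≠ ⊤ := RingHom.ker_ne_top _
  have hPmax : ¬ P.IsMaximal := by
    intro hmax
    have := hmax.eq_of_le hN hPN
    exact hX1 (this ▸ hX1')
  obtain ⟨Q, hQ, hQP⟩ := Ideal.exists_ideal_over_prime_of_isIntegral_of_isDomain (S := A) P (by
    have : RingHom.ker (algebraMap (MvPolynomial (Fin r) ℂ) A) = ⊥ :=
      (RingHom.injective_iff_ker_eq_bot _).1 hinj
    rw [this]; exact bot_le)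
  have hQ0 : Q ≠ ⊥ := by
    rintro rfl
    have hbot : (⊥ : Ideal A).comap (algebraMap (MvPolynomial (Fin r) ℂ) A) = ⊥ :=
      (RingHom.injective_iff_ker_eq_bot _).1 hinj
    rw [hbot] at hQP
    rw [← hQP] at hX0
    have h0 : (MvPolynomial.X i0 : MvPolynomial (Fin r) ℂ) = 0 := hX0
    exact MvPolynomial.X_ne_zero (R := ℂ) i0 h0
  have : Q.IsMaximal := hQ.isMaximal_of_ne_bot hQ0
  have := Ideal.isMaximal_comap_of_isIntegral_of_isMaximal (R := MvPolynomial (Fin r) ℂ) Q
  rw [hQP] at this
  exact hPmax this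

theorem exists_relation {A : Type} [CommRing A] [IsDomain A] [Algebra ℂ A] [Algebra.FiniteType ℂ A]
    (hdim : ringKrullDim A ≤ 1) (u w : A) : ∃ P : ℂ[X][X], P ≠ 0 ∧ aevalAeval u w P = 0 := by
  classical
  obtain ⟨r, g, hinj, hint⟩ := exists_integral_inj_algHom_of_fg ℂ A
  have hr : r ≤ 1 := rank_le_one hdim g.toRingHom hinj hint
  have hna : ¬ AlgebraicIndependent ℂ ![u, w] := by
    intro hai
    have h1 := hai.cardinalMk_le_trdeg
    let _ : Algebra (MvPolynomial (Fin r) ℂ) A := g.toRingHom.toAlgebra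
    have : IsScalarTower ℂ (MvPolynomial (Fin r) ℂ) A := IsScalarTower.of_algebraMap_eq (by
      intro x
      exact (g.commutes x).symm)
    have : Algebra.IsIntegral (MvPolynomial (Fin r) ℂ) A := ⟨hint⟩
    have : FaithfulSMul (MvPolynomial (Fin r) ℂ) A := by
      rw [faithfulSMul_iff_algebraMap_injective]
      exact hinj
    have h2 : Algebra.trdeg ℂ (MvPolynomial (Fin r) ℂ) + Algebra.trdeg (MvPolynomial (Fin r) ℂ) A =
        Algebra.trdeg ℂ A := trdeg_add_eq ℂ _
    have h3 : Algebra.trdeg (MvPolynomial (Fin r) ℂ) A = 0 := by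
      have : Algebra.IsAlgebraic (MvPolynomial (Fin r) ℂ) A := inferInstance
      exact trdeg_eq_zero
    rw [h3, add_zero, MvPolynomial.trdeg_of_isDomain] at h2
    rw [← h2] at h1
    simp only [Cardinal.mk_fin, Cardinal.lift_natCast, Cardinal.lift_id] at h1
    have : (2 : ℕ) ≤ r := by exact_mod_cast h1
    omega
  rw [algebraicIndependent_iff] at hna
  push Not at hna
  obtain ⟨p, hp, hp0⟩ := hna
  refine ⟨(Bivariate.equivMvPolynomial ℂ).symm p, ?_, ?_⟩
  · intro h
    apply hp0
    have := congrArg (Bivariate.equivMvPolynomial ℂ) h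
    simpa using this
  · have : ((aevalAeval u w).comp (Bivariate.equivMvPolynomial ℂ).symm.toAlgHom :
        MvPolynomial (Fin 2) ℂ →ₐ[ℂ] A) = MvPolynomial.aeval ![u, w] := by
      apply MvPolynomial.algHom_ext
      intro i
      fin_cases i
      · simp
      · simp
    have h := congrArg (fun f => f p) this
    exact h.trans hp

theorem exists_irreducible_relation {A : Type} [CommRing A] [IsDomain A] [Algebra ℂ A] [Algebra.FiniteType ℂ A]
    (hdim : ringKrullDim A ≤ 1) (u w : A) : ∃ P : ℂ[X][X], Irreducible P ∧ aevalAeval u w P = 0 := by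
  classical
  obtain ⟨P, hP0, hP⟩ := exists_relation hdim u w
  revert hP
  induction P using WfDvdMonoid.induction_on_irreducible with
  | zero => exact absurd rfl hP0
  | unit P hu =>
    intro hP
    exact absurd hP (hu.map (aevalAeval u w)).ne_zero
  | mul P q hP' hq ih =>
    intro h
    rw [map_mul, mul_eq_zero] at h
    rcases h with h | h
    · exact ⟨q, hq, h⟩
    · exact ih hP' h

end Pool.Agent.Helper59.DX
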