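import Pool.Agent.Helper59.DX.NCPrime

/-!
# DX-NCMAIN: reducible curves; arithmetic progressions

`ep_curve` PROOF: `z ∈ V(I)` iff `z ∈ V(p)` for some minimal prime `p` of `I` (`I ≤ ker (eval z)`, a prime: `Ideal.exists_minimalPrimes_le`); finitely many minimal primes
  (`Ideal.finite_minimalPrimes_of_isNoetherianRing`); `EP` is closed under finite unions (`ep_common`).

`exists_progressions` PROOF: `EP S` with `n₀, P`: `{n | S n}` is the union of the singletons `{n}`, `n < n₀`, `S n` (progressions with `b = 0`) and the progressions `{n + k P}` for `n₀ ≤ n < n₀ + P`, `S n`.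
-/
set_option autoImplicit false

namespace Pool.Agent.Helper59.DX

open Polynomial Pool.Agent.Helper59.DML

theorem ep_curve (hplane : PlaneStatement) {N : ℕ} (f : Fin N → ℂ[X]) (α : Fin N → ℂ)
    (I : Ideal (MvPolynomial (Fin N) ℂ))
    (hI : ∀ p ∈ I.minimalPrimes, ringKrullDim (MvPolynomial (Fin N) ℂ ⧸ p) = 1) :
    EP (fun n => ∀ u ∈ I, MvPolynomial.eval (fun j => orb (f j) n (α j)) u = 0) := by
  classical
  have hfin : (I.minimalPrimes).Finite := Ideal.finite_minimalPrimes_of_isNoetherianRing _ I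
  obtain ⟨n₀, P, hP, h⟩ := ep_common hfin.toFinset
    (S := fun (p : Ideal (MvPolynomial (Fin N) ℂ)) n =>
      ∀ u ∈ p, MvPolynomial.eval (fun j => orb (f j) n (α j)) u = 0) (fun p hp => by
      rw [Set.Finite.mem_toFinset] at hp
      exact ep_prime hplane f α p hp.1.1 (hI p hp))
  have key : ∀ n, (∀ u ∈ I, MvPolynomial.eval (fun j => orb (f j) n (α j)) u = 0) ↔
      ∃ p ∈ hfin.toFinset, ∀ u ∈ p, MvPolynomial.eval (fun j => orb (f j) n (α j)) u = 0 := by
    intro n
    constructor
    · intro hn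
      have hle : I ≤ RingHom.ker (MvPolynomial.eval (fun j => orb (f j) n (α j))) := by
        intro u hu
        rw [RingHom.mem_ker]
        exact hn u hu
      have hprime : (RingHom.ker (MvPolynomial.eval (fun j => orb (f j) n (α j)))).IsPrime :=
        RingHom.ker_isPrime _
      obtain ⟨p, hp, hpl⟩ := Ideal.exists_minimalPrimes_le hle
      refine ⟨p, by rwa [Set.Finite.mem_toFinset], fun u hu => ?_⟩
      have := hpl hu
      rwa [RingHom.mem_ker] at this
    · rintro ⟨p, hp, hpu⟩ u hu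
      rw [Set.Finite.mem_toFinset] at hp
      exact hpu u (hp.1.2 hu)
  refine ⟨n₀, P, hP, fun n hn => ?_⟩
  show (∀ u ∈ I, MvPolynomial.eval (fun j => orb (f j) n (α j)) u = 0) ↔
    (∀ u ∈ I, MvPolynomial.eval (fun j => orb (f j) (n + P) (α j)) u = 0)
  rw [key, key]
  constructor
  · rintro ⟨p, hp, hpu⟩
    exact ⟨p, hp, (h p hp n hn).1 hpu⟩
  · rintro ⟨p, hp, hpu⟩
    exact ⟨p, hp, (h p hp n hn).2 hpu⟩

theorem exists_progressions {S : ℕ → Prop} (h : EP S) :
    ∃ T : Finset (ℕ × ℕ), {n | S n} = ⋃ t ∈ T, {n | ∃ k, n = t.1 + k * t.2} := by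
  classical
  obtain ⟨n₀, P, hP, h⟩ := h
  refine ⟨((Finset.range n₀).filter S).image (fun n => (n, 0)) ∪
    ((Finset.Ico n₀ (n₀ + P)).filter S).image (fun n => (n, P)), ?_⟩
  ext n
  simp only [Set.mem_setOf_eq, Set.mem_iUnion, exists_prop]
  constructor
  · intro hn
    rcases Nat.lt_or_ge n n₀ with h1 | h1
    · refine ⟨(n, 0), ?_, 0, by simp⟩
      rw [Finset.mem_union]
      left
      rw [Finset.mem_image]
      exact ⟨n, by rw [Finset.mem_filter, Finset.mem_range]; exact ⟨h1, hn⟩, rfl⟩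
    · have e1 : n = n₀ + (n - n₀) % P + (n - n₀) / P * P := by
        have := Nat.mod_add_div (n - n₀) P
        have e3 : (n - n₀) / P * P = P * ((n - n₀) / P) := Nat.mul_comm _ _
        omega
      have hm := Nat.mod_lt (n - n₀) hP
      have h2 := ep_mul h ((n - n₀) / P) (n₀ + (n - n₀) % P) (by omega)
      rw [← e1] at h2
      refine ⟨(n₀ + (n - n₀) % P, P), ?_, (n - n₀) / P, e1⟩
      rw [Finset.mem_union]
      right
      rw [Finset.mem_image]
      exact ⟨n₀ + (n - n₀) % P, by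
        rw [Finset.mem_filter, Finset.mem_Ico]
        exact ⟨⟨by omega, by omega⟩, h2.2 hn⟩, rfl⟩
  · rintro ⟨t, ht, k, rfl⟩
    rw [Finset.mem_union, Finset.mem_image, Finset.mem_image] at ht
    rcases ht with ⟨m, hm, rfl⟩ | ⟨m, hm, rfl⟩
    · rw [Finset.mem_filter] at hm
      simpa using hm.2
    · rw [Finset.mem_filter, Finset.mem_Ico] at hm
      exact (ep_mul h k m hm.1.1).1 hm.2

end Pool.Agent.Helper59.DX
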