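import Pool.Agent.Helper59.DML.LemmaZ
import Pool.Agent.Helper59.DX.DegX
import Pool.Agent.Helper59.DX.NCAlg

/-!
# DX-NCPER: a curve cut out, up to finitely many components, by invariant relations is periodic

PROOF. `R = MvPolynomial (Fin N) ℂ`, `θ_k : R →ₐ[ℂ] R`, `x_j ↦ (itp (f j) (m k))(x_j)` (`MvPolynomial.aeval fun j => aeval (X j) (itp (f j) (m*k))`).
`eval z (θ_k u) = eval (fun j => orb (f j) (m k) (z j)) u` (`itp_eval`). `θ_k ∘ θ_l = θ_{k+l}` (`itp_add`). `p_k := p.comap θ_k` (prime). `J := Ideal.span (range fun j => rel i0 j (P j))`.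
(1) `J ≤ p_k`: `θ_k (rel i0 j P) = rel i0 j (comp2 (itp (f i0) (m k)) (itp (f j) (m k)) P)`, divisible by `rel i0 j P ∈ p` (`dvd_comp2_iterate`).
(2) `x_{i0}` is transcendental modulo `p_k`: `aeval (X i0) c ∈ p_k` means `aeval (X i0) (c.comp (itp (f i0) (m k))) ∈ p`; this vanishes at the infinitely many distinct
    values `orb (f i0) n (α i0)`, `n` in the infinite set of hits, so `c.comp (itp ..) = 0`, so `c = 0`: `itp (f i0) (m k)` has degree `≥ 1`, because `f i0` has degree `≥ 1`
    (the orbit of `α i0` is injective); `comp_eq_zero_iff`.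
(3) `p_k ∈ J.minimalPrimes`: if `J ≤ q ≤ p_k`, `q` prime, and `u ∈ p_k \ q`, then `exists_elim` for `q` (`x_{i0}` is transcendental mod `q ≤ p_k` too) gives `c ≠ 0` with
    `c(x_{i0}) ∈ q ⊔ (u) ≤ p_k`, contradiction to (2).
(4) `Ideal.finite_minimalPrimes_of_isNoetherianRing`: there are `k < l` with `p_k = p_l`. `ℓ = l - k`. `p_{i+1} = comap θ_1 p_i`, so `p_{i+ℓ} = p_i` for all `i ≥ k`. Let `i* ≥ k` be a multiple of
    `ℓ` (`i* = k ℓ`); `p_{i* + ℓ s} = p_{i*}` for all `s`. `M := m ℓ`.
(5) It is enough (`EP.of_classes`, `M > 0`) that in every residue class mod `M` the set of hits is finite or contains all large elements. Suppose the class of `n1` (a hit) contains infinitely many hits.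
    For all `s`: `Φ^(n1 + m (i* + ℓ s))(α) ∈ V(p_{i*+ℓ s}) = V(p_{i*})` [`z ∈ V(p)` gives `Φ^(m i)(z) ∈ V(p_i)`]. So all large `n` in the class have `Φ^n(α) ∈ V(p_{i*})` (`m i* ≡ 0 mod M`).
    CLAIM `p ≤ p_{i*}`: if `u ∈ p \ p_{i*}`, `exists_elim` gives `c ≠ 0` with `c(x_{i0}) ∈ p_{i*} ⊔ (u)`, which vanishes at `Φ^n(α)` for infinitely many `n` (hits in the class which are large), whose
    `i0`-coordinates are distinct: `c = 0`, contradiction. So `V(p_{i*}) ⊂ V(p)` and all large `n` in the class are hits.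
-/

set_option autoImplicit false

namespace Pool.Agent.Helper59.DX

open Polynomial Pool.Agent.Helper59.DML

private noncomputable def th {N : ℕ} (f : Fin N → ℂ[X]) (n : ℕ) :
    MvPolynomial (Fin N) ℂ →ₐ[ℂ] MvPolynomial (Fin N) ℂ :=
  MvPolynomial.aeval fun j => aeval (MvPolynomial.X j) (itp (f j) n)

private theorem th_X {N : ℕ} (f : Fin N → ℂ[X]) (n : ℕ) (j : Fin N) :
    th f n (MvPolynomial.X j) = aeval (MvPolynomial.X j) (itp (f j) n) := by
  simp [th]

private theorem th_aeval {N : ℕ} (f : Fin N → ℂ[X]) (n : ℕ) (j : Fin N) (c : ℂ[X]) :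
    th f n (aeval (MvPolynomial.X j) c) = aeval (MvPolynomial.X j) (c.comp (itp (f j) n)) := by
  rw [← Polynomial.aeval_algHom_apply, th_X, Polynomial.aeval_comp]

private theorem eval_aeval_X {N : ℕ} (z : Fin N → ℂ) (j : Fin N) (c : ℂ[X]) :
    MvPolynomial.eval z (aeval (MvPolynomial.X j) c) = c.eval (z j) := by
  have h := (Polynomial.aeval_algHom_apply (MvPolynomial.aeval z : MvPolynomial (Fin N) ℂ →ₐ[ℂ] ℂ)
    (MvPolynomial.X j) c).symm
  rw [MvPolynomial.aeval_X, Polynomial.coe_aeval_eq_eval] at h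
  rw [← h]
  rfl

private theorem eval_th {N : ℕ} (f : Fin N → ℂ[X]) (n : ℕ) (z : Fin N → ℂ)
    (u : MvPolynomial (Fin N) ℂ) :
    MvPolynomial.eval z (th f n u) = MvPolynomial.eval (fun j => orb (f j) n (z j)) u := by
  have h : (MvPolynomial.aeval z : MvPolynomial (Fin N) ℂ →ₐ[ℂ] ℂ).comp (th f n) =
      MvPolynomial.aeval (fun j => orb (f j) n (z j)) := by
    apply MvPolynomial.algHom_ext
    intro j
    rw [AlgHom.comp_apply, th_X, MvPolynomial.aeval_X]
    have := eval_aeval_X z j (itp (f j) n)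
    rw [itp_eval] at this
    rw [← this]
    rfl
  have h2 := DFunLike.congr_fun h u
  simpa [MvPolynomial.coe_aeval_eq_eval] using h2

private theorem th_th {N : ℕ} (f : Fin N → ℂ[X]) (a b : ℕ) (u : MvPolynomial (Fin N) ℂ) :
    th f a (th f b u) = th f (a + b) u := by
  have h : (th f a).comp (th f b) = th f (a + b) := by
    apply MvPolynomial.algHom_ext
    intro j
    rw [AlgHom.comp_apply, th_X, th_aeval, th_X, ← itp_add, add_comm]
  exact DFunLike.congr_fun h u

private theorem comp2_monomial (F G : ℂ[X]) (n : ℕ) (c : ℂ[X]) :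
    comp2 F G (monomial n c) = C (c.comp F) * (G.map C) ^ n := by
  unfold comp2
  rw [Polynomial.map_monomial, Polynomial.monomial_comp]
  rfl

private theorem rel_monomial {N : ℕ} (i j : Fin N) (n : ℕ) (c : ℂ[X]) :
    rel i j (monomial n c) = aeval (MvPolynomial.X i) c * (MvPolynomial.X j) ^ n := by
  unfold rel
  rw [← Polynomial.C_mul_X_pow_eq_monomial, map_mul, map_pow, aevalAeval_C, aevalAeval_Y]

private theorem rel_map_C {N : ℕ} (i j : Fin N) (G : ℂ[X]) :
    rel i j (G.map C) = aeval (MvPolynomial.X j) G := by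
  induction G using Polynomial.induction_on' with
  | add p q hp hq => 
    rw [Polynomial.map_add]
    unfold rel at hp hq ⊢
    rw [map_add, map_add, hp, hq]
  | monomial n a =>
    rw [Polynomial.map_monomial, rel_monomial, aeval_C, aeval_monomial]

private theorem th_rel {N : ℕ} (f : Fin N → ℂ[X]) (n : ℕ) (i j : Fin N) (P : ℂ[X][X]) :
    th f n (rel i j P) = rel i j (comp2 (itp (f i) n) (itp (f j) n) P) := by
  induction P using Polynomial.induction_on' with
  | add p q hp hq =>
    have e : comp2 (itp (f i) n) (itp (f j) n) (p + q) =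
        comp2 (itp (f i) n) (itp (f j) n) p + comp2 (itp (f i) n) (itp (f j) n) q := by
      simp [comp2]
    rw [e]
    unfold rel at hp hq ⊢
    rw [map_add, map_add, map_add, hp, hq]
  | monomial k c =>
    rw [rel_monomial, comp2_monomial, map_mul, map_pow, th_aeval, th_X]
    unfold rel
    rw [map_mul, map_pow, aevalAeval_C]
    congr 2
    exact (rel_map_C i j _).symm

private theorem natDegree_ne_zero_of_inj {g : ℂ[X]} {a : ℂ}
    (h0 : Function.Injective fun n => orb g n a) : g.natDegree ≠ 0 := by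
  intro h
  have hC := Polynomial.eq_C_of_natDegree_eq_zero h
  have : (1 : ℕ) = 2 := by
    apply h0
    show orb g 1 a = orb g 2 a
    rw [orb_succ, orb_succ, hC]
    simp
  omega

private theorem itp_natDegree_ne_zero {g : ℂ[X]} {a : ℂ}
    (h0 : Function.Injective fun n => orb g n a) (n : ℕ) : (itp g n).natDegree ≠ 0 := by
  rw [itp_natDegree]
  exact pow_ne_zero _ (natDegree_ne_zero_of_inj h0)

private theorem eq_zero_of_hits {g : ℂ[X]} {a : ℂ} (h0 : Function.Injective fun n => orb g n a)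
    {S : Set ℕ} (hS : S.Infinite) (c : ℂ[X]) (hc : ∀ n ∈ S, c.eval (orb g n a) = 0) : c = 0 := by
  apply Polynomial.eq_zero_of_infinite_isRoot
  refine (hS.image (f := fun n => orb g n a) h0.injOn).mono ?_
  rintro _ ⟨n, hn, rfl⟩
  exact hc n hn

private theorem trans_pk {N : ℕ} (f : Fin N → ℂ[X]) (α : Fin N → ℂ) (i0 : Fin N)
    (h0 : Function.Injective fun n => orb (f i0) n (α i0)) (p : Ideal (MvPolynomial (Fin N) ℂ))
    (hinf : {n | ∀ u ∈ p, MvPolynomial.eval (fun j => orb (f j) n (α j)) u = 0}.Infinite)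
    (n : ℕ) (c : ℂ[X]) (hc : th f n (aeval (MvPolynomial.X i0) c) ∈ p) : c = 0 := by
  rw [th_aeval] at hc
  have h1 : c.comp (itp (f i0) n) = 0 := by
    apply eq_zero_of_hits h0 hinf
    intro k hk
    have := hk _ hc
    rwa [eval_aeval_X] at this
  rw [Polynomial.comp_eq_zero_iff] at h1
  rcases h1 with h1 | ⟨-, h1⟩
  · exact h1
  · exact absurd (by rw [h1]; exact natDegree_C _) (itp_natDegree_ne_zero h0 n)

theorem ep_of_invariant {N : ℕ} (f : Fin N → ℂ[X]) (α : Fin N → ℂ) (i0 : Fin N)
    (h0 : Function.Injective fun n => orb (f i0) n (α i0)) (p : Ideal (MvPolynomial (Fin N) ℂ))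
    (hp : p.IsPrime) (hinf : {n | ∀ u ∈ p, MvPolynomial.eval (fun j => orb (f j) n (α j)) u = 0}.Infinite)
    (P : Fin N → ℂ[X][X]) (hP0 : ∀ j, P j ≠ 0) (hP : ∀ j, rel i0 j (P j) ∈ p) (m : ℕ) (hm : 0 < m)
    (hinv : ∀ j, P j ∣ comp2 (itp (f i0) m) (itp (f j) m) (P j)) :
    EP (fun n => ∀ u ∈ p, MvPolynomial.eval (fun j => orb (f j) n (α j)) u = 0) := by
  classical
  -- the ideals `p_k`
  set pk : ℕ → Ideal (MvPolynomial (Fin N) ℂ) := fun k => p.comap (th f (m * k)) with hpk
  have mem_pk : ∀ k u, u ∈ pk k ↔ th f (m * k) u ∈ p := fun k u => Iff.rfl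
  have hprime : ∀ k, (pk k).IsPrime := fun k => Ideal.comap_isPrime _ _
  set J : Ideal (MvPolynomial (Fin N) ℂ) := Ideal.span (Set.range fun j => rel i0 j (P j)) with hJ
  have hJle : ∀ k, J ≤ pk k := by
    intro k
    rw [hJ, Ideal.span_le]
    rintro _ ⟨j, rfl⟩
    show th f (m * k) (rel i0 j (P j)) ∈ p
    rw [th_rel]
    obtain ⟨Q, hQ⟩ := dvd_comp2_iterate (hinv j) k
    rw [hQ]
    unfold rel
    rw [map_mul]
    exact Ideal.mul_mem_right _ _ (hP j)
  have htr : ∀ k (c : ℂ[X]), aeval (MvPolynomial.X i0 : MvPolynomial (Fin N) ℂ) c ∈ pk k → c = 0 :=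
    fun k c hc => trans_pk f α i0 h0 p hinf (m * k) c hc
  have hmin : ∀ k, pk k ∈ J.minimalPrimes := by
    intro k
    refine ⟨⟨hprime k, hJle k⟩, ?_⟩
    rintro q ⟨hq, hJq⟩ hqk
    by_contra hcon
    obtain ⟨u, huk, huq⟩ := Set.not_subset.1 hcon
    have hq' : q ≤ pk k := hqk
    obtain ⟨c, hc0, hc⟩ := exists_elim i0 q hq (fun c hc => htr k c (hq' hc)) P hP0
      (fun j => hJq (Ideal.subset_span ⟨j, rfl⟩)) u huq
    apply hc0
    apply htr k c
    have : q ⊔ Ideal.span {u} ≤ pk k := sup_le hq' ((Ideal.span_singleton_le_iff_mem _).2 huk)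
    exact this hc
  obtain ⟨k, l, hkl, hkl'⟩ := Set.Finite.exists_lt_map_eq_of_forall_mem hmin
    (Ideal.finite_minimalPrimes_of_isNoetherianRing _ J)
  -- periodicity
  have hadd : ∀ a b u, u ∈ pk (a + b) ↔ th f (m * b) u ∈ pk a := by
    intro a b u
    rw [mem_pk, mem_pk, th_th, ← mul_add]
  have hper : ∀ s, pk (k + s) = pk (l + s) := by
    intro s
    ext u
    rw [hadd, hadd, hkl']
  obtain ⟨d, hd⟩ : ∃ d, l = k + d := ⟨l - k, by omega⟩
  have hd0 : 0 < d := by omega
  have hper1 : ∀ i, k ≤ i → pk (i + d) = pk i := by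
    intro i hi
    obtain ⟨s, rfl⟩ := Nat.exists_eq_add_of_le hi
    rw [hper s, hd]
    congr 1
    ring
  have hper2 : ∀ s, pk (k * d + d * s) = pk (k * d) := by
    intro s
    induction s with
    | zero => simp
    | succ s ih =>
      rw [← ih, ← hper1 (k * d + d * s) ((Nat.le_mul_of_pos_right k hd0).trans (Nat.le_add_right _ _))]
      congr 1
      ring
  have hM : 0 < m * d := Nat.mul_pos hm hd0
  apply EP.of_classes hM
  intro j _
  by_cases hfin : {s | ∀ u ∈ p,
      MvPolynomial.eval (fun i => orb (f i) (m * d * s + j) (α i)) u = 0}.Finite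
  · -- finitely many hits in the class
    obtain ⟨B, hB⟩ := hfin.bddAbove
    refine ⟨B + 1, 1, one_pos, fun n hn => ?_⟩
    constructor
    · intro h
      have := hB h
      omega
    · intro h
      have := hB h
      omega
  · -- infinitely many hits in the class
    have hinf' : {s | ∀ u ∈ p,
      MvPolynomial.eval (fun i => orb (f i) (m * d * s + j) (α i)) u = 0}.Infinite := hfin
    obtain ⟨s1, hs1⟩ := hinf'.nonempty
    have key : ∀ t, s1 + k ≤ t → ∀ u ∈ pk (k * d),
        MvPolynomial.eval (fun i => orb (f i) (m * d * t + j) (α i)) u = 0 := by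
      intro t ht u hu
      obtain ⟨s, rfl⟩ := Nat.exists_eq_add_of_le ht
      rw [← hper2 s, mem_pk] at hu
      have h1 := hs1 _ hu
      rw [eval_th] at h1
      rw [← h1]
      congr 2
      ext i
      rw [← orb_add]
      congr 1
      ring
    have hle : p ≤ pk (k * d) := by
      intro u hu
      by_contra hu'
      obtain ⟨c, hc0, hc⟩ := exists_elim i0 (pk (k * d)) (hprime _) (htr _) P hP0
        (fun j => hJle _ (Ideal.subset_span ⟨j, rfl⟩)) u hu'
      apply hc0
      have hinf'' : ((fun s => m * d * s + j) '' ({s | ∀ u ∈ p,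
          MvPolynomial.eval (fun i => orb (f i) (m * d * s + j) (α i)) u = 0} \ Set.Iio (s1 + k))).Infinite := by
        apply Set.Infinite.image
        · intro a _ b _ hab
          have hab' : m * d * a + j = m * d * b + j := hab
          exact Nat.eq_of_mul_eq_mul_left hM (by omega)
        · exact hinf'.sdiff (Set.finite_Iio _)
      apply eq_zero_of_hits h0 hinf'' c
      rintro _ ⟨s, ⟨hs, hs'⟩, rfl⟩
      have hs2 : s1 + k ≤ s := by simpa using hs'
      have h3 := key s hs2
      have h4 : ∀ v ∈ pk (k * d) ⊔ Ideal.span {u},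
          MvPolynomial.eval (fun i => orb (f i) (m * d * s + j) (α i)) v = 0 := by
        intro v hv
        have : pk (k * d) ⊔ Ideal.span {u} ≤
            RingHom.ker (MvPolynomial.eval (fun i => orb (f i) (m * d * s + j) (α i))) := by
          refine sup_le (fun w hw => h3 w hw) ?_
          rw [Ideal.span_singleton_le_iff_mem]
          exact hs u hu
        exact this hv
      have h5 := h4 _ hc
      rwa [eval_aeval_X] at h5
    refine ⟨s1 + k, 1, one_pos, fun n hn => ?_⟩
    constructor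
    · intro _ u hu
      exact key (n + 1) (by omega) u (hle hu)
    · intro _ u hu
      exact key n hn u (hle hu)

end Pool.Agent.Helper59.DX
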