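import Pool.Agent.Helper59.DX.NCDep
import Pool.Agent.Helper59.DX.NCPer

/-!
# DX-NCPRIME: `N` coordinates from the plane case

`PlaneStatement` is the plane theorem (0.3).

`ep_prime` PROOF. Let `S n` be the property in the statement (`Φ^n(α) ∈ V(p)`). If `{n | S n}` is finite: `EP` (`n₀` large, period `1`). Otherwise:
CASE A: for every `i` the orbit of `α i` is not injective: then every `n ↦ orb (f i) n (α i)` is eventually periodic (`orb i = orb j`, `i < j`, gives period `j - i` from `i` on), so
  `n ↦ Φ^n(α)` is eventually periodic with the product of the periods, so `EP`.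
CASE B: there is `i0` with an injective orbit. `A = MvPolynomial (Fin N) ℂ ⧸ p`, `ringKrullDim A = 1`. For every `j` we find `P_j ≠ 0`, `m_j > 0` with `rel i0 j P_j ∈ p`, and
  `P_j ∣ comp2 (itp (f i0) m_j) (itp (f j) m_j) P_j`; then `m = ∏ m_j`, `dvd_comp2_iterate` and `ep_of_invariant` finish the proof.
  (B1) the orbit of `α j` is injective: `exists_irreducible_relation` for the classes `u, w` of `x_{i0}, x_j` in `A` gives `P_j` irreducible with `rel i0 j P_j ∈ p`
     (`Ideal.Quotient.eq_zero_iff_mem`, `aevalAeval` commutes with the quotient map). It vanishes at `(orb (f i0) n (α i0), orb (f j) n (α j))` for all hits `n`, so `PlaneStatement` applies.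
  (B2) otherwise `n ↦ orb (f j) n (α j)` takes finitely many values (`Set.Finite`, eventually periodic), so there is `c` with `orb (f j) n (α j) = c` for infinitely many hits `n`
     (pigeonhole). `P_j := X - C (C c)`. `rel i0 j P_j = X j - C c =: u`. Suppose `u ∉ p`. `exists_irreducible_relation` for the classes of `x_{i0}` and `u` in `A` gives `P` irreducible with
     `P(x_{i0}, u) ∈ p`. If `P.coeff 0 = 0` then `X ∣ P`, `P` is associated to `X` and `u ∈ p`: contradiction. So `c0 := P.coeff 0 ≠ 0` and `c0(x_{i0}) ∈ (u) + p` vanishes at the infinitely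
     many hits `n` with `orb (f j) n (α j) = c`, at distinct values of `x_{i0}`: `c0 = 0`, contradiction. Period: two such `n < n'` give `orb (f j) (n'-n) c = c`, `m_j = n' - n`;
     `comp2 (itp (f i0) m_j) (itp (f j) m_j) (X - C (C c)) = (itp (f j) m_j - C c).map C`, and `X - C c ∣ itp (f j) m_j - C c` as `c` is a root (`itp_eval`); apply `Polynomial.map C`.
-/

set_option autoImplicit false

namespace Pool.Agent.Helper59.DX

open Polynomial Pool.Agent.Helper59.DML

/-- the plane case. -/
def PlaneStatement : Prop :=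
  ∀ (f g : ℂ[X]) (a b : ℂ), (Function.Injective fun n => orb f n a) → (Function.Injective fun n => orb g n b) →
    ∀ P : ℂ[X][X], Irreducible P → {n | P.evalEval (orb f n a) (orb g n b) = 0}.Infinite →
    ∃ m, 0 < m ∧ P ∣ comp2 (itp f m) (itp g m) P

private theorem map_aevalAeval {A B : Type} [CommRing A] [CommRing B] [Algebra ℂ A] [Algebra ℂ B]
    (φ : A →ₐ[ℂ] B) (u w : A) (P : ℂ[X][X]) :
    φ (aevalAeval u w P) = aevalAeval (φ u) (φ w) P := by
  have h : φ.comp (aevalAeval u w) = aevalAeval (φ u) (φ w) := by
    have := (aevalAevalEquiv ℂ B).apply_symm_apply (φ.comp (aevalAeval u w))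
    rw [← this]
    congr 1
    simp
  exact DFunLike.congr_fun h P

private theorem aevalAeval_eq (x y : ℂ) (P : ℂ[X][X]) : aevalAeval x y P = P.evalEval x y :=
  congrFun (coe_aevalAeval_eq_evalEval x y) P

private theorem eval_aevalAeval {N : ℕ} (z : Fin N → ℂ) (u w : MvPolynomial (Fin N) ℂ) (P : ℂ[X][X]) :
    MvPolynomial.eval z (aevalAeval u w P) =
      P.evalEval (MvPolynomial.eval z u) (MvPolynomial.eval z w) := by
  have h := map_aevalAeval (MvPolynomial.aeval z : MvPolynomial (Fin N) ℂ →ₐ[ℂ] ℂ) u w P
  rw [aevalAeval_eq] at h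
  simpa [MvPolynomial.coe_aeval_eq_eval] using h

private theorem eventually_periodic {f : ℂ[X]} {a : ℂ} (h : ¬ Function.Injective fun n => orb f n a) :
    ∃ i P, 0 < P ∧ ∀ n, i ≤ n → orb f (n + P) a = orb f n a := by
  have key : ∀ i j, i < j → orb f i a = orb f j a →
      ∃ i P, 0 < P ∧ ∀ n, i ≤ n → orb f (n + P) a = orb f n a := by
    intro i j hij he
    refine ⟨i, j - i, by omega, fun n hn => ?_⟩
    have e1 : n + (j - i) = (n - i) + j := by omega
    have e2 : n = (n - i) + i := by omega
    rw [e1, orb_add, ← he, ← orb_add, ← e2]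
  simp only [Function.Injective] at h
  push Not at h
  obtain ⟨i, j, he, hne⟩ := h
  rcases lt_or_gt_of_ne hne with h1 | h1
  · exact key i j h1 he
  · exact key j i h1 he.symm

private theorem periodic_mul {f : ℂ[X]} {a : ℂ} {i P : ℕ}
    (h : ∀ n, i ≤ n → orb f (n + P) a = orb f n a) (k n : ℕ) (hn : i ≤ n) :
    orb f (n + P * k) a = orb f n a := by
  induction k with
  | zero => simp
  | succ k ih =>
    have : n + P * (k + 1) = n + P * k + P := by ring
    rw [this, h _ (by omega), ih]

private theorem dvd_const (f g : ℂ[X]) (c : ℂ) (m : ℕ) (h : orb g m c = c) :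
    (X - C (C c) : ℂ[X][X]) ∣ comp2 (itp f m) (itp g m) (X - C (C c)) := by
  have h1 : comp2 (itp f m) (itp g m) (X - C (C c) : ℂ[X][X]) = (itp g m - C c).map C := by
    simp [comp2]
  rw [h1]
  have h2 : (X - C c : ℂ[X]) ∣ itp g m - C c := by
    rw [dvd_iff_isRoot]
    simp [itp_eval, h]
  have h3 := Polynomial.map_dvd (C : ℂ →+* ℂ[X]) h2
  simpa using h3

theorem ep_prime (hplane : PlaneStatement) {N : ℕ} (f : Fin N → ℂ[X]) (α : Fin N → ℂ)
    (p : Ideal (MvPolynomial (Fin N) ℂ)) (hp : p.IsPrime) (hdim : ringKrullDim (MvPolynomial (Fin N) ℂ ⧸ p) = 1) :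
    EP (fun n => ∀ u ∈ p, MvPolynomial.eval (fun j => orb (f j) n (α j)) u = 0) := by
  classical
  set S : ℕ → Prop := fun n => ∀ u ∈ p, MvPolynomial.eval (fun j => orb (f j) n (α j)) u = 0 with hS
  by_cases hinf : {n | S n}.Infinite
  swap
  · rw [Set.not_infinite] at hinf
    obtain ⟨b, hb⟩ := hinf.bddAbove
    refine ⟨b + 1, 1, one_pos, fun n hn => ?_⟩
    constructor
    · intro h
      have := hb h
      omega
    · intro h
      have := hb h
      omega
  by_cases hall : ∀ i, ¬ Function.Injective fun n => orb (f i) n (α i)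
  · choose i0 P hP hper using fun i => eventually_periodic (hall i)
    refine ⟨∑ i, i0 i, ∏ i, P i, Finset.prod_pos fun i _ => hP i, fun n hn => ?_⟩
    have h1 : (fun j => orb (f j) (n + ∏ i, P i) (α j)) = fun j => orb (f j) n (α j) := by
      funext j
      obtain ⟨k, hk⟩ := Finset.dvd_prod_of_mem P (Finset.mem_univ j)
      rw [hk]
      apply periodic_mul (hper j)
      exact (Finset.single_le_sum (f := i0) (fun i _ => Nat.zero_le _) (Finset.mem_univ j)).trans hn
    simp only [hS]
    rw [h1]
  push Not at hall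
  obtain ⟨i0, h0⟩ := hall
  have : IsDomain (MvPolynomial (Fin N) ℂ ⧸ p) := Ideal.Quotient.isDomain p
  set π := Ideal.Quotient.mkₐ ℂ p with hπ
  have hmem : ∀ u, π u = 0 ↔ u ∈ p := fun u => Ideal.Quotient.eq_zero_iff_mem
  have key : ∀ j, ∃ (P : ℂ[X][X]) (m : ℕ), P ≠ 0 ∧ rel i0 j P ∈ p ∧ 0 < m ∧
      P ∣ comp2 (itp (f i0) m) (itp (f j) m) P := by
    intro j
    by_cases hj : Function.Injective fun n => orb (f j) n (α j)
    · obtain ⟨P, hP, hP0⟩ := exists_irreducible_relation hdim.le (π (MvPolynomial.X i0))
        (π (MvPolynomial.X j))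
      rw [← map_aevalAeval, hmem] at hP0
      obtain ⟨m, hm, hdvd⟩ := hplane (f i0) (f j) (α i0) (α j) h0 hj P hP (by
        refine hinf.mono fun n hn => ?_
        have h1 := hn _ hP0
        rw [eval_aevalAeval] at h1
        simpa using h1)
      exact ⟨P, m, hP.ne_zero, hP0, hm, hdvd⟩
    · obtain ⟨i, P, hP, hper⟩ := eventually_periodic hj
      have hfin : (Set.range fun n => orb (f j) n (α j)).Finite := by
        refine ((Finset.range (i + P)).image (fun n => orb (f j) n (α j))).finite_toSet.subset ?_
        rintro _ ⟨n, rfl⟩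
        simp only [Finset.coe_image, Finset.coe_range, Set.mem_image, Set.mem_Iio]
        by_cases hn : n < i
        · exact ⟨n, by omega, rfl⟩
        · refine ⟨i + (n - i) % P, by have := Nat.mod_lt (n - i) hP; omega, ?_⟩
          have h1 := periodic_mul hper ((n - i) / P) (i + (n - i) % P) (by omega)
          rw [← h1]
          congr 2
          have := Nat.mod_add_div (n - i) P
          omega
      obtain ⟨c, hc⟩ : ∃ c, {n | S n ∧ orb (f j) n (α j) = c}.Infinite := by
        by_contra hcon
        push Not at hcon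
        apply hinf
        refine (Set.Finite.biUnion hfin (t := fun c => {n | S n ∧ orb (f j) n (α j) = c})
          (fun c _ => hcon c)).subset ?_
        intro n hn
        exact Set.mem_biUnion (Set.mem_range_self n) ⟨hn, rfl⟩
      have hrel : rel i0 j (X - C (C c)) = MvPolynomial.X j - MvPolynomial.C c := by
        unfold rel
        rw [map_sub, aevalAeval_C]
        simp
      have hu : (MvPolynomial.X j - MvPolynomial.C c : MvPolynomial (Fin N) ℂ) ∈ p := by
        by_contra hu
        obtain ⟨Q, hQ, hQ0⟩ := exists_irreducible_relation hdim.le (π (MvPolynomial.X i0))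
          (π (MvPolynomial.X j - MvPolynomial.C c))
        have hcoeff : Q.coeff 0 ≠ 0 := by
          intro h1
          obtain ⟨T, hT⟩ := X_dvd_iff.2 h1
          rcases hQ.isUnit_or_isUnit hT with h2 | h2
          · exact not_isUnit_X h2
          · rw [hT, map_mul] at hQ0
            have h3 : IsUnit (aevalAeval (π (MvPolynomial.X i0))
              (π (MvPolynomial.X j - MvPolynomial.C c)) T) := h2.map _
            rcases mul_eq_zero.1 hQ0 with h4 | h4
            · rw [aevalAeval_Y, hmem] at h4
              exact hu h4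
            · rw [h4] at h3
              exact not_isUnit_zero h3
        rw [← map_aevalAeval, hmem] at hQ0
        apply hcoeff
        apply eq_zero_of_infinite_isRoot
        refine (hc.image (f := fun n => orb (f i0) n (α i0)) h0.injOn).mono ?_
        rintro _ ⟨n, ⟨hn, hnc⟩, rfl⟩
        have h1 := hn _ hQ0
        rw [eval_aevalAeval] at h1
        simp only [map_sub, MvPolynomial.eval_X, MvPolynomial.eval_C, hnc, sub_self] at h1
        show (Q.coeff 0).eval _ = 0
        rw [← h1]
        unfold evalEval
        rw [map_zero, ← coeff_zero_eq_eval_zero]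
      obtain ⟨n, hn, n', hn', hlt⟩ : ∃ n ∈ {n | S n ∧ orb (f j) n (α j) = c},
          ∃ n' ∈ {n | S n ∧ orb (f j) n (α j) = c}, n < n' := by
        obtain ⟨n, hn⟩ := hc.nonempty
        obtain ⟨n', hn', hlt⟩ := hc.exists_gt n
        exact ⟨n, hn, n', hn', hlt⟩
      refine ⟨X - C (C c), n' - n, X_sub_C_ne_zero _, ?_, by omega, ?_⟩
      · rw [hrel]
        exact hu
      · apply dvd_const
        have e1 : n' = (n' - n) + n := by omega
        have e2 := hn'.2
        rw [e1, orb_add, hn.2] at e2
        exact e2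
  choose P m hP0 hPrel hm hdvd using key
  refine ep_of_invariant f α i0 h0 p hp hinf P hP0 hPrel (∏ j, m j)
    (Finset.prod_pos fun j _ => hm j) fun j => ?_
  obtain ⟨k, hk⟩ := Finset.dvd_prod_of_mem m (Finset.mem_univ j)
  rw [hk]
  exact dvd_comp2_iterate (hdvd j) k

end Pool.Agent.Helper59.DX
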