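import Pool.Agent.Helper59.DX.Roots
import Pool.Agent.Helper59.DX.Growth
import Pool.Agent.Helper59.DX.IntBd
import Pool.Agent.Helper59.DX.MinDeg
import Pool.Agent.Helper59.DX.NBack

/-!
# DX-NCORE: backward orbits contain finitely many points of bounded degree over `ℤ[t]`

PROOF. `B = MvPolynomial (Fin r) ℤ` (integrally closed: it is a UFD), `A = integralClosure B ℂ` (a domain, integral over `B`, `Algebra B A` injective).
For `η` in the set put `w_j = M * orb G j η` (`j ≤ k`); `w_k = M y`. All `w_j` are integral (`integral_back`), so elements of `A`; `w = w_0`.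
(1) `(minpoly B w).natDegree ≤ n`: `q.scaleRoots M` is nonzero, of degree `≤ n`, and kills `w = M η` (`scaleRoots_aeval_eq_zero`/`scaleRoots_eval₂_eq_zero`);
    `minpoly_natDegree_le` (over `A` or `ℂ`; `minpoly` of `w : A` and of `(w : ℂ)` agree: `minpoly.algebraMap_eq` with the injective `A → ℂ`).
(2) BOUND. By `integral_bound` (a constant `C ≥ 1`, `E` for the finitely many elements `M c_i` (`i < d`), `M y`, `M`) there are `C', E'` such that for all
    `v` and `s : A →+* ℂ` over `ev ℤ v`:  `R_s := (1 + ‖s M‖)^(d-1) * (1 + ∑_{i<d} ‖s(M c_i)‖) + ‖s(M y)‖ ≤ C' * sz v ^ E'`.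
    By `step_identity` (an identity in `A`, apply `s`) and `backward_bound`, downward induction on `j`: `‖s w_j‖ ≤ R_s` for all `j ≤ k`. So `‖s w‖ ≤ C' sz v ^ E'`.
    `C', E'` do not depend on `η`, `k`.
(3) `roots_lift` and `minpoly_growth` bound all coefficients of `minpoly B w : B[X]`: `‖ev ℤ v (coeff i)‖ ≤ (2C')^n sz v^(E' n)`. By `finite_of_growth` every
    coefficient lies in a fixed finite set, so (degree `≤ n`) `minpoly B w` lies in a finite set of (monic) polynomials (`Set.Finite` of polynomials of bounded degree with coefficients in a finite set: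
    injection into functions `Fin (n+1) → B`). Each has finitely many roots in `ℂ`, so `w` lies in a finite set and `η = w / M` too.
-/
set_option autoImplicit false

namespace Pool.Agent.Helper59.DX

open Polynomial

section NCaux

variable {r : ℕ} {A : Type*} [CommRing A] [Algebra (MvPolynomial (Fin r) ℤ) A]

/-- polynomial bound for a nonnegative function of the specialisation. -/
private def NcPB (f : (A →+* ℂ) → ℝ) : Prop :=
  (∀ s, 0 ≤ f s) ∧ ∃ (C : ℝ) (E : ℕ), 1 ≤ C ∧ ∀ (v : Fin r → ℤ) (s : A →+* ℂ),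
    s.comp (algebraMap (MvPolynomial (Fin r) ℤ) A) = ev ℤ v → f s ≤ C * sz v ^ E

private theorem ncPB_const (c : ℝ) (hc : 0 ≤ c) : NcPB (r := r) (A := A) (fun _ => c) := by
  refine ⟨fun _ => hc, max c 1, 0, le_max_right _ _, fun v s _ => ?_⟩
  simp

private theorem ncPB_add {f g : (A →+* ℂ) → ℝ} (hf : NcPB (r := r) f) (hg : NcPB (r := r) g) :
    NcPB (r := r) (fun s => f s + g s) := by
  obtain ⟨hf0, C1, E1, hC1, h1⟩ := hf
  obtain ⟨hg0, C2, E2, hC2, h2⟩ := hg
  refine ⟨fun s => add_nonneg (hf0 s) (hg0 s), C1 + C2, E1 + E2, by linarith, fun v s hs => ?_⟩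
  have hz := one_le_sz v
  have e1 : f s ≤ C1 * sz v ^ (E1 + E2) :=
    (h1 v s hs).trans (mul_le_mul_of_nonneg_left (pow_le_pow_right₀ hz (by omega)) (by linarith))
  have e2 : g s ≤ C2 * sz v ^ (E1 + E2) :=
    (h2 v s hs).trans (mul_le_mul_of_nonneg_left (pow_le_pow_right₀ hz (by omega)) (by linarith))
  show f s + g s ≤ (C1 + C2) * sz v ^ (E1 + E2)
  linarith [add_mul C1 C2 (sz v ^ (E1 + E2))]

private theorem ncPB_mul {f g : (A →+* ℂ) → ℝ} (hf : NcPB (r := r) f) (hg : NcPB (r := r) g) :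
    NcPB (r := r) (fun s => f s * g s) := by
  obtain ⟨hf0, C1, E1, hC1, h1⟩ := hf
  obtain ⟨hg0, C2, E2, hC2, h2⟩ := hg
  refine ⟨fun s => mul_nonneg (hf0 s) (hg0 s), C1 * C2, E1 + E2, by nlinarith, fun v s hs => ?_⟩
  have hz : 0 ≤ sz v := by linarith [one_le_sz v]
  calc f s * g s ≤ (C1 * sz v ^ E1) * (C2 * sz v ^ E2) :=
        mul_le_mul (h1 v s hs) (h2 v s hs) (hg0 s) (by positivity)
    _ = C1 * C2 * sz v ^ (E1 + E2) := by rw [pow_add]; ring

private theorem ncPB_pow {f : (A →+* ℂ) → ℝ} (hf : NcPB (r := r) f) (n : ℕ) :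
    NcPB (r := r) (fun s => f s ^ n) := by
  induction n with
  | zero => simpa using ncPB_const (r := r) (A := A) 1 (by norm_num)
  | succ n ih =>
    have := ncPB_mul ih hf
    simpa [pow_succ] using this

private theorem ncPB_sum {f : ℕ → (A →+* ℂ) → ℝ} (d : ℕ) (hf : ∀ i, NcPB (r := r) (f i)) :
    NcPB (r := r) (fun s => ∑ i ∈ Finset.range d, f i s) := by
  induction d with
  | zero => simpa using ncPB_const (r := r) (A := A) 0 le_rfl
  | succ d ih =>
    have := ncPB_add ih (hf d)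
    simpa [Finset.sum_range_succ] using this

private theorem ncPB_norm (u : A) (hu : IsIntegral (MvPolynomial (Fin r) ℤ) u) :
    NcPB (r := r) (fun s : A →+* ℂ => ‖s u‖) := by
  refine ⟨fun _ => norm_nonneg _, ?_⟩
  exact integral_bound u hu

end NCaux

private theorem nc_finite_polys {B : Type*} [CommRing B] (S : Set B) (hS : S.Finite) (n : ℕ) :
    {p : B[X] | p.natDegree ≤ n ∧ ∀ i, p.coeff i ∈ S}.Finite := by
  refine Set.Finite.of_finite_image (f := fun p : B[X] => fun i : Fin (n + 1) => p.coeff i) ?_ ?_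
  · refine (Set.Finite.pi' (t := fun _ : Fin (n + 1) => S) (fun _ => hS)).subset ?_
    rintro _ ⟨p, hp, rfl⟩
    exact fun i => hp.2 i
  · intro p hp p' hp' h
    ext i
    rcases Nat.lt_or_ge n i with hi | hi
    · rw [coeff_eq_zero_of_natDegree_lt (lt_of_le_of_lt hp.1 hi),
        coeff_eq_zero_of_natDegree_lt (lt_of_le_of_lt hp'.1 hi)]
    · exact congrFun h ⟨i, by omega⟩

theorem northcott_core {r : ℕ} [Algebra (MvPolynomial (Fin r) ℤ) ℂ]
    (hinj : Function.Injective (algebraMap (MvPolynomial (Fin r) ℤ) ℂ)) {G : ℂ[X]} (hG : G.Monic)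
    (hd : 2 ≤ G.natDegree) (y : ℂ) (M : MvPolynomial (Fin r) ℤ) (hM : M ≠ 0)
    (hc : ∀ i < G.natDegree, IsIntegral (MvPolynomial (Fin r) ℤ) (algebraMap _ ℂ M * G.coeff i))
    (hy : IsIntegral (MvPolynomial (Fin r) ℤ) (algebraMap _ ℂ M * y)) (n : ℕ) :
    {η : ℂ | (∃ k, orb G k η = y) ∧
      ∃ q : (MvPolynomial (Fin r) ℤ)[X], q ≠ 0 ∧ q.natDegree ≤ n ∧ aeval η q = 0}.Finite := by
  classical
  -- the integral closure
  let A := integralClosure (MvPolynomial (Fin r) ℤ) ℂ
  have hAinj : Function.Injective (algebraMap (MvPolynomial (Fin r) ℤ) A) := by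
    intro a b hab
    apply hinj
    have h1 := congrArg (fun z : A => (z : ℂ)) hab
    exact h1
  have hAint : ∀ u : A, IsIntegral (MvPolynomial (Fin r) ℤ) u := fun u =>
    Algebra.IsIntegral.isIntegral u
  set d := G.natDegree with hddef
  let MA : A := algebraMap (MvPolynomial (Fin r) ℤ) A M
  let My : A := ⟨algebraMap _ ℂ M * y, hy⟩
  let Mc : ℕ → A := fun i => if h : i < d then ⟨algebraMap _ ℂ M * G.coeff i, hc i h⟩ else 0
  have hMAc : (MA : ℂ) = algebraMap _ ℂ M := rfl
  have hMyc : (My : ℂ) = algebraMap _ ℂ M * y := rfl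
  have hMcc : ∀ i < d, (Mc i : ℂ) = algebraMap _ ℂ M * G.coeff i := by
    intro i hi
    simp only [Mc, dif_pos hi]
  -- the bound
  let Rb : (A →+* ℂ) → ℝ := fun s =>
    (1 + ‖s MA‖) ^ (d - 1) * (1 + ∑ i ∈ Finset.range d, ‖s (Mc i)‖) + ‖s My‖
  have hRb : NcPB (r := r) Rb := by
    refine ncPB_add (ncPB_mul (ncPB_pow (ncPB_add (ncPB_const 1 zero_le_one) (ncPB_norm MA (hAint _))) _)
      (ncPB_add (ncPB_const 1 zero_le_one) (ncPB_sum d fun i => ncPB_norm (Mc i) (hAint _))))
      (ncPB_norm My (hAint _))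
  obtain ⟨-, C, E, hC, hCE⟩ := hRb
  -- finite set of polynomials
  have hS := finite_of_growth r ((2 * C) ^ n) (E * n)
  set S := {c : MvPolynomial (Fin r) ℤ | ∀ v : Fin r → ℤ, ‖ev ℤ v c‖ ≤ (2 * C) ^ n * sz v ^ (E * n)}
    with hSdef
  have hP := nc_finite_polys S hS n
  set PS := {p : (MvPolynomial (Fin r) ℤ)[X] | p.natDegree ≤ n ∧ ∀ i, p.coeff i ∈ S} with hPdef
  have hW : (⋃ p ∈ PS, {x : ℂ | p.Monic ∧ aeval x p = 0}).Finite := by
    refine hP.biUnion fun p _ => ?_
    refine (Polynomial.rootSet_finite p ℂ).subset ?_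
    rintro x ⟨hx1, hx2⟩
    rw [Polynomial.mem_rootSet']
    exact ⟨(hx1.map _).ne_zero, hx2⟩
  have hM0 : algebraMap (MvPolynomial (Fin r) ℤ) ℂ M ≠ 0 := by
    intro h
    exact hM (hinj (by rw [h, map_zero]))
  refine (hW.preimage (f := fun x : ℂ => algebraMap (MvPolynomial (Fin r) ℤ) ℂ M * x)
    (fun a _ b _ hab => mul_left_cancel₀ hM0 hab)).subset ?_
  rintro η ⟨⟨k, hk⟩, q, hq0, hqn, hq⟩
  -- integrality of all the points of the orbit
  have hint : ∀ j ≤ k, IsIntegral (MvPolynomial (Fin r) ℤ)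
      (algebraMap (MvPolynomial (Fin r) ℤ) ℂ M * orb G j η) := by
    intro j hj
    refine integral_back hG (by omega) M hc (k - j) (orb G j η) ?_
    rw [← orb_add, Nat.sub_add_cancel hj, hk]
    exact hy
  let w : A := ⟨algebraMap _ ℂ M * orb G 0 η, hint 0 (Nat.zero_le _)⟩
  have hwc : (w : ℂ) = algebraMap _ ℂ M * η := rfl
  -- bound for the specialisations
  have hbound : ∀ s : A →+* ℂ, ∀ i ≤ k, ∀ u : A, (u : ℂ) = algebraMap _ ℂ M * orb G (k - i) η →
      ‖s u‖ ≤ Rb s := by
    intro s i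
    induction i with
    | zero =>
      intro _ u hu
      have hu' : u = My := by
        apply Subtype.ext
        rw [hu, hMyc, Nat.sub_zero, hk]
      rw [hu']
      have h0 : 0 ≤ (1 + ‖s MA‖) ^ (d - 1) * (1 + ∑ i ∈ Finset.range d, ‖s (Mc i)‖) := by
        positivity
      show ‖s My‖ ≤ (1 + ‖s MA‖) ^ (d - 1) * (1 + ∑ i ∈ Finset.range d, ‖s (Mc i)‖) + ‖s My‖
      linarith
    | succ i ih =>
      intro hi u hu
      let u' : A := ⟨algebraMap _ ℂ M * orb G (k - i) η, hint (k - i) (Nat.sub_le _ _)⟩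
      have hu'c : (u' : ℂ) = algebraMap _ ℂ M * orb G (k - i) η := rfl
      have h1 := ih (by omega) u' rfl
      have hstep : orb G (k - i) η = G.eval (orb G (k - (i + 1)) η) := by
        rw [← orb_succ]
        congr 2
        omega
      have hid : u ^ d + ∑ i ∈ Finset.range d, Mc i * MA ^ (d - 1 - i) * u ^ i = MA ^ (d - 1) * u' := by
        apply Subtype.ext
        push_cast
        rw [hu, hu'c, hMAc, hstep]
        rw [← step_identity hG (by omega) (algebraMap _ ℂ M) (orb G (k - (i + 1)) η)]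
        congr 1
        refine Finset.sum_congr rfl fun j hj => ?_
        rw [hMcc j (Finset.mem_range.1 hj)]
      have hid2 := congrArg s hid
      rw [map_add, map_sum, map_mul, map_pow, map_pow] at hid2
      have hid3 : (s u) ^ d + ∑ i ∈ Finset.range d, s (Mc i) * (s MA) ^ (d - 1 - i) * (s u) ^ i =
          (s MA) ^ (d - 1) * s u' := by
        rw [← hid2]
        congr 1
        refine Finset.sum_congr rfl fun j _ => ?_
        rw [map_mul, map_mul, map_pow, map_pow]
      refine backward_bound hd (s MA) (s u) (s u') (fun i => s (Mc i)) (Rb s) hid3 ?_ h1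
      show (1 + ‖s MA‖) ^ (d - 1) * (1 + ∑ i ∈ Finset.range d, ‖s (Mc i)‖) ≤
        (1 + ‖s MA‖) ^ (d - 1) * (1 + ∑ i ∈ Finset.range d, ‖s (Mc i)‖) + ‖s My‖
      linarith [norm_nonneg (s My)]
  have hbw : ∀ (v : Fin r → ℤ) (s : A →+* ℂ),
      s.comp (algebraMap (MvPolynomial (Fin r) ℤ) A) = ev ℤ v → ‖s w‖ ≤ C * sz v ^ E := by
    intro v s hs
    refine (hbound s k le_rfl w ?_).trans (hCE v s hs)
    rw [Nat.sub_self]
  -- degree
  have hdeg : (minpoly (MvPolynomial (Fin r) ℤ) w).natDegree ≤ n := by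
    have h1 : aeval (algebraMap (MvPolynomial (Fin r) ℤ) ℂ M * η) (q.scaleRoots M) = 0 :=
      scaleRoots_aeval_eq_zero hq
    have h2 : aeval w (q.scaleRoots M) = 0 := by
      apply Subtype.val_injective
      have h3 := Polynomial.aeval_algHom_apply A.val w (q.scaleRoots M)
      have h4 : A.val w = algebraMap (MvPolynomial (Fin r) ℤ) ℂ M * η := rfl
      rw [h4, h1] at h3
      exact h3.symm
    have h5 := minpoly_natDegree_le hAinj w (hAint w) (q.scaleRoots M)
      (scaleRoots_ne_zero hq0 M) h2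
    rw [natDegree_scaleRoots] at h5
    exact h5.trans hqn
  have hcoeff := minpoly_growth w (hAint w)
    (fun v ω h => roots_lift hAinj (ev ℤ v) w ω h) hdeg hC hbw
  -- conclusion
  show algebraMap (MvPolynomial (Fin r) ℤ) ℂ M * η ∈ ⋃ p ∈ PS, {x : ℂ | p.Monic ∧ aeval x p = 0}
  rw [Set.mem_iUnion₂]
  refine ⟨minpoly (MvPolynomial (Fin r) ℤ) w, ⟨hdeg, fun i v => hcoeff i v⟩,
    minpoly.monic (hAint w), ?_⟩
  have h3 := Polynomial.aeval_algHom_apply A.val w (minpoly (MvPolynomial (Fin r) ℤ) w)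
  rw [minpoly.aeval, map_zero] at h3
  exact h3

end Pool.Agent.Helper59.DX
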