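import Pool.Agent.Helper59.DX.Defs

/-!
# DX-NS: weak Nullstellensatz with a denominator

PROOF. Let `k = FractionRing A`, `Algebra k K` by `IsFractionRing.lift hinj` (local instance; `IsScalarTower A k K`).
Let `J' = J.map (MvPolynomial.map (algebraMap A k))`. It has no zero in `K^σ` (a zero of `J'` is a zero of `J`), so
`MvPolynomial.zeroLocus K J' = ∅`, its vanishing ideal is `⊤`, so `J'.radical = ⊤` (`MvPolynomial.vanishingIdeal_zeroLocus_eq_radical`)
and `1 ∈ J'`. `MvPolynomial σ k` is a localisation of `MvPolynomial σ A` at the image of `nonZeroDivisors A`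
(Mathlib: `MvPolynomial.isLocalization`), so `1 ∈ J'` gives `C α ∈ J` for some nonzero `α` (`IsLocalization.mem_map_algebraMap_iff`);
or by hand: `Submodule.span_induction` on `1 ∈ Ideal.span (image)` clearing denominators.
-/

set_option autoImplicit false

namespace Pool.Agent.Helper59.DX

open MvPolynomial in
theorem null_denominator {A K σ : Type*} [CommRing A] [IsDomain A] [Field K] [IsAlgClosed K] [Algebra A K]
    (hinj : Function.Injective (algebraMap A K)) [Finite σ] (J : Ideal (MvPolynomial σ A))
    (h : ¬ ∃ z : σ → K, ∀ p ∈ J, MvPolynomial.aeval z p = 0) : ∃ α : A, α ≠ 0 ∧ MvPolynomial.C α ∈ J := by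
  classical
  let k := FractionRing A
  let _ : Algebra k K := (IsFractionRing.lift hinj : k →+* K).toAlgebra
  have hsc : ∀ a : A, algebraMap k K (algebraMap A k a) = algebraMap A K a := by
    intro a
    exact IsFractionRing.lift_algebraMap hinj a
  let _ : Algebra (MvPolynomial σ A) (MvPolynomial σ k) := (MvPolynomial.map (algebraMap A k)).toAlgebra
  have hloc : IsLocalization ((nonZeroDivisors A).map (C (σ := σ) (R := A))) (MvPolynomial σ k) :=
    MvPolynomial.isLocalization (nonZeroDivisors A) k
  set J' : Ideal (MvPolynomial σ k) := J.map (algebraMap (MvPolynomial σ A) (MvPolynomial σ k)) with hJ'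
  have hz : zeroLocus K J' = ∅ := by
    rw [Set.eq_empty_iff_forall_notMem]
    intro z hz
    apply h
    refine ⟨z, fun p hp => ?_⟩
    have h1 : aeval z (MvPolynomial.map (algebraMap A k) p) = 0 :=
      hz _ (Ideal.mem_map_of_mem _ hp)
    have h2 : aeval z (MvPolynomial.map (algebraMap A k) p) = aeval z p := by
      rw [aeval_def, eval₂_map, aeval_def]
      congr 1
      ext a
      exact hsc a
    rw [← h2]
    exact h1
  have htop : J' = ⊤ := by
    have h1 := vanishingIdeal_zeroLocus_eq_radical (K := K) J'
    rw [hz, vanishingIdeal_empty] at h1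
    exact Ideal.radical_eq_top.1 h1.symm
  have h1 : algebraMap (MvPolynomial σ A) (MvPolynomial σ k) 1 ∈ J' := by
    rw [htop]
    trivial
  rw [hJ', IsLocalization.algebraMap_mem_map_algebraMap_iff ((nonZeroDivisors A).map (C (σ := σ) (R := A)))] at h1
  obtain ⟨m, hm, hmJ⟩ := h1
  obtain ⟨α, hα, rfl⟩ := hm
  refine ⟨α, nonZeroDivisors.ne_zero hα, ?_⟩
  simpa using hmJ

end Pool.Agent.Helper59.DX
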