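import Pool.Agent.Helper59.DX.Defs

/-!
# DX-NTRANS: a transcendence basis, with bounded degrees

PROOF. `E = IntermediateField.adjoin ℚ S`. As in the proof of `Pool.Agent.Helper59.DML.embed_infinite` (file DML/Embed.lean, copy it): a finite
transcendence basis `x : κ → E` of `E/ℚ`; `κ` finite, so `κ ≃ Fin r`; `MvPolynomial κ ℤ → E` injective, `L = FractionRing (MvPolynomial κ ℤ) → E`
finite-dimensional. Put `e0 = finrank L E`. Let `η : ℂ`, `q : E[X]`, `q ≠ 0`, `natDegree q ≤ B`, `q(η) = 0`. Then `η` is algebraic over `E`, of degree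
`[E(η) : E] ≤ B`, so `[L(η) : L] ≤ [E(η) : L] ≤ e0 * B` (tower law; view `ℂ` as an `L`-algebra through `E`; or directly:
the `L`-space `V = ∑_{i<B} E η^i ⊂ ℂ` has dimension `≤ e0 * B`, so the `e0 * B + 1` elements `1, η, ..., η^{e0 B}` of `V` are `L`-linearly dependent).
Clear denominators in `minpoly L η` (`IsLocalization.integerNormalization`) to get `q' : (MvPolynomial (Fin r) ℤ)[X]`.
-/

set_option autoImplicit false

namespace Pool.Agent.Helper59.DX

open Polynomial

set_option linter.style.haveILetI false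

theorem exists_trans_basis (S : Set ℂ) (hS : S.Finite) :
    ∃ (r : ℕ) (ι : MvPolynomial (Fin r) ℤ →+* ℂ) (e0 : ℕ), Function.Injective ι ∧
      ∀ (η : ℂ) (B : ℕ) (q : (IntermediateField.adjoin ℚ S)[X]), q ≠ 0 → q.natDegree ≤ B → aeval η q = 0 →
        ∃ q' : (MvPolynomial (Fin r) ℤ)[X], q' ≠ 0 ∧ q'.natDegree ≤ e0 * B ∧ q'.eval₂ ι η = 0 := by
  classical
  lift S to Finset ℂ using hS
  set E := IntermediateField.adjoin ℚ (S : Set ℂ) with hE
  haveI : Algebra.EssFiniteType ℚ E :=
    IntermediateField.essFiniteType_iff.2 ⟨S, rfl⟩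
  obtain ⟨t, ht⟩ : ∃ t : Finset E, IsTranscendenceBasis ℚ ((↑) : t → E) := by
    obtain ⟨t0, ht0⟩ := IntermediateField.fg_top ℚ E
    haveI : Algebra.IsAlgebraic (Algebra.adjoin ℚ (t0 : Set E)) E := by
      rw [← IntermediateField.isAlgebraic_adjoin_iff_top, ht0, Algebra.isAlgebraic_iff_isIntegral]
      refine Algebra.isIntegral_of_surjective IntermediateField.topEquiv.surjective
    have ⟨t, hts, ht⟩ := exists_isTranscendenceBasis_subset (R := ℚ) (t0 : Set E)
    lift t to Finset E using t0.finite_toSet.subset hts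
    exact ⟨t, ht⟩
  obtain ⟨r, ⟨eq⟩⟩ : ∃ r, Nonempty (Fin r ≃ t) := ⟨Fintype.card t, ⟨(Fintype.equivFin t).symm⟩⟩
  let x : Fin r → E := fun i => (eq i).1
  have hx : IsTranscendenceBasis ℚ x := by
    have := (ht.comp_equiv eq)
    exact this
  have hxZ : AlgebraicIndependent ℤ x :=
    hx.1.restrictScalars (RingHom.injective_int (algebraMap ℤ ℚ))
  let ι : MvPolynomial (Fin r) ℤ →+* E := (MvPolynomial.aeval x : MvPolynomial (Fin r) ℤ →ₐ[ℤ] E).toRingHom
  have hι : Function.Injective ι := hxZ
  let L := FractionRing (MvPolynomial (Fin r) ℤ)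
  let ψ : L →+* E := IsFractionRing.lift hι
  letI : Algebra L E := ψ.toAlgebra
  haveI hchar : CharZero L := ψ.charZero_iff ψ.injective |>.2 inferInstance
  letI : Algebra ℚ L := DivisionRing.toRatAlgebra
  haveI : IsScalarTower ℚ L E :=
    IsScalarTower.of_algebraMap_eq' (Subsingleton.elim _ _)
  haveI : Algebra.IsAlgebraic L E := by
    refine (hx.isAlgebraic_iff (S := L)).2 (fun i => ?_)
    have h1 : x i = algebraMap L E (algebraMap (MvPolynomial (Fin r) ℤ) _ (MvPolynomial.X i)) := by
      change x i = ψ _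
      rw [IsFractionRing.lift_algebraMap hι]
      simp [ι]
    rw [h1]
    exact isAlgebraic_algebraMap _
  haveI : Algebra.EssFiniteType L E := Algebra.EssFiniteType.of_comp ℚ _ _
  haveI : FiniteDimensional L E := Algebra.finite_of_essFiniteType_of_isAlgebraic
  refine ⟨r, (algebraMap E ℂ).comp ι, Module.finrank L E,
    (algebraMap E ℂ).injective.comp hι, ?_⟩
  intro η B q hq hqB hqη
  have halg : IsAlgebraic E η := ⟨q, hq, hqη⟩
  have hint : IsIntegral E η := halg.isIntegral
  haveI : FiniteDimensional E (IntermediateField.adjoin E {η}) :=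
    IntermediateField.adjoin.finiteDimensional hint
  have hfin1 : Module.finrank E (IntermediateField.adjoin E {η}) ≤ B := by
    rw [IntermediateField.adjoin.finrank hint]
    refine le_trans (natDegree_le_natDegree (minpoly.degree_le_of_ne_zero E η hq hqη)) hqB
  let F := IntermediateField.adjoin E {η}
  letI : Algebra L F := ((algebraMap E F).comp ψ).toAlgebra
  haveI : IsScalarTower L E F := IsScalarTower.of_algebraMap_eq (fun _ => rfl)
  haveI : FiniteDimensional L F := FiniteDimensional.trans L E F
  have hfin2 : Module.finrank L F = Module.finrank L E * Module.finrank E F :=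
    (Module.finrank_mul_finrank L E F).symm
  let η' : F := ⟨η, IntermediateField.mem_adjoin_simple_self E η⟩
  have hint' : IsIntegral L η' := Algebra.IsIntegral.isIntegral η'
  have hdeg : (minpoly L η').natDegree ≤ Module.finrank L E * B := by
    refine le_trans (minpoly.natDegree_le η') ?_
    rw [hfin2]
    exact Nat.mul_le_mul_left _ hfin1
  obtain ⟨b, hb, hb1⟩ := IsLocalization.integerNormalization_spec
    (nonZeroDivisors (MvPolynomial (Fin r) ℤ)) (minpoly L η')
  set q' := IsLocalization.integerNormalization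
    (nonZeroDivisors (MvPolynomial (Fin r) ℤ)) (minpoly L η') with hq'
  have hinj : Function.Injective (algebraMap (MvPolynomial (Fin r) ℤ) L) := IsFractionRing.injective _ _
  have hb' : q'.map (algebraMap (MvPolynomial (Fin r) ℤ) L) =
      C (algebraMap (MvPolynomial (Fin r) ℤ) L b) * minpoly L η' := by
    rw [hb1, Algebra.smul_def]
    rfl
  have hb0 : algebraMap (MvPolynomial (Fin r) ℤ) L b ≠ 0 := fun h =>
    nonZeroDivisors.ne_zero hb (hinj (by rw [h, map_zero]))
  refine ⟨q', ?_, ?_, ?_⟩
  · intro h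
    rw [h, Polynomial.map_zero] at hb'
    rcases mul_eq_zero.1 hb'.symm with h1 | h1
    · exact hb0 (by simpa using h1)
    · exact minpoly.ne_zero hint' h1
  · have h1 : (q'.map (algebraMap (MvPolynomial (Fin r) ℤ) L)).natDegree = q'.natDegree :=
      natDegree_map_eq_of_injective hinj _
    rw [← h1, hb', natDegree_C_mul hb0]
    exact hdeg
  · have h1 : (minpoly L η').eval₂ ((algebraMap F ℂ).comp (algebraMap L F)) η = 0 := by
      have h2 := Polynomial.hom_eval₂ (minpoly L η') (algebraMap L F) (algebraMap F ℂ) η'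
      rw [← aeval_def, minpoly.aeval, map_zero] at h2
      exact h2.symm
    have h3 : (q'.map (algebraMap (MvPolynomial (Fin r) ℤ) L)).eval₂
        ((algebraMap F ℂ).comp (algebraMap L F)) η = 0 := by
      rw [hb', eval₂_mul, h1, mul_zero]
    rw [eval₂_map] at h3
    have h4 : ((algebraMap F ℂ).comp (algebraMap L F)).comp (algebraMap (MvPolynomial (Fin r) ℤ) L) =
        (algebraMap E ℂ).comp ι := by
      refine RingHom.ext fun a => ?_
      change algebraMap F ℂ (algebraMap E F (ψ (algebraMap _ L a))) = algebraMap E ℂ (ι a)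
      rw [IsFractionRing.lift_algebraMap hι]
      rfl
    rw [h4] at h3
    exact h3

end Pool.Agent.Helper59.DX
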