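import Pool.Agent.Helper59.DX.NCore
import Pool.Agent.Helper59.DX.NTrans

/-!
# DX-NORTHCOTT: Northcott property of backward orbits over finitely generated fields

PROOF. `d = g.natDegree`. Choose `l : ℂ` with `l^(d-1) = g.leadingCoeff` (`IsAlgClosed.exists_pow_nat_eq`), `l ≠ 0`.
`G = C l * g.comp (C l⁻¹ * X)` is monic of degree `d`, `orb G k (l * η) = l * orb g k η`. It is enough that the set of all `l η` is finite.
Let `S' = S ∪ {l} ∪ {coefficients of G} ∪ {l * y}` (finite). `exists_trans_basis S'` gives `r, ι, e0`; use `ι.toAlgebra` as `Algebra (MvPolynomial (Fin r) ℤ) ℂ`.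
Every `x ∈ S'` is a root of the nonzero polynomial `X - C x` over `adjoin ℚ S'`, so algebraic over `B = MvPolynomial (Fin r) ℤ`;
`exists_mul_integral` gives `M`. For `η` in the set: `q : (adjoin ℚ S)[X]` with `q(η) = 0`; map `q` to `adjoin ℚ S'` (`IntermediateField.inclusion`, `adjoin.mono`) and
substitute `X ↦ C l⁻¹ * X` (`l ∈ adjoin ℚ S'`): a nonzero polynomial of degree `≤ B` killing `l * η`; so `q' : B[X]` of degree `≤ e0 * B`. Apply `northcott_core` with
`y := l * y`, `n := e0 * B`.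
-/

set_option autoImplicit false

namespace Pool.Agent.Helper59.DX

open Polynomial

private theorem orb_conj {g : ℂ[X]} {l : ℂ} (hl : l ≠ 0) (k : ℕ) (x : ℂ) :
    orb (C l * g.comp (C l⁻¹ * X)) k (l * x) = l * orb g k x := by
  induction k with
  | zero => rfl
  | succ k ih =>
    rw [orb_succ, orb_succ, ih]
    simp only [eval_mul, eval_C, eval_comp, eval_X]
    rw [inv_mul_cancel_left₀ hl]

private theorem conj_natDegree {g : ℂ[X]} {l : ℂ} (hl : l ≠ 0) :
    (C l * g.comp (C l⁻¹ * X)).natDegree = g.natDegree := by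
  rw [natDegree_C_mul hl, natDegree_comp, natDegree_C_mul (inv_ne_zero hl), natDegree_X, mul_one]

private theorem conj_monic {g : ℂ[X]} {l : ℂ} (hl : l ≠ 0) (hd : 1 ≤ g.natDegree)
    (h : l ^ (g.natDegree - 1) = g.leadingCoeff) : (C l * g.comp (C l⁻¹ * X)).Monic := by
  unfold Monic
  rw [leadingCoeff_mul, leadingCoeff_C, leadingCoeff_comp, leadingCoeff_mul, leadingCoeff_C,
    leadingCoeff_X, mul_one, ← h]
  · have h1 : l * (l ^ (g.natDegree - 1) * l⁻¹ ^ g.natDegree) =
        l ^ (g.natDegree - 1 + 1) * l⁻¹ ^ g.natDegree := by ring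
    rw [h1, Nat.sub_add_cancel hd, ← mul_pow, mul_inv_cancel₀ hl, one_pow]
  · rw [natDegree_C_mul (inv_ne_zero hl), natDegree_X]
    exact one_ne_zero

theorem northcott (S : Set ℂ) (hS : S.Finite) {g : ℂ[X]} (hg : 2 ≤ g.natDegree) (y : ℂ) (B : ℕ) :
    {η : ℂ | (∃ k, orb g k η = y) ∧
      ∃ q : (IntermediateField.adjoin ℚ S)[X], q ≠ 0 ∧ q.natDegree ≤ B ∧ aeval η q = 0}.Finite := by
  have hg0 : g ≠ 0 := by
    rintro rfl
    rw [natDegree_zero] at hg
    omega
  obtain ⟨l, hl⟩ := IsAlgClosed.exists_pow_nat_eq g.leadingCoeff (n := g.natDegree - 1) (by omega)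
  have hl0 : l ≠ 0 := by
    rintro rfl
    rw [zero_pow (by omega)] at hl
    exact hg0 (leadingCoeff_eq_zero.mp hl.symm)
  have hm := conj_monic hl0 (by omega) hl
  have hdeg := conj_natDegree (g := g) hl0
  set G : ℂ[X] := C l * g.comp (C l⁻¹ * X) with hG
  set S' : Set ℂ := S ∪ ({l, l * y} ∪ (fun i => G.coeff i) '' (Set.Iio G.natDegree)) with hS'
  have hfin : S'.Finite := hS.union (((Set.finite_singleton _).insert _).union
    ((Set.finite_Iio _).image _))
  obtain ⟨r, ι, e0, hι, hq⟩ := exists_trans_basis S' hfin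
  letI : Algebra (MvPolynomial (Fin r) ℤ) ℂ := ι.toAlgebra
  have hinj : Function.Injective (algebraMap (MvPolynomial (Fin r) ℤ) ℂ) := hι
  obtain ⟨M, hM0, hM⟩ := exists_mul_integral hinj S' hfin (by
    intro x hx
    obtain ⟨q', h1, _, h3⟩ := hq x 1 (X - C ⟨x, IntermediateField.subset_adjoin ℚ S' hx⟩)
      (X_sub_C_ne_zero _) (natDegree_X_sub_C_le _) (by
        rw [map_sub, aeval_X, aeval_C]
        exact sub_self x)
    exact ⟨q', h1, h3⟩)
  have hfin2 := northcott_core hinj hm (by rw [hdeg]; exact hg) (l * y) M hM0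
    (fun i hi => hM _ (Or.inr (Or.inr ⟨i, hi, rfl⟩)))
    (hM _ (Or.inr (Or.inl (Or.inr rfl)))) (e0 * B)
  refine (hfin2.preimage (f := fun η => l * η) (fun a _ b _ hab => mul_left_cancel₀ hl0 hab)).subset ?_
  rintro η ⟨⟨k, hk⟩, q, hq0, hqB, hqη⟩
  refine ⟨⟨k, ?_⟩, ?_⟩
  · rw [hG, orb_conj hl0, hk]
  · have hle : IntermediateField.adjoin ℚ S ≤ IntermediateField.adjoin ℚ S' :=
      IntermediateField.adjoin.mono ℚ S S' (fun x hx => Or.inl hx)
    have hφ : Function.Injective (IntermediateField.inclusion hle).toRingHom :=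
      IntermediateField.inclusion_injective hle
    set l' : IntermediateField.adjoin ℚ S' := ⟨l, IntermediateField.subset_adjoin ℚ S'
      (Or.inr (Or.inl (Or.inl rfl)))⟩ with hl'
    have h1 : aeval η (q.map (IntermediateField.inclusion hle).toRingHom) = 0 := by
      rw [aeval_def, eval₂_map, ← hqη, aeval_def]
      rfl
    have h2 := scaleRoots_aeval_eq_zero (r := l') h1
    obtain ⟨q', h3, h4, h5⟩ := hq (l * η) B
      (scaleRoots (q.map (IntermediateField.inclusion hle).toRingHom) l')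
      (scaleRoots_ne_zero ((Polynomial.map_ne_zero_iff hφ).mpr hq0) _)
      (by
        rw [natDegree_scaleRoots]
        exact natDegree_map_le.trans hqB) h2
    exact ⟨q', h3, h4, h5⟩

end Pool.Agent.Helper59.DX
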