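import Pool.Agent.Helper59.DX.DegX
import Pool.Agent.Helper59.DX.NS

/-!
# DX-SPREAD: absolute irreducibility spreads out (Bertini-Noether)

`A ⊂ K` domain in an algebraically closed field, `Q : A[X][Y]` irreducible over `K`. There is `α ≠ 0` in `A` such that for every homomorphism
`s` to a field with `s α ≠ 0` the specialisation `Q_s` is absolutely irreducible of the same degrees.

PROOF. Let `m = degX Q`, `n = deg_Y Q` (the degrees are the same over `A` and over `K`, `degX_map_of_injective`). `Q` irreducible over `K` gives `(m,n) ≠ (0,0)`.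
For `(i,j)` with `i ≤ m`, `j ≤ n`, `(i,j) ∉ {(0,0),(m,n)}` let `σ = (Fin (i+1) × Fin (j+1)) ⊕ (Fin (m-i+1) × Fin (n-j+1))` and
`G, H : (MvPolynomial σ A)[X][Y]` the generic polynomials with coefficients the variables, of degrees `(≤ i, ≤ j)` and `(≤ m-i, ≤ n-j)`; `J_{ij}` the ideal
generated by all coefficients of `G H - Q`. A zero `z ∈ K^σ` of `J_{ij}` gives `Q = G_z H_z` over `K`; one factor is a unit (nonzero constant): if `G_z` is a
unit, then `degX H_z = m ≤ m - i` and `deg_Y H_z = n ≤ n - j` so `(i,j) = (0,0)`; if `H_z` is, `(i,j) = (m,n)`. Contradiction, so there is no zero and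
`null_denominator` gives `α_{ij} ≠ 0` with `C α_{ij} ∈ J_{ij}`.
`α` = product of all `α_{ij}`, of a nonzero coefficient of `Q` of `X`-degree `m` and of one of `Y`-degree `n` (so that both degrees are preserved when `s α ≠ 0`).
Let `s α ≠ 0`, `φ : F →+* F'`, `t = φ ∘ s`. If `Q_t = G H` over `F'`, degrees add up (`degX_mul`, `natDegree_mul`), so with
`(i,j) = (degX G, deg_Y G)` we have `degX H = m - i`, `deg_Y H = n - j` and the coefficients of `G`, `H` are a zero of `t(J_{ij})`
(if `(i,j) ∉ {(0,0),(m,n)}`), which contradicts `t(α_{ij}) ≠ 0`, `C α_{ij} ∈ J_{ij}` (apply `MvPolynomial.eval₂Hom t z` to it). So `(i,j) = (0,0)` and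
`G` is a unit or `(i,j) = (m,n)` and `H` is a unit (`isUnit_iff_deg`). `Q_t` is not a unit as its degrees are `(m,n) ≠ (0,0)`.
Simplification: one may use `G, H` as finite sums `∑ C (C (MvPolynomial.X ..)) * (C X)^a * Y^b` and get `G_z` by `Polynomial.map (mapRingHom _)`.
-/

set_option autoImplicit false

namespace Pool.Agent.Helper59.DX

open Polynomial

/-- the generic polynomial of degrees `≤ i`, `≤ j` -/
private noncomputable def spgp {B : Type*} [CommRing B] {i j : ℕ}
    (z : Fin (i + 1) × Fin (j + 1) → B) : B[X][X] :=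
  ∑ q : Fin (i + 1) × Fin (j + 1), monomial (q.2 : ℕ) (monomial (q.1 : ℕ) (z q))

private theorem spgp_map {B B' : Type*} [CommRing B] [CommRing B'] (φ : B →+* B') {i j : ℕ}
    (z : Fin (i + 1) × Fin (j + 1) → B) :
    (spgp z).map (mapRingHom φ) = spgp (fun q => φ (z q)) := by
  unfold spgp
  rw [Polynomial.map_sum]
  refine Finset.sum_congr rfl fun q _ => ?_
  rw [Polynomial.map_monomial, coe_mapRingHom, Polynomial.map_monomial]

private theorem spgp_natDegree {B : Type*} [CommRing B] {i j : ℕ}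
    (z : Fin (i + 1) × Fin (j + 1) → B) : (spgp z).natDegree ≤ j := by
  refine natDegree_sum_le_of_forall_le _ _ fun q _ => ?_
  refine (natDegree_monomial_le _).trans ?_
  have := q.2.2
  omega

private theorem spgp_degX {B : Type*} [CommRing B] {i j : ℕ}
    (z : Fin (i + 1) × Fin (j + 1) → B) : degX (spgp z) ≤ i := by
  refine degX_le fun b => ?_
  unfold spgp
  rw [finsetSum_coeff]
  refine natDegree_sum_le_of_forall_le _ _ fun q _ => ?_
  rw [coeff_monomial]
  split_ifs
  · refine (natDegree_monomial_le _).trans ?_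
    have := q.1.2
    omega
  · simp

private theorem spgp_eq {B : Type*} [CommRing B] {i j : ℕ} {P : B[X][X]} (h1 : degX P ≤ i)
    (h2 : P.natDegree ≤ j) :
    spgp (fun q : Fin (i + 1) × Fin (j + 1) => (P.coeff q.2).coeff q.1) = P := by
  have h3 : ∀ b, (P.coeff b).natDegree < i + 1 := fun b =>
    Nat.lt_succ_of_le ((natDegree_coeff_le_degX P b).trans h1)
  unfold spgp
  rw [Fintype.sum_prod_type_right]
  conv_rhs => rw [P.as_sum_range' (j + 1) (Nat.lt_succ_of_le h2)]
  rw [← Fin.sum_univ_eq_sum_range (fun b => monomial b (P.coeff b))]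
  refine Finset.sum_congr rfl fun b _ => ?_
  conv_rhs => rw [(P.coeff b).as_sum_range' (i + 1) (h3 b)]
  rw [map_sum, ← Fin.sum_univ_eq_sum_range
    (fun a => monomial (b : ℕ) (monomial a ((P.coeff b).coeff a)))]

/-- index set of the coefficients -/
private abbrev spS (i j i' j' : ℕ) : Type :=
  (Fin (i + 1) × Fin (j + 1)) ⊕ (Fin (i' + 1) × Fin (j' + 1))

/-- the generic product minus `Q` -/
private noncomputable def spD {A : Type*} [CommRing A] (Q : A[X][X]) (i j i' j' : ℕ) :
    (MvPolynomial (spS i j i' j') A)[X][X] :=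
  spgp (fun q : Fin (i + 1) × Fin (j + 1) => MvPolynomial.X (Sum.inl q)) *
    spgp (fun q : Fin (i' + 1) × Fin (j' + 1) => MvPolynomial.X (Sum.inr q)) -
    Q.map (mapRingHom MvPolynomial.C)

/-- the ideal of its coefficients -/
private noncomputable def spJ {A : Type*} [CommRing A] (Q : A[X][X]) (i j i' j' : ℕ) :
    Ideal (MvPolynomial (spS i j i' j') A) :=
  Ideal.span (Set.range fun ab : ℕ × ℕ => ((spD Q i j i' j').coeff ab.2).coeff ab.1)

private theorem spD_map {A B : Type*} [CommRing A] [CommRing B] (Q : A[X][X]) (i j i' j' : ℕ)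
    (Φ : MvPolynomial (spS i j i' j') A →+* B) :
    (spD Q i j i' j').map (mapRingHom Φ) =
      spgp (fun q : Fin (i + 1) × Fin (j + 1) => Φ (MvPolynomial.X (Sum.inl q))) *
      spgp (fun q : Fin (i' + 1) × Fin (j' + 1) => Φ (MvPolynomial.X (Sum.inr q))) -
      Q.map (mapRingHom (Φ.comp MvPolynomial.C)) := by
  rw [spD, Polynomial.map_sub, Polynomial.map_mul, spgp_map, spgp_map, Polynomial.map_map,
    mapRingHom_comp]

private theorem spJ_iff {A B : Type*} [CommRing A] [CommRing B] (Q : A[X][X]) (i j i' j' : ℕ)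
    (Φ : MvPolynomial (spS i j i' j') A →+* B) :
    (∀ p ∈ spJ Q i j i' j', Φ p = 0) ↔ (spD Q i j i' j').map (mapRingHom Φ) = 0 := by
  constructor
  · intro h
    ext b a
    rw [coeff_map, coe_mapRingHom, coeff_map, h _ (Ideal.subset_span ⟨(a, b), rfl⟩)]
    simp
  · intro h p hp
    have h1 : spJ Q i j i' j' ≤ RingHom.ker Φ := by
      refine Ideal.span_le.2 ?_
      rintro _ ⟨⟨a, b⟩, rfl⟩
      have h2 := congrArg (fun P : B[X][X] => (P.coeff b).coeff a) h
      simp only [coeff_map, coe_mapRingHom, coeff_zero] at h2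
      exact h2
    exact h1 hp

private theorem sp_step {A K : Type*} [CommRing A] [IsDomain A] [Field K] [IsAlgClosed K]
    [Algebra A K] (hinj : Function.Injective (algebraMap A K)) (Q : A[X][X]) (i j i' j' : ℕ)
    (hno : ∀ G H : K[X][X], degX G ≤ i → G.natDegree ≤ j → degX H ≤ i' → H.natDegree ≤ j' →
      Q.map (mapRingHom (algebraMap A K)) ≠ G * H) :
    ∃ α : A, α ≠ 0 ∧ ∀ (F : Type) [Field F] (t : A →+* F), t α ≠ 0 →
      ∀ G H : F[X][X], degX G ≤ i → G.natDegree ≤ j → degX H ≤ i' → H.natDegree ≤ j' →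
      Q.map (mapRingHom t) ≠ G * H := by
  have hz : ¬ ∃ z : spS i j i' j' → K, ∀ p ∈ spJ Q i j i' j', MvPolynomial.aeval z p = 0 := by
    rintro ⟨z, hz⟩
    have h1 := (spJ_iff Q i j i' j' (MvPolynomial.aeval z : MvPolynomial (spS i j i' j') A →ₐ[A] K
      ).toRingHom).1 (fun p hp => hz p hp)
    rw [spD_map, sub_eq_zero] at h1
    refine hno _ _ (spgp_degX _) (spgp_natDegree _) (spgp_degX _) (spgp_natDegree _) (Eq.trans ?_ h1.symm)
    congr 2
    ext a
    simp
  obtain ⟨α, hα, hαJ⟩ := null_denominator hinj (spJ Q i j i' j') hz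
  refine ⟨α, hα, fun F _ t ht G H h1 h2 h3 h4 h5 => ht ?_⟩
  let z : spS i j i' j' → F := Sum.elim (fun q => (G.coeff q.2).coeff q.1)
    (fun q => (H.coeff q.2).coeff q.1)
  have h6 : (MvPolynomial.eval₂Hom t z).comp MvPolynomial.C = t := by
    ext a
    simp
  have h7 := (spJ_iff Q i j i' j' (MvPolynomial.eval₂Hom t z)).2 (by
    rw [spD_map, sub_eq_zero, h6, h5]
    simp only [MvPolynomial.eval₂Hom_X', z, Sum.elim_inl, Sum.elim_inr]
    rw [spgp_eq h1 h2, spgp_eq h3 h4]) _ hαJ
  simpa using h7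

theorem spread {A K : Type*} [CommRing A] [IsDomain A] [Field K] [IsAlgClosed K] [Algebra A K]
    (hinj : Function.Injective (algebraMap A K)) (Q : A[X][X])
    (hQ : Irreducible (Q.map (mapRingHom (algebraMap A K)))) :
    ∃ α : A, α ≠ 0 ∧ ∀ (F : Type) [Field F] (s : A →+* F), s α ≠ 0 →
      AbsIrr (Q.map (mapRingHom s)) ∧ degX (Q.map (mapRingHom s)) = degX Q ∧
      (Q.map (mapRingHom s)).natDegree = Q.natDegree := by
  classical
  have hm : degX (Q.map (mapRingHom (algebraMap A K))) = degX Q := degX_map_of_injective _ hinj Q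
  have hn : (Q.map (mapRingHom (algebraMap A K))).natDegree = Q.natDegree :=
    natDegree_map_of_injective _ hinj Q
  have hQK0 := hQ.ne_zero
  have hQ0 : Q ≠ 0 := by
    rintro rfl
    exact hQK0 (by simp)
  have hmn : ¬ (degX Q = 0 ∧ Q.natDegree = 0) := by
    intro h
    exact hQ.not_isUnit ((isUnit_iff_deg hQK0).2 (by rw [hm, hn]; exact h))
  set m := degX Q with hmdef
  set n := Q.natDegree with hndef
  -- all pairs
  have hno : ∀ i j : ℕ, i ≤ m → j ≤ n → (i, j) ≠ (0, 0) → (i, j) ≠ (m, n) →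
      ∀ G H : K[X][X], degX G ≤ i → G.natDegree ≤ j → degX H ≤ m - i → H.natDegree ≤ n - j →
      Q.map (mapRingHom (algebraMap A K)) ≠ G * H := by
    intro i j hi hj h0 h1 G H hG1 hG2 hH1 hH2 h
    have hG0 : G ≠ 0 := by
      rintro rfl
      exact hQK0 (by rw [h, zero_mul])
    have hH0 : H ≠ 0 := by
      rintro rfl
      exact hQK0 (by rw [h, mul_zero])
    have hdX : degX G + degX H = m := by
      rw [← degX_mul hG0 hH0, ← h, hm]
    have hdY : G.natDegree + H.natDegree = n := by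
      rw [← natDegree_mul hG0 hH0, ← h, hn]
    rcases hQ.isUnit_or_isUnit h with hu | hu
    · obtain ⟨e1, e2⟩ := (isUnit_iff_deg hG0).1 hu
      exact h0 (Prod.ext (by simp only; omega) (by simp only; omega))
    · obtain ⟨e1, e2⟩ := (isUnit_iff_deg hH0).1 hu
      exact h1 (Prod.ext (by simp only; omega) (by simp only; omega))
  have hex : ∀ ij : ℕ × ℕ, ∃ α : A, α ≠ 0 ∧ (ij.1 ≤ m → ij.2 ≤ n → ij ≠ (0, 0) → ij ≠ (m, n) →
      ∀ (F : Type) [Field F] (t : A →+* F), t α ≠ 0 → ∀ G H : F[X][X], degX G ≤ ij.1 →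
        G.natDegree ≤ ij.2 → degX H ≤ m - ij.1 → H.natDegree ≤ n - ij.2 →
        Q.map (mapRingHom t) ≠ G * H) := by
    intro ij
    by_cases h : ij.1 ≤ m ∧ ij.2 ≤ n ∧ ij ≠ (0, 0) ∧ ij ≠ (m, n)
    · obtain ⟨h1, h2, h3, h4⟩ := h
      obtain ⟨α, hα, hα'⟩ := sp_step hinj Q ij.1 ij.2 (m - ij.1) (n - ij.2)
        (hno ij.1 ij.2 h1 h2 h3 h4)
      exact ⟨α, hα, fun _ _ _ _ => hα'⟩
    · exact ⟨1, one_ne_zero, fun h1 h2 h3 h4 => absurd ⟨h1, h2, h3, h4⟩ h⟩
  choose αf hαf0 hαf using hex
  -- a coefficient of maximal `X`-degree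
  obtain ⟨b, hb, hbm⟩ : ∃ b ∈ Q.support, m = (Q.coeff b).natDegree :=
    Finset.exists_mem_eq_sup Q.support (Finsupp.support_nonempty_iff.2 (by simpa using hQ0)) _
  set αX : A := (Q.coeff b).leadingCoeff with hαX
  set αY : A := (Q.coeff n).leadingCoeff with hαY
  have hαX0 : αX ≠ 0 := by
    rw [hαX, Ne, leadingCoeff_eq_zero]
    exact mem_support_iff.1 hb
  have hαY0 : αY ≠ 0 := by
    rw [hαY, Ne, leadingCoeff_eq_zero, hndef, coeff_natDegree, leadingCoeff_eq_zero]
    exact hQ0
  set P : A := ∏ ij ∈ Finset.range (m + 1) ×ˢ Finset.range (n + 1), αf ij with hP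
  have hP0 : P ≠ 0 := Finset.prod_ne_zero_iff.2 fun ij _ => hαf0 ij
  -- degrees are preserved
  have hdeg : ∀ (F : Type) [Field F] (t : A →+* F), t (αX * αY * P) ≠ 0 →
      degX (Q.map (mapRingHom t)) = m ∧ (Q.map (mapRingHom t)).natDegree = n := by
    intro F _ t ht
    rw [map_mul, map_mul] at ht
    have ht1 : t αX ≠ 0 := left_ne_zero_of_mul (left_ne_zero_of_mul ht)
    have ht2 : t αY ≠ 0 := right_ne_zero_of_mul (left_ne_zero_of_mul ht)
    constructor
    · refine le_antisymm (degX_map_le t Q) ?_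
      refine le_trans ?_ (natDegree_coeff_le_degX (Q.map (mapRingHom t)) b)
      refine le_natDegree_of_ne_zero ?_
      rw [coeff_map, coe_mapRingHom, coeff_map, hbm]
      exact ht1
    · refine le_antisymm natDegree_map_le ?_
      refine le_natDegree_of_ne_zero ?_
      rw [coeff_map, coe_mapRingHom]
      intro h
      apply ht2
      have h1 := congrArg (fun P => coeff P (Q.coeff n).natDegree) h
      simp only [coeff_map, coeff_zero] at h1
      exact h1
  have hirr : ∀ (F : Type) [Field F] (t : A →+* F), t (αX * αY * P) ≠ 0 →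
      Irreducible (Q.map (mapRingHom t)) := by
    intro F _ t ht
    obtain ⟨hd1, hd2⟩ := hdeg F t ht
    have hne : Q.map (mapRingHom t) ≠ 0 := by
      intro h
      rw [h] at hd1 hd2
      apply hmn
      constructor
      · rw [← hd1]; simp [degX]
      · rw [← hd2]; simp
    refine ⟨fun hu => hmn ?_, fun G H h => ?_⟩
    · obtain ⟨e1, e2⟩ := (isUnit_iff_deg hne).1 hu
      exact ⟨hd1.symm.trans e1, hd2.symm.trans e2⟩
    have hG0 : G ≠ 0 := by
      rintro rfl
      exact hne (by rw [h, zero_mul])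
    have hH0 : H ≠ 0 := by
      rintro rfl
      exact hne (by rw [h, mul_zero])
    have hdX : degX G + degX H = m := by
      rw [← degX_mul hG0 hH0, ← h, hd1]
    have hdY : G.natDegree + H.natDegree = n := by
      rw [← natDegree_mul hG0 hH0, ← h, hd2]
    by_cases c0 : (degX G, G.natDegree) = (0, 0)
    · left
      exact (isUnit_iff_deg hG0).2 (Prod.mk.inj c0)
    by_cases c1 : (degX G, G.natDegree) = (m, n)
    · right
      obtain ⟨e1, e2⟩ := Prod.mk.inj c1
      exact (isUnit_iff_deg hH0).2 ⟨by omega, by omega⟩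
    exfalso
    have ht3 : t (αf (degX G, G.natDegree)) ≠ 0 := by
      rw [map_mul, hP, map_prod] at ht
      refine Finset.prod_ne_zero_iff.1 (right_ne_zero_of_mul ht) _ ?_
      simp only [Finset.mem_product, Finset.mem_range]
      omega
    exact hαf (degX G, G.natDegree) (by simp only; omega) (by simp only; omega) c0 c1 F t ht3 G H
      le_rfl le_rfl (by simp only; omega) (by simp only; omega) h
  refine ⟨αX * αY * P, mul_ne_zero (mul_ne_zero hαX0 hαY0) hP0, fun F _ s hs => ⟨?_, hdeg F s hs⟩⟩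
  intro F' _ φ
  rw [Polynomial.map_map, mapRingHom_comp]
  refine hirr F' (φ.comp s) ?_
  rw [RingHom.comp_apply]
  exact (map_ne_zero φ).2 hs

end Pool.Agent.Helper59.DX
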