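import Pool.Agent.Helper59.DX.HeightsA
import Pool.Agent.Helper59.DX.HeightsB
import Pool.Agent.Helper59.DX.Spread
import Pool.Agent.Helper59.DX.LemmaL
import Pool.Agent.Helper59.DX.Model

/-!
# DX-UNEQ: different degrees: the curve contains finitely many points of the orbit

PROOF. Suppose infinitely many. `exists_model f g P 1 a b` gives `A, f', g', P', a', b'`. `P'` is irreducible over `ℂ`; `spread` (with `K = ℂ`) gives `α`. `lemmaL` for `g', b'`, and `α * f'.leadingCoeff`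
gives a number field `K`, `s : A →+* K` with `s α ≠ 0`, `s (lc f') ≠ 0`, `s (lc g') ≠ 0`, `n ↦ orb (g'.map s) n (s b')` injective (the orbit of `b'` in `A` is injective since it is in `ℂ`, `orb_map`).
Write `f, g, P, x_n, y_n` for the specialised objects over `K`: `e := natDegree g > d := natDegree f ≥ 1`, `e ≥ 2`; `P_s` is absolutely irreducible, `(P_s).natDegree = P.natDegree ≠ 0`, so irreducible over `K`
(take `φ = RingHom.id`, `Polynomial.map_id`) and `P_s.map (evalRingHom ξ) ≠ 0` for all `ξ` (`eval_X_ne_zero`). `height_curve`: `h(y_n) ≤ D h(x_n) + C` for infinitely many `n`.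
`height_eval_le`: `h(x_{n+1}) ≤ d h(x_n) + C1`, so `h(x_n) ≤ C2 (n+1) d^n`. `height_eval_ge`: `h(y_{n+1}) ≥ e h(y_n) - C3`. By Northcott (`NumberField.finite_setOfPred_logHeight₁_le`) and
injectivity there is `n0` with `h(y_{n0}) > C3 + 1`, so `h(y_n) - C3 ≥ e^(n-n0) (h(y_{n0}) - C3) ≥ e^(n-n0)` for `n ≥ n0` (`e ≥ 2`: `e h - C3 - C3 ≥ e (h - C3)` since `(e-2) C3 ≥ 0`, `C3 ≥ 0` WLOG).
So `e^(n-n0) ≤ D C2 (n+1) d^n + C` for infinitely many `n`: contradiction as `e ≥ d + 1`, `(n+1) (d/e)^n → 0`.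
-/

set_option autoImplicit false

namespace Pool.Agent.Helper59.DX

open Polynomial

private theorem uneq_growth {hx hy : ℕ → ℝ} {d e : ℕ} (hd : 1 ≤ d) (hde : d < e) {D C C1 C3 : ℝ}
    (hD : 0 ≤ D) (hC3 : 0 ≤ C3) (hx1 : ∀ n, hx (n + 1) ≤ d * hx n + C1)
    (hy1 : ∀ n, (e : ℝ) * hy n ≤ hy (n + 1) + C3) {n0 : ℕ} (hn0 : C3 + 1 ≤ hy n0) {S : Set ℕ}
    (hS : S.Infinite) (hle : ∀ n ∈ S, hy n ≤ D * hx n + C) : False := by
  have hd0 : (1 : ℝ) ≤ d := by exact_mod_cast hd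
  have he2 : (2 : ℝ) ≤ e := by exact_mod_cast (by omega : 2 ≤ e)
  have he0 : (0 : ℝ) < e := by linarith
  obtain ⟨C2, hC2a, hC2b, hC2c⟩ : ∃ C2 : ℝ, hx 0 ≤ C2 ∧ C1 ≤ C2 ∧ 0 ≤ C2 :=
    ⟨max (max (hx 0) C1) 0, le_trans (le_max_left _ _) (le_max_left _ _),
      le_trans (le_max_right _ _) (le_max_left _ _), le_max_right _ _⟩
  have hxn : ∀ n : ℕ, hx n ≤ C2 * (n + 1) * (d : ℝ) ^ n := by
    intro n
    induction n with
    | zero => simpa using hC2a
    | succ n ih =>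
      have h1 : (1 : ℝ) ≤ (d : ℝ) ^ (n + 1) := one_le_pow₀ hd0
      have h2 : (d : ℝ) * hx n ≤ d * (C2 * (n + 1) * (d : ℝ) ^ n) :=
        mul_le_mul_of_nonneg_left ih (by linarith)
      have h3 : C2 ≤ C2 * (d : ℝ) ^ (n + 1) := le_mul_of_one_le_right hC2c h1
      have h4 := hx1 n
      push_cast
      rw [pow_succ] at h1 h3 ⊢
      nlinarith
  have hyn : ∀ k : ℕ, (e : ℝ) ^ k + C3 ≤ hy (n0 + k) := by
    intro k
    induction k with
    | zero => simpa [add_comm] using hn0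
    | succ k ih =>
      have h1 := hy1 (n0 + k)
      have h2 : (e : ℝ) * ((e : ℝ) ^ k + C3) ≤ e * hy (n0 + k) := mul_le_mul_of_nonneg_left ih he0.le
      have h3 : 0 ≤ ((e : ℝ) - 2) * C3 := mul_nonneg (by linarith) hC3
      have h4 : n0 + (k + 1) = n0 + k + 1 := by ring
      rw [h4, pow_succ]
      nlinarith
  obtain ⟨r, hr⟩ : ∃ r : ℝ, r = (d : ℝ) / e := ⟨_, rfl⟩
  have hr0 : 0 ≤ r := by rw [hr]; positivity
  have hr1 : r < 1 := by
    rw [hr, div_lt_one he0]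
    exact_mod_cast hde
  have habs : |r| < 1 := by rwa [abs_of_nonneg hr0]
  have t1 := tendsto_pow_const_mul_const_pow_of_abs_lt_one 1 habs
  have t0 := tendsto_pow_const_mul_const_pow_of_abs_lt_one 0 habs
  have he' : |(e : ℝ)⁻¹| < 1 := by
    rw [abs_of_nonneg (by positivity)]
    exact inv_lt_one_of_one_lt₀ (by linarith)
  have t2 := tendsto_pow_const_mul_const_pow_of_abs_lt_one 0 he'
  have t3 : Filter.Tendsto (fun k : ℕ => D * C2 * (d : ℝ) ^ n0 * ((k : ℝ) ^ 1 * r ^ k +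
      (n0 + 1) * ((k : ℝ) ^ 0 * r ^ k)) + C * ((k : ℝ) ^ 0 * (e : ℝ)⁻¹ ^ k)) Filter.atTop (nhds 0) := by
    have := ((t1.add (t0.const_mul ((n0 : ℝ) + 1))).const_mul (D * C2 * (d : ℝ) ^ n0)).add (t2.const_mul C)
    simpa using this
  have t4 := (t3.eventually (gt_mem_nhds (show (0 : ℝ) < 1 by norm_num)))
  obtain ⟨K0, hK0⟩ := Filter.eventually_atTop.1 t4
  obtain ⟨n, hnS, hn⟩ := hS.exists_gt (n0 + K0)
  obtain ⟨k, rfl⟩ : ∃ k, n = n0 + k := ⟨n - n0, by omega⟩
  have h5 := hK0 k (by omega)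
  have h6 := hle _ hnS
  have h7 := hyn k
  have h8 : D * hx (n0 + k) ≤ D * (C2 * ((n0 + k : ℕ) + 1) * (d : ℝ) ^ (n0 + k)) :=
    mul_le_mul_of_nonneg_left (hxn _) hD
  have hek : (0 : ℝ) < (e : ℝ) ^ k := by positivity
  have h9 : (e : ℝ) ^ k ≤ D * (C2 * ((n0 + k : ℕ) + 1) * (d : ℝ) ^ (n0 + k)) + C := by linarith
  have h10 : (e : ℝ) ^ k * (D * C2 * (d : ℝ) ^ n0 * ((k : ℝ) ^ 1 * r ^ k +
      (n0 + 1) * ((k : ℝ) ^ 0 * r ^ k)) + C * ((k : ℝ) ^ 0 * (e : ℝ)⁻¹ ^ k))
      = D * (C2 * ((n0 + k : ℕ) + 1) * (d : ℝ) ^ (n0 + k)) + C := by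
    have h11 : (e : ℝ) ^ k * r ^ k = (d : ℝ) ^ k := by
      rw [← mul_pow, hr]
      congr 1
      field_simp
    have h12 : (e : ℝ) ^ k * (e : ℝ)⁻¹ ^ k = 1 := by
      rw [← mul_pow, mul_inv_cancel₀ he0.ne', one_pow]
    rw [pow_add]
    push_cast
    linear_combination (D * C2 * (d : ℝ) ^ n0 * ((k : ℝ) + n0 + 1)) * h11 + C * h12
  have h13 : (e : ℝ) ^ k * (D * C2 * (d : ℝ) ^ n0 * ((k : ℝ) ^ 1 * r ^ k +
      (n0 + 1) * ((k : ℝ) ^ 0 * r ^ k)) + C * ((k : ℝ) ^ 0 * (e : ℝ)⁻¹ ^ k)) < (e : ℝ) ^ k * 1 :=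
    mul_lt_mul_of_pos_left h5 hek
  rw [h10] at h13
  linarith

theorem uneq {f g : ℂ[X]} (hf : 1 ≤ f.natDegree) (hfg : f.natDegree < g.natDegree) {a b : ℂ}
    (hb : Function.Injective fun n => orb g n b) {P : ℂ[X][X]} (hP : Irreducible P) (hY : P.natDegree ≠ 0) :
    {n | P.evalEval (orb f n a) (orb g n b) = 0}.Finite := by
  by_contra hinf
  have hS : {n | P.evalEval (orb f n a) (orb g n b) = 0}.Infinite := hinf
  obtain ⟨A, _, f', g', P', Q', a', b', hf', hg', hP', -, ha', hb'⟩ := exists_model f g P 1 a b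
  have hinj : Function.Injective (algebraMap A ℂ) := Subtype.val_injective
  obtain ⟨α, hα, hspread⟩ := spread hinj P' (by rw [hP']; exact hP)
  have hf0 : f' ≠ 0 := by
    rintro rfl
    rw [← hf'] at hf
    simp at hf
  have hdf : f'.natDegree = f.natDegree := by
    rw [← hf', Polynomial.natDegree_map_eq_of_injective hinj]
  have hdg : g'.natDegree = g.natDegree := by
    rw [← hg', Polynomial.natDegree_map_eq_of_injective hinj]
  have horb : Function.Injective fun n => orb g' n b' := by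
    intro m n h
    apply hb
    have h1 : algebraMap A ℂ (orb g' m b') = algebraMap A ℂ (orb g' n b') := congrArg _ h
    rw [← orb_map, ← orb_map, hg', hb'] at h1
    exact h1
  obtain ⟨K, _, _, s, hsα, hsg, hsorb⟩ := lemmaL g' (by omega) b' horb (α * f'.leadingCoeff)
    (mul_ne_zero hα (Polynomial.leadingCoeff_ne_zero.2 hf0))
  have hsα' : s α ≠ 0 := fun h => hsα (by rw [map_mul, h, zero_mul])
  have hsf : s f'.leadingCoeff ≠ 0 := fun h => hsα (by rw [map_mul, h, mul_zero])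
  obtain ⟨hirr, -, hdeg⟩ := hspread K s hsα'
  have hirrK : Irreducible (P'.map (mapRingHom s)) := by
    have h := hirr K (RingHom.id K)
    rwa [Polynomial.mapRingHom_id, Polynomial.map_id] at h
  have hYK : (P'.map (mapRingHom s)).natDegree ≠ 0 := by
    rw [hdeg]
    have h : P'.natDegree = P.natDegree := by
      rw [← hP', natDegree_map_of_injective _ hinj]
    rw [h]
    exact hY
  have hFd : (f'.map s).natDegree = f.natDegree := by
    rw [Polynomial.natDegree_map_of_leadingCoeff_ne_zero _ hsf, hdf]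
  have hGd : (g'.map s).natDegree = g.natDegree := by
    rw [Polynomial.natDegree_map_of_leadingCoeff_ne_zero _ hsg, hdg]
  obtain ⟨C, hC⟩ := height_curve (P'.map (mapRingHom s)) (fun ξ => eval_X_ne_zero hirrK hYK ξ)
  obtain ⟨C1, hC1⟩ := height_eval_le (f'.map s) f.natDegree hFd.le
  obtain ⟨C3, hC3⟩ := height_eval_ge (g'.map s) (by omega)
  rw [hGd] at hC3
  obtain ⟨n0, hn0⟩ : ∃ n0, max C3 0 + 1 ≤ Height.logHeight₁ (orb (g'.map s) n0 (s b')) := by
    by_contra hcon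
    push Not at hcon
    have hfin := NumberField.finite_setOfPred_logHeight₁_le (K := K) (max C3 0 + 1)
    exact Set.infinite_range_of_injective hsorb (hfin.subset (by
      rintro _ ⟨n, rfl⟩
      exact (hcon n).le))
  refine uneq_growth (hx := fun n => Height.logHeight₁ (orb (f'.map s) n (s a')))
    (hy := fun n => Height.logHeight₁ (orb (g'.map s) n (s b'))) (C := C)
    (D := ((degX (P'.map (mapRingHom s)) : ℕ) : ℝ)) hf hfg (Nat.cast_nonneg _)
    (le_max_right C3 0) (C1 := C1) (fun n => ?_) (fun n => ?_) hn0 hS (fun n hn => ?_)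
  · simp only [orb_succ]
    exact hC1 _
  · simp only [orb_succ]
    exact (hC3 _).trans (by linarith [le_max_left C3 0])
  · refine hC _ _ ?_
    rw [orb_map, orb_map, Polynomial.map_mapRingHom_evalEval]
    have h0 : P'.evalEval (orb f' n a') (orb g' n b') = 0 := by
      apply hinj
      rw [map_zero, ← Polynomial.map_mapRingHom_evalEval, ← orb_map, ← orb_map, hf', hg', hP', ha', hb']
      exact hn
    rw [h0, map_zero]

end Pool.Agent.Helper59.DX
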