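import Pool.Agent.Helper59.DX.Chain
import Pool.Agent.Helper59.DX.Uneq
import Pool.Agent.Helper59.DX.Linear
import Pool.Agent.Helper59.DX.NCMain

/-!
# DX-PLANE: the plane case, all degrees; dynamical Mordell-Lang for curves under split polynomial maps over `ℂ`
-/

set_option autoImplicit false

namespace Pool.Agent.Helper59.DX

open Polynomial Pool.Agent.Helper59.DML

theorem natDegree_pos_of_orbit {f : ℂ[X]} {a : ℂ} (ha : Function.Injective fun n => orb f n a) :
    1 ≤ f.natDegree := by
  by_contra h0
  have h1 : f.natDegree = 0 := by omega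
  obtain ⟨c, hc⟩ := natDegree_eq_zero.1 h1
  have h2 : ∀ n, orb f (n + 1) a = c := fun n => by rw [orb_succ, ← hc, eval_C]
  have h3 : (1 : ℕ) = 2 := ha (by simp only; rw [h2 0, h2 1])
  omega

theorem plane (hN : NFTStatement) : PlaneStatement := by
  intro f g a b ha hb P hP hinf
  have hf1 := natDegree_pos_of_orbit ha
  have hg1 := natDegree_pos_of_orbit hb
  have hPY := natDegree_pos_of_infinite hP.ne_zero ha hinf
  have hPX := degX_pos_of_infinite hP.ne_zero hb hinf
  rcases lt_trichotomy f.natDegree g.natDegree with h | h | h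
  · exact absurd (uneq hf1 h hb hP (by omega)) hinf
  · rcases Nat.lt_or_ge f.natDegree 2 with h2 | h2
    · -- two maps of degree one
      obtain ⟨n₀, p, hp, hper⟩ := linear_ep f g (by omega) (by omega) a b P
      refine ⟨p, hp, dvd_of_common_zeros hP ha
        (J := {n | P.evalEval (orb f n a) (orb g n b) = 0} \ Set.Iio n₀)
        (hinf.sdiff (Set.finite_Iio n₀)) fun n hn => ⟨hn.1, ?_⟩⟩
      have h3 : n₀ ≤ n := not_lt.1 hn.2
      have h4 := (hper n h3).1 hn.1
      rw [comp2_evalEval, itp_eval, itp_eval, ← orb_add, ← orb_add, add_comm p n]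
      exact h4
    · exact plane_equal hN h2 h ha hb hP hinf
  · exfalso
    have hsP : Irreducible (Bivariate.swap P) :=
      (MulEquiv.irreducible_iff (Bivariate.swap (R := ℂ)).toMulEquiv).2 hP
    have h1 := uneq (f := g) (g := f) (a := b) (b := a) hg1 h ha hsP (by rw [natDegree_swap]; omega)
    simp only [evalEval_swap] at h1
    exact hinf h1

theorem iterate_apply {N : ℕ} (f : Fin N → ℂ[X]) (α : Fin N → ℂ) (n : ℕ) :
    (fun z i => (f i).eval (z i))^[n] α = fun j => orb (f j) n (α j) := by
  induction n with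
  | zero => rfl
  | succ n ih =>
    rw [Function.iterate_succ_apply', ih]
    funext j
    rw [orb_succ]

/-- dynamical Mordell-Lang for curves under split polynomial maps over `ℂ`. -/
theorem dml_curves (hN : NFTStatement) {N : ℕ} (f : Fin N → ℂ[X]) (α : Fin N → ℂ)
    (I : Ideal (MvPolynomial (Fin N) ℂ))
    (hI : ∀ p ∈ I.minimalPrimes, ringKrullDim (MvPolynomial (Fin N) ℂ ⧸ p) = 1) :
    ∃ T : Finset (ℕ × ℕ), {n | (fun z i => (f i).eval (z i))^[n] α ∈ MvPolynomial.zeroLocus ℂ I} =
      ⋃ t ∈ T, {n | ∃ k, n = t.1 + k * t.2} := by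
  refine exists_progressions ((ep_curve (plane hN) f α I hI).congr fun n => ?_)
  rw [iterate_apply, MvPolynomial.mem_zeroLocus_iff]
  rfl

end Pool.Agent.Helper59.DX
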