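import Pool.Agent.Helper59.DX.Defs

/-!
# DX-ROOTS: every root of a specialised minimal polynomial comes from a specialisation

`B` integrally closed domain, `A` a domain integral over `B`, `u : A`, `φ : B →+* Ω` with `Ω` algebraically closed.
If `ω` is a root of `(minpoly B u).map φ` then there is `s : A →+* Ω` extending `φ` with `s u = ω`.

PROOF. Let `m = minpoly B u` (monic).
(1) `p : B[X]` with `aeval u p = 0` is divisible by `m` (`minpoly.isIntegrallyClosed_dvd` / `minpoly.ker_eval`),
    so `eval₂ φ ω p = 0`. Hence `ψ : Algebra.adjoin B {u} →+* Ω`, `aeval u p ↦ eval₂ φ ω p` is well defined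
    (e.g. `Ideal.Quotient.lift`/`RingHom.liftOfSurjective` for the surjection `B[X] → adjoin B {u}`, or `AdjoinRoot.lift`
    composed with the inverse of `minpoly.equivAdjoin`). Put `R = adjoin B {u}`; `A` is integral over `R`.
(2) Extension along the integral extension `R ⊂ A` of domains: `q = ker ψ` is prime; lying over
    (`Ideal.exists_ideal_over_prime_of_isIntegral` with `⊥`, or `Algebra.IsIntegral...comap_surjective`) gives a prime `Q` of `A` with
    `Q.comap (algebraMap R A) = q`. `A/Q` is integral, hence algebraic, over the domain `R/q`, and `R/q` embeds into `Ω` by `ψ`;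
    `IsAlgClosed.lift` (`Algebra (R/q) Ω` from this embedding) gives `A/Q →ₐ[R/q] Ω`. Compose with `A → A/Q`.
(See Mathlib/RingTheory/Nullstellensatz.lean, `eq_vanishingIdeal_singleton_of_isMaximal`, for the use of `IsAlgClosed.lift`.)
-/

set_option autoImplicit false

namespace Pool.Agent.Helper59.DX

open Polynomial

/-- extension of homomorphisms to an algebraically closed field along an integral extension of domains. -/
theorem exists_extension {R A Ω : Type*} [CommRing R] [IsDomain R] [CommRing A] [IsDomain A] [Algebra R A]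
    [Algebra.IsIntegral R A] (hinj : Function.Injective (algebraMap R A)) [Field Ω] [IsAlgClosed Ω]
    (ψ : R →+* Ω) : ∃ s : A →+* Ω, s.comp (algebraMap R A) = ψ := by
  have hp : (RingHom.ker ψ).IsPrime := RingHom.ker_isPrime ψ
  obtain ⟨Q, hQ, hQc⟩ := Ideal.exists_ideal_over_prime_of_isIntegral_of_isDomain (S := A) (RingHom.ker ψ)
    (by rw [(RingHom.injective_iff_ker_eq_bot _).1 hinj]; exact bot_le)
  have hl : Q.LiesOver (RingHom.ker ψ) := ⟨hQc.symm⟩
  let _ : Algebra (R ⧸ RingHom.ker ψ) Ω := (RingHom.kerLift ψ).toAlgebra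
  have hi : Function.Injective (algebraMap (R ⧸ RingHom.ker ψ) Ω) := RingHom.kerLift_injective ψ
  have h1 : FaithfulSMul (R ⧸ RingHom.ker ψ) Ω := (faithfulSMul_iff_algebraMap_injective _ _).2 hi
  have h2 : Module.IsTorsionFree (R ⧸ RingHom.ker ψ) Ω := Module.IsTorsionFree.of_faithfulSMul _ _ Ω
  have h3 : Algebra.IsIntegral (R ⧸ RingHom.ker ψ) (A ⧸ Q) := inferInstance
  have h4 : Function.Injective (algebraMap (R ⧸ RingHom.ker ψ) (A ⧸ Q)) :=
    (faithfulSMul_iff_algebraMap_injective _ _).1 inferInstance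
  have h5 : Algebra.IsAlgebraic (R ⧸ RingHom.ker ψ) (A ⧸ Q) := inferInstance
  have hd1 : IsDomain (R ⧸ RingHom.ker ψ) := Ideal.Quotient.isDomain _
  have hd2 : IsDomain (A ⧸ Q) := Ideal.Quotient.isDomain _
  have h6 : Module.IsTorsionFree (R ⧸ RingHom.ker ψ) (A ⧸ Q) :=
    Module.isTorsionFree_iff_algebraMap_injective.2 h4
  let t : (A ⧸ Q) →ₐ[R ⧸ RingHom.ker ψ] Ω := IsAlgClosed.lift
  refine ⟨t.toRingHom.comp (Ideal.Quotient.mk Q), ?_⟩
  ext r
  have h7 : Ideal.Quotient.mk Q (algebraMap R A r) =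
      algebraMap (R ⧸ RingHom.ker ψ) (A ⧸ Q) (Ideal.Quotient.mk _ r) := rfl
  change t (Ideal.Quotient.mk Q (algebraMap R A r)) = ψ r
  rw [h7, t.commutes]
  rfl

theorem roots_lift {B A Ω : Type*} [CommRing B] [IsDomain B] [IsIntegrallyClosed B] [CommRing A] [IsDomain A]
    [Algebra B A] [Algebra.IsIntegral B A] (hinj : Function.Injective (algebraMap B A)) [Field Ω]
    [IsAlgClosed Ω] (φ : B →+* Ω) (u : A) (ω : Ω) (hω : ((minpoly B u).map φ).eval ω = 0) :
    ∃ s : A →+* Ω, s.comp (algebraMap B A) = φ ∧ s u = ω := by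
  have h1 : FaithfulSMul B A := (faithfulSMul_iff_algebraMap_injective B A).2 hinj
  have h2 : Module.IsTorsionFree B A := Module.IsTorsionFree.of_faithfulSMul _ _ A
  have hu : IsIntegral B u := Algebra.IsIntegral.isIntegral u
  have he : (minpoly B u).eval₂ φ ω = 0 := by rw [← eval_map]; exact hω
  let e := minpoly.equivAdjoin hu
  let ψ : Algebra.adjoin B ({u} : Set A) →+* Ω :=
    (AdjoinRoot.lift φ ω he).comp (e.symm : Algebra.adjoin B ({u} : Set A) ≃ₐ[B] _).toAlgHom.toRingHom
  have h3 : Algebra.IsIntegral (Algebra.adjoin B ({u} : Set A)) A :=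
    Algebra.IsIntegral.tower_top B
  have h4 : Function.Injective (algebraMap (Algebra.adjoin B ({u} : Set A)) A) := Subtype.val_injective
  obtain ⟨s, hs⟩ := exists_extension h4 ψ
  refine ⟨s, ?_, ?_⟩
  · ext b
    have h5 : algebraMap B A b = algebraMap (Algebra.adjoin B ({u} : Set A)) A
      (algebraMap B (Algebra.adjoin B ({u} : Set A)) b) := rfl
    rw [RingHom.comp_apply, h5, ← RingHom.comp_apply s, hs]
    change AdjoinRoot.lift φ ω he (e.symm (algebraMap B _ b)) = φ b
    rw [e.symm.commutes]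
    exact AdjoinRoot.lift_of he
  · have h6 : u ∈ Algebra.adjoin B ({u} : Set A) := Algebra.subset_adjoin (Set.mem_singleton u)
    have h7 : e (AdjoinRoot.root (minpoly B u)) = ⟨u, h6⟩ := by
      apply Subtype.ext
      change ((minpoly.equivAdjoin hu (AdjoinRoot.root (minpoly B u)) : Algebra.adjoin B ({u} : Set A)) : A) = u
      rw [minpoly.coe_equivAdjoin, ← AdjoinRoot.mk_X]
      exact AdjoinRoot.Minpoly.coe_toAdjoin_mk_X
    have h8 : s u = ψ ⟨u, h6⟩ := by
      rw [← hs]; rfl
    rw [h8, ← h7]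
    change AdjoinRoot.lift φ ω he (e.symm (e _)) = ω
    rw [AlgEquiv.symm_apply_apply]
    exact AdjoinRoot.lift_root he

end Pool.Agent.Helper59.DX
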